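import Pool.Agent.Lib.UMB.SS.Red2

set_option autoImplicit false

/-!
# UMB section S: sublevel sets of a level function, `Encloses` and `AreaLE`
-/

open Filter Topology Set MeasureTheory Matrix
open scoped ContDiff

namespace UMB

open Pool.Agent.Lib.PenroseSph (E3 Tens pd trg energy momNorm trLevel meanCurv gradNorm normal normSqg momentum divg chr)
open SSM

/-- `θ` is continuous on the closed annulus, smooth inside, `0` on `|x| = 1`, `T` on `|x| = R`. -/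
structure LevFun (θ : E3 → ℝ) (R T : ℝ) : Prop where
  one_lt : 1 < R
  pos : 0 < T
  cont : ContinuousOn θ {x : E3 | 1 ≤ ‖x‖ ∧ ‖x‖ ≤ R}
  smooth : ContDiffOn ℝ ∞ θ {x : E3 | 1 < ‖x‖ ∧ ‖x‖ < R}
  inner : ∀ x : E3, ‖x‖ = 1 → θ x = 0
  outer : ∀ x : E3, ‖x‖ = R → θ x = T

/-- The part of the open annulus below the level `t`. -/
def lowT (θ : E3 → ℝ) (R t : ℝ) : Set E3 := {x : E3 | 1 < ‖x‖ ∧ ‖x‖ < R ∧ θ x < t}

/-- The enclosed set `{|x| ≤ 1} ∪ {θ < t}`. -/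
def FT (θ : E3 → ℝ) (R t : ℝ) : Set E3 := {x : E3 | ‖x‖ ≤ 1} ∪ lowT θ R t

/-- `A(t) = ∫_{θ < t} |∇θ| dV`. -/
noncomputable def AT (g : Tens) (θ : E3 → ℝ) (R t : ℝ) : ℝ :=
  ∫ x in lowT θ R t, gradNorm g θ x * Real.sqrt (g x).det

variable {g : Tens} {a R T t : ℝ} {θ : E3 → ℝ}

theorem isOpen_annO (R : ℝ) : IsOpen {x : E3 | 1 < ‖x‖ ∧ ‖x‖ < R} :=
  (isOpen_lt continuous_const continuous_norm).inter (isOpen_lt continuous_norm continuous_const)

theorem isClosed_annC (R : ℝ) : IsClosed {x : E3 | 1 ≤ ‖x‖ ∧ ‖x‖ ≤ R} :=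
  (isClosed_le continuous_const continuous_norm).inter (isClosed_le continuous_norm continuous_const)

theorem LevFun.contAt (h : LevFun θ R T) {x : E3} (hx : 1 < ‖x‖ ∧ ‖x‖ < R) : ContDiffAt ℝ ∞ θ x :=
  h.smooth.contDiffAt ((isOpen_annO R).mem_nhds hx)

/-- Near the inner sphere `θ < t` in the annulus. -/
theorem LevFun.near_inner (h : LevFun θ R T) {t : ℝ} (ht : 0 < t) {x : E3} (hx : ‖x‖ = 1) :
    ∀ᶠ y in 𝓝 x, 1 < ‖y‖ → ‖y‖ < R ∧ θ y < t := by
  have h1 : ∀ᶠ y in 𝓝[{x : E3 | 1 ≤ ‖x‖ ∧ ‖x‖ ≤ R}] x, θ y < t := by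
    have h2 := h.cont x ⟨hx.ge, hx.le.trans h.one_lt.le⟩
    have h3 : θ x < t := by rw [h.inner x hx]; exact ht
    exact h2.eventually (gt_mem_nhds h3)
  rw [eventually_nhdsWithin_iff] at h1
  have h4 : ∀ᶠ y in 𝓝 x, ‖y‖ < R := by
    apply (continuous_norm.tendsto x).eventually (gt_mem_nhds _)
    rw [hx]; exact h.one_lt
  filter_upwards [h1, h4] with y hy1 hy2 hy3
  exact ⟨hy2, hy1 ⟨hy3.le, hy2.le⟩⟩

/-- Near the outer sphere `t < θ` in the annulus. -/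
theorem LevFun.near_outer (h : LevFun θ R T) {t : ℝ} (ht : t < T) {x : E3} (hx : ‖x‖ = R) :
    ∀ᶠ y in 𝓝 x, 1 < ‖y‖ ∧ (‖y‖ < R → t < θ y) := by
  have h1 : ∀ᶠ y in 𝓝[{x : E3 | 1 ≤ ‖x‖ ∧ ‖x‖ ≤ R}] x, t < θ y := by
    have h2 := h.cont x ⟨h.one_lt.le.trans hx.ge, hx.le⟩
    have h3 : t < θ x := by rw [h.outer x hx]; exact ht
    exact h2.eventually (lt_mem_nhds h3)
  rw [eventually_nhdsWithin_iff] at h1
  have h4 : ∀ᶠ y in 𝓝 x, 1 < ‖y‖ := by
    apply (continuous_norm.tendsto x).eventually (lt_mem_nhds _)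
    rw [hx]; exact h.one_lt
  filter_upwards [h1, h4] with y hy1 hy2
  exact ⟨hy2, fun hy3 => hy1 ⟨hy2.le, hy3.le⟩⟩

theorem LevFun.isOpen_FT (h : LevFun θ R T) (ht : 0 < t) : IsOpen (FT θ R t) := by
  rw [isOpen_iff_mem_nhds]
  intro x hx
  rcases lt_trichotomy ‖x‖ 1 with h1 | h1 | h1
  · have : ∀ᶠ y in 𝓝 x, ‖y‖ < 1 := (continuous_norm.tendsto x).eventually (gt_mem_nhds h1)
    filter_upwards [this] with y hy
    exact Or.inl hy.le
  · filter_upwards [h.near_inner ht h1] with y hy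
    by_cases hy1 : ‖y‖ ≤ 1
    · exact Or.inl hy1
    · exact Or.inr ⟨not_le.1 hy1, (hy (not_le.1 hy1)).1, (hy (not_le.1 hy1)).2⟩
  · rcases hx with hx | hx
    · exact absurd hx (not_le.2 h1)
    · have h2 : ∀ᶠ y in 𝓝 x, 1 < ‖y‖ ∧ ‖y‖ < R := (isOpen_annO R).mem_nhds ⟨hx.1, hx.2.1⟩
      have h3 : ∀ᶠ y in 𝓝 x, θ y < t := (h.contAt ⟨hx.1, hx.2.1⟩).continuousAt.eventually (gt_mem_nhds hx.2.2)
      filter_upwards [h2, h3] with y hy2 hy3
      exact Or.inr ⟨hy2.1, hy2.2, hy3⟩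

/-- The frontier of the enclosed set. -/
theorem LevFun.frontier_FT (h : LevFun θ R T) (ht : 0 < t) (htT : t < T) {x : E3} (hx : x ∈ frontier (FT θ R t)) :
    (1 < ‖x‖ ∧ ‖x‖ < R) ∧ θ x = t := by
  have hx1 : x ∉ FT θ R t := by
    rw [(h.isOpen_FT ht).frontier_eq] at hx
    exact hx.2
  have hx2 : x ∈ closure (FT θ R t) := frontier_subset_closure hx
  have h1 : 1 < ‖x‖ := by
    by_contra hcon
    exact hx1 (Or.inl (not_lt.1 hcon))
  have hfr := mem_closure_iff_frequently.1 hx2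
  have h2 : ‖x‖ < R := by
    by_contra hcon
    rcases lt_or_eq_of_le (not_lt.1 hcon) with h3 | h3
    · have h4 : ∀ᶠ y in 𝓝 x, R < ‖y‖ := (continuous_norm.tendsto x).eventually (lt_mem_nhds h3)
      have h5 : ∀ᶠ y in 𝓝 x, 1 < ‖y‖ := (continuous_norm.tendsto x).eventually (lt_mem_nhds h1)
      obtain ⟨y, hy, hy4, hy5⟩ := (hfr.and_eventually (h4.and h5)).exists
      rcases hy with hy | hy
      · exact absurd hy (not_le.2 hy5)
      · exact absurd hy.2.1 (not_lt.2 hy4.le)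
    · obtain ⟨y, hy, hy4, hy5⟩ := (hfr.and_eventually (h.near_outer htT h3.symm)).exists
      rcases hy with hy | hy
      · exact absurd hy (not_le.2 hy4)
      · exact absurd hy.2.2 (not_lt.2 (hy5 hy.2.1).le)
  refine ⟨⟨h1, h2⟩, le_antisymm ?_ ?_⟩
  · by_contra hcon
    have h3 : ∀ᶠ y in 𝓝 x, t < θ y := (h.contAt ⟨h1, h2⟩).continuousAt.eventually (lt_mem_nhds (not_le.1 hcon))
    have h5 : ∀ᶠ y in 𝓝 x, 1 < ‖y‖ := (continuous_norm.tendsto x).eventually (lt_mem_nhds h1)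
    obtain ⟨y, hy, hy4, hy5⟩ := (hfr.and_eventually (h3.and h5)).exists
    rcases hy with hy | hy
    · exact absurd hy (not_le.2 hy5)
    · exact absurd hy.2.2 (not_lt.2 hy4.le)
  · by_contra hcon
    exact hx1 (Or.inr ⟨h1, h2, not_le.1 hcon⟩)

theorem LevFun.encloses (h : LevFun θ R T) (ht : 0 < t) (htT : t < T)
    (hreg : ∀ x : E3, 1 < ‖x‖ → ‖x‖ < R → θ x = t → fderiv ℝ θ x ≠ 0) : Encloses (FT θ R t) where
  isOpen := h.isOpen_FT ht
  bounded := by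
    apply (Metric.isBounded_closedBall (x := (0:E3)) (r := R)).subset
    intro x hx
    rw [mem_closedBall_zero_iff]
    rcases hx with hx | hx
    · exact (show ‖x‖ ≤ 1 from hx).trans h.one_lt.le
    · exact hx.2.1.le
  ball := by
    intro x hx
    rw [mem_ball_zero_iff] at hx
    exact Or.inl hx.le
  smooth := by
    intro x hx
    obtain ⟨h1, h2⟩ := h.frontier_FT ht htT hx
    refine ⟨fun y => θ y - t, (h.contAt h1).sub contDiffAt_const, ?_, ?_⟩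
    · rw [fderiv_sub_const]
      exact hreg x h1.1 h1.2 h2
    · filter_upwards [(isOpen_annO R).mem_nhds h1] with y hy
      constructor
      · rintro (hy1 | hy1)
        · exact absurd hy1 (not_le.2 hy.1)
        · exact sub_neg.2 hy1.2.2
      · intro hy1
        exact Or.inr ⟨hy.1, hy.2, sub_neg.1 hy1⟩

/-- Cauchy-Schwarz. -/
theorem cs_cov {x : E3} (hgs : (g x).IsSymm) (hgp : ∀ v : Fin 3 → ℝ, v ≠ 0 → 0 < quad g x v) (α X : Fin 3 → ℝ)
    (hX : quad g x X ≤ 1) : |∑ i, α i * X i| ≤ cnorm g x α := by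
  obtain ⟨e, he⟩ := exists_frame hgs hgp
  have hd := isUnit_det hgs hgp
  have h1 : ∑ i, α i * X i = ∑ b, (∑ i, α i * e b i) * bf (g x) (e b) X := by
    have h2 : ∀ i, X i = ∑ b, bf (g x) (e b) X * e b i := fun i => he.expand hd X i
    calc ∑ i, α i * X i = ∑ i, α i * ∑ b, bf (g x) (e b) X * e b i := by
          exact Finset.sum_congr rfl fun i _ => by rw [← h2 i]
      _ = _ := by simp only [Fin.sum_univ_three]; ring
  have h3 : ∑ b, (bf (g x) (e b) X) ^ 2 ≤ 1 := by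
    rw [← he.qfG hd]; exact hX
  unfold cnorm
  rw [he.cov]
  apply Real.abs_le_sqrt
  rw [h1]
  calc (∑ b, (∑ i, α i * e b i) * bf (g x) (e b) X) ^ 2
      ≤ (∑ b, (∑ i, α i * e b i) ^ 2) * ∑ b, (bf (g x) (e b) X) ^ 2 := Finset.sum_mul_sq_le_sq_mul_sq _ _ _
    _ ≤ (∑ b, (∑ i, α i * e b i) ^ 2) * 1 := by
        apply mul_le_mul_of_nonneg_left h3
        positivity
    _ = _ := mul_one _

end UMB
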