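import Pool.Agent.Lib.UMB.SS.Area

set_option autoImplicit false

/-!
# UMB section S: `AreaLE` for the sublevel sets
-/

open Filter Topology Set MeasureTheory Matrix
open scoped ContDiff

namespace UMB

open Pool.Agent.Lib.PenroseSph (E3 Tens pd trg energy momNorm trLevel meanCurv gradNorm normal normSqg momentum divg chr)
open SSM

variable {g : Tens} {a R T t : ℝ} {θ : E3 → ℝ}

theorem LevFun.isOpen_lowT (h : LevFun θ R T) (t : ℝ) : IsOpen (lowT θ R t) := by
  rw [isOpen_iff_mem_nhds]
  intro x hx
  have h2 : ∀ᶠ y in 𝓝 x, 1 < ‖y‖ ∧ ‖y‖ < R := (isOpen_annO R).mem_nhds ⟨hx.1, hx.2.1⟩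
  have h3 : ∀ᶠ y in 𝓝 x, θ y < t := (h.contAt ⟨hx.1, hx.2.1⟩).continuousAt.eventually (gt_mem_nhds hx.2.2)
  filter_upwards [h2, h3] with y hy2 hy3
  exact ⟨hy2.1, hy2.2, hy3⟩

theorem lowT_mono {s t : ℝ} (hst : s ≤ t) : lowT θ R s ⊆ lowT θ R t := fun _ hx => ⟨hx.1, hx.2.1, hx.2.2.trans_le hst⟩

theorem lowT_sub : lowT θ R t ⊆ {x : E3 | 1 < ‖x‖ ∧ ‖x‖ < R} := fun _ hx => ⟨hx.1, hx.2.1⟩

section field

variable {X : Fin 3 → E3 → ℝ}

/-- The weighted field is `C¹`. -/
theorem wfield_contDiff (hg : SmM g a) (hX1 : ∀ i, ContDiff ℝ 1 (X i))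
    (hXs : ∀ i, tsupport (X i) ⊆ {x : E3 | a < ‖x‖}) (i : Fin 3) :
    ContDiff ℝ 1 (fun y => Real.sqrt (g y).det * X i y) := by
  rw [contDiff_iff_contDiffAt]
  intro x
  by_cases hx : a < ‖x‖
  · have h1 : ContDiffAt ℝ ∞ (fun y => Real.sqrt (g y).det) x :=
      (s_det_at (fun i j => hg.sm.at hx i j)).sqrt (hg.det_pos hx).ne'
    exact (h1.of_le (by exact_mod_cast le_top)).mul (hX1 i).contDiffAt
  · have hx2 : x ∉ tsupport (X i) := fun h => hx (hXs i h)
    have h1 : (fun y => Real.sqrt (g y).det * X i y) =ᶠ[𝓝 x] fun _ => 0 := by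
      have h2 : X i =ᶠ[𝓝 x] 0 := notMem_tsupport_iff_eventuallyEq.1 hx2
      filter_upwards [h2] with y hy
      rw [hy]
      simp
    exact contDiffAt_const.congr_of_eventuallyEq h1

theorem wfield_compact (hXc : ∀ i, HasCompactSupport (X i)) (i : Fin 3) :
    HasCompactSupport (fun y => Real.sqrt (g y).det * X i y) := (hXc i).mul_left

theorem cont_pd {f : E3 → ℝ} (hf : ContDiff ℝ 1 f) (i : Fin 3) : Continuous (pd i f) := by
  unfold pd
  exact (hf.continuous_fderiv (by norm_num)).clm_apply continuous_const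

theorem compact_pd {f : E3 → ℝ} (hf : HasCompactSupport f) (i : Fin 3) : HasCompactSupport (pd i f) := by
  unfold pd
  exact hf.fderiv_apply (𝕜 := ℝ) (EuclideanSpace.single i 1)

end field

/-- The area of the level `t` is at most the derivative of `∫_{θ < t} |∇θ| dV`. -/
theorem LevFun.areaLE (h : LevFun θ R T) (hg : SmM g a) (ha : a < 1) (ht : 0 < t) (htT : t < T)
    (hint : IntegrableOn (fun x => gradNorm g θ x * Real.sqrt (g x).det) (lowT θ R t)) {c : ℝ}
    (hc : HasDerivAt (AT g θ R) c t) : AreaLE g a (FT θ R t) c := by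
  intro X hX1 hXc hXs hXn
  set Y : Fin 3 → E3 → ℝ := fun i y => Real.sqrt (g y).det * X i y with hY
  have hY1 : ∀ i, ContDiff ℝ 1 (Y i) := fun i => wfield_contDiff hg hX1 hXs i
  have hYc : ∀ i, HasCompactSupport (Y i) := fun i => wfield_compact hXc i
  set dY : E3 → ℝ := fun x => ∑ i, pd i (Y i) x with hdY
  have hdYi : ∀ i, Integrable (pd i (Y i)) := fun i =>
    (cont_pd (hY1 i) i).integrable_of_hasCompactSupport (compact_pd (hYc i) i)
  have hdYint : Integrable dY := integrable_finset_sum _ fun i _ => hdYi i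
  show ∫ x in FT θ R t, dY x ≤ c
  -- the difference quotient
  have hq : Tendsto (fun δ : ℝ => (AT g θ R t - AT g θ R (t - δ)) / δ) (𝓝[>] 0) (𝓝 c) := by
    have h1 := hasDerivAt_iff_tendsto_slope.1 hc
    have h2 : Tendsto (fun δ : ℝ => t - δ) (𝓝[>] 0) (𝓝[≠] t) := by
      rw [tendsto_nhdsWithin_iff]
      constructor
      · have : Tendsto (fun δ : ℝ => t - δ) (𝓝 0) (𝓝 (t - 0)) := Continuous.tendsto (by fun_prop) 0
        rw [sub_zero] at this
        exact this.mono_left nhdsWithin_le_nhds
      · filter_upwards [self_mem_nhdsWithin] with δ hδ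
        have : (0:ℝ) < δ := hδ
        show t - δ ≠ t
        linarith
    refine (h1.comp h2).congr fun δ => ?_
    simp only [Function.comp, slope_def_field]
    rw [show t - δ - t = -δ by ring, div_neg, ← neg_div, neg_sub]
  have hlm : MeasurableSet (lowT θ R t) := (h.isOpen_lowT t).measurableSet
  have hcn : 0 ≤ c := by
    refine ge_of_tendsto hq ?_
    filter_upwards [self_mem_nhdsWithin] with δ hδ
    have hδ0 : (0:ℝ) < δ := hδ
    apply div_nonneg _ hδ0.le
    have : AT g θ R (t - δ) ≤ AT g θ R t := by
      unfold AT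
      apply setIntegral_mono_set hint
      · apply Eventually.of_forall
        intro x
        exact mul_nonneg (Real.sqrt_nonneg _) (Real.sqrt_nonneg _)
      · exact (lowT_mono (by linarith)).eventuallyLE
    linarith
  -- main inequality
  have key : ∀ ε : ℝ, 0 < ε → ∫ x in FT θ R t, dY x ≤ (1 + ε) * c := by
    intro ε hε
    obtain ⟨S, S', hSd, hS'c, hS1, hS0, hSb, hSa⟩ := exists_cutoff hε
    have hFm : MeasurableSet (FT θ R t) := (h.isOpen_FT ht).measurableSet
    have hlim : Tendsto (fun δ : ℝ => ∫ x, cutF S θ R t δ x * dY x) (𝓝[>] 0)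
        (𝓝 (∫ x, (FT θ R t).indicator dY x)) := by
      apply tendsto_integral_filter_of_dominated_convergence (fun x => |dY x|)
      · filter_upwards [Ioo_mem_nhdsGT ht] with δ hδ
        exact ((cutF_diff h hδ.1 hδ.2 htT hSd hS1 hS0).continuous.mul
          (continuous_finsetSum _ fun i _ => cont_pd (hY1 i) i)).aestronglyMeasurable
      · apply Eventually.of_forall
        intro δ
        apply Eventually.of_forall
        intro x
        rw [Real.norm_eq_abs, abs_mul]
        have : |cutF S θ R t δ x| ≤ 1 := by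
          unfold cutF
          split_ifs
          · simp
          · exact hSa _
          · simp
        nlinarith [abs_nonneg (dY x)]
      · exact hdYint.abs
      · apply Eventually.of_forall
        intro x
        by_cases hx : x ∈ FT θ R t
        · rw [indicator_of_mem hx]
          have h1 : ∀ᶠ δ in 𝓝[>] (0:ℝ), cutF S θ R t δ x * dY x = dY x := by
            rcases hx with hx | hx
            · apply Eventually.of_forall
              intro δ
              unfold cutF
              rw [if_pos (show ‖x‖ ≤ 1 from hx), one_mul]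
            · have h2 : 0 < t - θ x := sub_pos.2 hx.2.2
              filter_upwards [Ioo_mem_nhdsGT h2] with δ hδ
              rw [cutF_ann ⟨hx.1, hx.2.1⟩, (hS1 _ _).1, one_mul]
              rw [div_le_iff₀ hδ.1]
              linarith [hδ.2]
          exact (tendsto_const_nhds).congr' (h1.mono fun δ hδ => hδ.symm)
        · rw [indicator_of_notMem hx]
          have h1 : ∀ᶠ δ in 𝓝[>] (0:ℝ), cutF S θ R t δ x * dY x = 0 := by
            filter_upwards [self_mem_nhdsWithin] with δ hδ
            have hδ0 : (0:ℝ) < δ := hδ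
            have hx1 : ¬ ‖x‖ ≤ 1 := fun h => hx (Or.inl h)
            unfold cutF
            rw [if_neg hx1]
            by_cases hx2 : ‖x‖ < R
            · rw [if_pos hx2, (hS0 _ _).1, zero_mul]
              apply div_nonneg _ hδ0.le
              have : ¬ θ x < t := fun h3 => hx (Or.inr ⟨not_le.1 hx1, hx2, h3⟩)
              linarith [not_lt.1 this]
            · rw [if_neg hx2, zero_mul]
          exact (tendsto_const_nhds).congr' (h1.mono fun δ hδ => hδ.symm)
    rw [integral_indicator hFm] at hlim
    refine le_of_tendsto_of_tendsto hlim (hq.const_mul (1 + ε)) ?_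
    filter_upwards [Ioo_mem_nhdsGT ht] with δ hδ
    obtain ⟨hδ0, hδt⟩ := hδ
    have hΦd := cutF_diff (R := R) (θ := θ) h hδ0 hδt htT hSd hS1 hS0
    have hΦp := fun i => pd_cutF_cont h hδ0 hδt htT hSd hS'c hS1 hS0 i
    -- integration by parts
    have hibp : ∀ i, ∫ x, cutF S θ R t δ x * pd i (Y i) x = - ∫ x, pd i (cutF S θ R t δ) x * Y i x := by
      intro i
      unfold pd
      apply integral_mul_fderiv_eq_neg_fderiv_mul_of_integrable
      · exact ((hΦp i).mul (hY1 i).continuous).integrable_of_hasCompactSupport (hYc i).mul_left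
      · exact (hΦd.continuous.mul (cont_pd (hY1 i) i)).integrable_of_hasCompactSupport (compact_pd (hYc i) i).mul_left
      · exact (hΦd.continuous.mul (hY1 i).continuous).integrable_of_hasCompactSupport (hYc i).mul_left
      · exact fun x _ => hΦd x
      · exact fun x _ => ((hY1 i).differentiable (by norm_num)) x
    have hsum : ∫ x, cutF S θ R t δ x * dY x = ∫ x, - ∑ i, pd i (cutF S θ R t δ) x * Y i x := by
      have e1 : ∀ x, cutF S θ R t δ x * dY x = ∑ i, cutF S θ R t δ x * pd i (Y i) x := fun x => Finset.mul_sum _ _ _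
      simp only [e1]
      rw [integral_finset_sum, integral_neg, integral_finset_sum, ← Finset.sum_neg_distrib]
      · exact Finset.sum_congr rfl fun i _ => hibp i
      · intro i _
        exact ((hΦp i).mul (hY1 i).continuous).integrable_of_hasCompactSupport (hYc i).mul_left
      · intro i _
        exact (hΦd.continuous.mul (cont_pd (hY1 i) i)).integrable_of_hasCompactSupport (compact_pd (hYc i) i).mul_left
    rw [hsum]
    set f0 : E3 → ℝ := fun x => gradNorm g θ x * Real.sqrt (g x).det with hf0
    have hlm2 : MeasurableSet (lowT θ R (t - δ)) := (h.isOpen_lowT _).measurableSet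
    have hdm : MeasurableSet (lowT θ R t \ lowT θ R (t - δ)) := hlm.diff hlm2
    have hint2 : IntegrableOn f0 (lowT θ R t \ lowT θ R (t - δ)) := hint.mono_set diff_subset
    have hI : ∫ x, (lowT θ R t \ lowT θ R (t - δ)).indicator (fun x => (1 + ε) / δ * f0 x) x =
        (1 + ε) * ((AT g θ R t - AT g θ R (t - δ)) / δ) := by
      rw [integral_indicator hdm, integral_const_mul, integral_diff hlm2 hint (lowT_mono (by linarith))]
      unfold AT
      ring
    rw [← hI]
    apply integral_mono
    · apply Integrable.neg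
      apply integrable_finset_sum
      intro i _
      exact ((hΦp i).mul (hY1 i).continuous).integrable_of_hasCompactSupport (hYc i).mul_left
    · rw [integrable_indicator_iff hdm]
      exact hint2.const_mul _
    intro x
    show - ∑ i, pd i (cutF S θ R t δ) x * Y i x ≤ (lowT θ R t \ lowT θ R (t - δ)).indicator (fun x => (1 + ε) / δ * f0 x) x
    have hind0 : 0 ≤ (lowT θ R t \ lowT θ R (t - δ)).indicator (fun x => (1 + ε) / δ * f0 x) x := by
      apply indicator_nonneg
      intro y _
      have h1 : 0 ≤ f0 y := mul_nonneg (Real.sqrt_nonneg _) (Real.sqrt_nonneg _)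
      positivity
    by_cases hx : 1 < ‖x‖ ∧ ‖x‖ < R
    · have e1 : ∀ i, pd i (cutF S θ R t δ) x = S' ((θ x - t) / δ) * (1 / δ) * pd i θ x := by
        intro i
        rw [pd_cutF h hδ0 hδt htT hSd hS1 hS0, indicator_of_mem (show x ∈ {x : E3 | 1 < ‖x‖ ∧ ‖x‖ < R} from hx)]
      by_cases hx1 : t ≤ θ x
      · have e2 : ∀ i, pd i (cutF S θ R t δ) x = 0 := by
          intro i
          rw [e1, (hS0 _ (div_nonneg (by linarith) hδ0.le)).2]
          ring
        simp only [e2, zero_mul, Finset.sum_const_zero, neg_zero]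
        exact hind0
      · rw [not_le] at hx1
        by_cases hx2 : θ x < t - δ
        · have e2 : ∀ i, pd i (cutF S θ R t δ) x = 0 := by
            intro i
            rw [e1, (hS1 _ _).2]
            · ring
            · rw [div_le_iff₀ hδ0]; linarith
          simp only [e2, zero_mul, Finset.sum_const_zero, neg_zero]
          exact hind0
        · rw [indicator_of_mem (show x ∈ lowT θ R t \ lowT θ R (t - δ) from ⟨⟨hx.1, hx.2, hx1⟩, fun h3 => hx2 h3.2.2⟩)]
          have hxa : a < ‖x‖ := ha.trans hx.1
          have h3 := cs_cov (hg.symm x hxa) (hg.pos x hxa) (fun i => pd i θ x) (fun i => X i x) (hXn x hxa)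
          rw [← gradNorm_eq] at h3
          have e3 : - ∑ i, pd i (cutF S θ R t δ) x * Y i x =
              (1 / δ * Real.sqrt (g x).det) * (- S' ((θ x - t) / δ) * ∑ i, pd i θ x * X i x) := by
            simp only [e1, hY, Fin.sum_univ_three]
            ring
          rw [e3]
          have h4 : - S' ((θ x - t) / δ) * ∑ i, pd i θ x * X i x ≤ (1 + ε) * gradNorm g θ x := by
            refine (le_abs_self _).trans ?_
            rw [abs_mul, abs_neg]
            exact mul_le_mul (hSb _) h3 (abs_nonneg _) (by linarith)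
          have h5 : 0 ≤ 1 / δ * Real.sqrt (g x).det := by positivity
          refine (mul_le_mul_of_nonneg_left h4 h5).trans (le_of_eq ?_)
          simp only [hf0]
          ring
    · have e2 : ∀ i, pd i (cutF S θ R t δ) x = 0 := by
        intro i
        rw [pd_cutF h hδ0 hδt htT hSd hS1 hS0, indicator_of_notMem (show x ∉ {x : E3 | 1 < ‖x‖ ∧ ‖x‖ < R} from hx)]
      simp only [e2, zero_mul, Finset.sum_const_zero, neg_zero]
      exact hind0
  refine le_of_forall_pos_le_add fun ε hε => ?_
  have h1 := key (ε / (c + 1)) (by positivity)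
  have h2 : (1 + ε / (c + 1)) * c ≤ c + ε := by
    have h3 : ε / (c + 1) * c ≤ ε := by
      rw [div_mul_eq_mul_div, div_le_iff₀ (by linarith)]
      nlinarith
    linarith
  linarith

end UMB
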