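import Pool.Agent.Lib.UMB.SS.Red
import Pool.Agent.Lib.PenroseSph.System

set_option autoImplicit false

/-!
# UMB section S: the reduction, assembly
-/

open Filter Topology Set MeasureTheory Matrix
open scoped ContDiff

namespace UMB

open Pool.Agent.Lib.PenroseSph (E3 Tens pd trg energy momNorm trLevel meanCurv gradNorm normal normSqg momentum divg chr
  S2 sm integrable_S2 norm_ray)
open SSM

variable {g h : Tens} {a s : ℝ} {x : E3}

/-- Cauchy-Schwarz. -/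
theorem cs_cov' {x : E3} (hgs : (g x).IsSymm) (hgp : ∀ v : Fin 3 → ℝ, v ≠ 0 → 0 < quad g x v) (α X : Fin 3 → ℝ)
    (hX : quad g x X ≤ 1) : |∑ i, α i * X i| ≤ cnorm g x α := by
  obtain ⟨e, he⟩ := exists_frame hgs hgp
  have hd := isUnit_det hgs hgp
  have h1 : ∑ i, α i * X i = ∑ b, (∑ i, α i * e b i) * bf (g x) (e b) X := by
    have h2 : ∀ i, X i = ∑ b, bf (g x) (e b) X * e b i := fun i => he.expand hd X i
    calc ∑ i, α i * X i = ∑ i, α i * ∑ b, bf (g x) (e b) X * e b i := by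
          exact Finset.sum_congr rfl fun i _ => by rw [← h2 i]
      _ = _ := by simp only [Fin.sum_univ_three]; ring
  have h3 : ∑ b, (bf (g x) (e b) X) ^ 2 ≤ 1 := by
    rw [← he.qfG hd]; exact hX
  unfold cnorm
  rw [he.cov]
  apply Real.abs_le_sqrt
  rw [h1]
  calc (∑ b, (∑ i, α i * e b i) * bf (g x) (e b) X) ^ 2
      ≤ (∑ b, (∑ i, α i * e b i) ^ 2) * ∑ b, (bf (g x) (e b) X) ^ 2 := Finset.sum_mul_sq_le_sq_mul_sq _ _ _
    _ ≤ (∑ b, (∑ i, α i * e b i) ^ 2) * 1 := by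
        apply mul_le_mul_of_nonneg_left h3
        positivity
    _ = _ := mul_one _

theorem SmM.gradSq_pos (hg : SmM g a) (hx : a < ‖x‖) {w : E3 → ℝ} (hw : ∃ i, pd i w x ≠ 0) :
    0 < ∑ i, ∑ j, (g x)⁻¹ i j * pd i w x * pd j w x := by
  have hgs := hg.symm x hx
  have hgp := hg.pos x hx
  rw [← quad_grad hgs hgp]
  apply hgp
  intro h0
  obtain ⟨i, hi⟩ := hw
  apply hi
  have hd := hg.det hx
  have h4 : (g x) * (g x)⁻¹ = 1 := mul_nonsing_inv _ hd
  have h5 : pd i w x = ∑ k, ((g x) * (g x)⁻¹) i k * pd k w x := by rw [h4]; simp [Matrix.one_apply]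
  have h6 : ∑ k, ((g x) * (g x)⁻¹) i k * pd k w x = ∑ j, g x i j * (∑ k, (g x)⁻¹ k j * pd k w x) := by
    simp only [Matrix.mul_apply, Fin.sum_univ_three]
    rw [inv_symm hgs 1 0, inv_symm hgs 2 0, inv_symm hgs 2 1]
    ring
  rw [h5, h6]
  exact Finset.sum_eq_zero fun j _ => by rw [show (∑ k, (g x)⁻¹ k j * pd k w x) = 0 from congrFun h0 j, mul_zero]

theorem SmM.gradNorm_at (hg : SmM g a) (hx : a < ‖x‖) {w : E3 → ℝ} (hw : ∃ i, pd i w x ≠ 0)
    (hws : ContDiffAt ℝ ∞ w x) : ContDiffAt ℝ ∞ (gradNorm g w) x := by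
  unfold gradNorm
  refine ContDiffAt.sqrt ?_ (hg.gradSq_pos hx hw).ne'
  exact ContDiffAt.sum fun i _ => ContDiffAt.sum fun j _ =>
    ((hg.inv hx i j).mul (contDiffAt_pd hws i)).mul (contDiffAt_pd hws j)

theorem SmM.gradNorm_cont (hg : SmM g a) (hx : a < ‖x‖) {w : E3 → ℝ} (hws : ContDiffAt ℝ ∞ w x) :
    ContinuousAt (gradNorm g w) x := by
  unfold gradNorm
  refine ContinuousAt.sqrt ?_
  have : ContDiffAt ℝ ∞ (fun x => ∑ i, ∑ j, (g x)⁻¹ i j * pd i w x * pd j w x) x :=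
    ContDiffAt.sum fun i _ => ContDiffAt.sum fun j _ =>
    ((hg.inv hx i j).mul (contDiffAt_pd hws i)).mul (contDiffAt_pd hws j)
  exact this.continuousAt

theorem SmM.gradNorm_pos (hg : SmM g a) (hx : a < ‖x‖) {w : E3 → ℝ} (hw : ∃ i, pd i w x ≠ 0) :
    0 < gradNorm g w x := Real.sqrt_pos.2 (hg.gradSq_pos hx hw)

theorem SmM.normal_at (hg : SmM g a) (hx : a < ‖x‖) {w : E3 → ℝ} (hw : ∃ i, pd i w x ≠ 0)
    (hws : ContDiffAt ℝ ∞ w x) (i : Fin 3) : ContDiffAt ℝ ∞ (normal g w i) x := by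
  unfold normal
  refine ContDiffAt.div ?_ (hg.gradNorm_at hx hw hws) (hg.gradNorm_pos hx hw).ne'
  exact ContDiffAt.sum fun j _ => (hg.inv hx i j).mul (contDiffAt_pd hws j)

theorem SmM.trLevel_at (hg : SmM g a) (hh : SmT h a) (hx : a < ‖x‖) {w : E3 → ℝ} (hw : ∃ i, pd i w x ≠ 0)
    (hws : ContDiffAt ℝ ∞ w x) : ContDiffAt ℝ ∞ (trLevel g h w) x := by
  unfold trLevel
  exact ContDiffAt.sum fun i _ => ContDiffAt.sum fun j _ => ((hg.inv hx i j).sub
    ((hg.normal_at hx hw hws i).mul (hg.normal_at hx hw hws j))).mul (hh.at hx i j)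

theorem SmM.sphTr_at (hg : SmM g a) (hh : SmT h a) (hx : a < ‖x‖) (hx0 : x ≠ 0) : ContDiffAt ℝ ∞ (sphTr g h) x :=
  hg.trLevel_at hh hx (pd_norm_ne hx0) (contDiffAt_norm ℝ hx0)

theorem SmM.sphTr_cont (hg : SmM g a) (hh : SmT h a) : ContinuousOn (sphTr g h) {x : E3 | max a 0 < ‖x‖} := by
  intro x hx
  have hx' : max a 0 < ‖x‖ := hx
  have hx0 : x ≠ 0 := by
    intro h0
    rw [h0, norm_zero] at hx'
    exact absurd (le_max_right a 0) (not_le.2 hx')
  exact (hg.sphTr_at hh (lt_of_le_of_lt (le_max_left _ _) hx') hx0).continuousAt.continuousWithinAt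

theorem sph_int {f : E3 → ℝ} {b r : ℝ} (hb : 0 ≤ b) (hf : ContinuousOn f {x : E3 | b < ‖x‖}) (hr : b < r) :
    Integrable (fun n : S2 => r ^ 2 * |f (r • (n : E3))|) sm := by
  apply integrable_S2
  exact continuous_const.mul (Pool.Agent.Lib.PenroseSph.cont_ray hb hf hr).abs

theorem trFlux_mono (hg : SmM g a) (ha : a < 1) {k : Tens} (hh : SmT h a) (hk : SmT k a) {r : ℝ} (hr : 1 ≤ r)
    (hle : ∀ x : E3, 1 ≤ ‖x‖ → |sphTr g k x| ≤ |sphTr g h x|) : trFlux g k r ≤ trFlux g h r := by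
  unfold trFlux
  have hr' : max a 0 < r := lt_of_lt_of_le (max_lt ha one_pos) hr
  refine integral_mono (sph_int (le_max_right _ _) (hg.sphTr_cont hk) hr')
    (sph_int (le_max_right _ _) (hg.sphTr_cont hh) hr') fun n => ?_
  have h1 : 1 ≤ ‖r • (n : E3)‖ := by rw [norm_ray (by linarith)]; exact hr
  exact mul_le_mul_of_nonneg_left (hle _ h1) (by positivity)

theorem dpsi_cont (hs : 0 < s) : Continuous (dpsi s) := by
  unfold dpsi
  refine Continuous.div (by fun_prop) (by fun_prop) fun t => ?_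
  have h1 := rad_pos hs t
  positivity

theorem etaS_cont (hs : 0 < s) (hg : SmM g a) (hh : SmT h a) (hx : a < ‖x‖) : ContinuousAt (etaS g h s) x := by
  unfold etaS
  have h1 : ContinuousAt (trg g h) x := (hg.trg_at hh hx).continuousAt
  have h2 : ContinuousAt (fun x => dpsi s (trg g h x)) x :=
    ContinuousAt.comp (g := dpsi s) (dpsi_cont hs).continuousAt h1
  exact continuousAt_const.add (((continuousAt_const.mul h1.abs).mul h2).mul (hg.gradNorm_cont hx (hg.trg_at hh hx)))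

theorem etaS_nonneg (hs : 0 < s) : 0 ≤ etaS g h s x := by
  unfold etaS
  have h1 := dpsi_nonneg hs (trg g h x)
  have h2 : 0 ≤ gradNorm g (trg g h) x := Real.sqrt_nonneg _
  positivity

/-- `|t| ψ_s'(t) ≤ 1`. -/
theorem abs_mul_dpsi_le (hs : 0 < s) (t : ℝ) : |t| * dpsi s t ≤ 1 := by
  unfold dpsi
  have h1 := rad_pos hs t
  have h6 := Real.sqrt_pos.2 h1
  have h7 : |t| ≤ Real.sqrt (t ^ 2 + s ^ 2) := by
    apply Real.abs_le_sqrt
    nlinarith [sq_nonneg s]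
  rw [mul_div_assoc', div_le_one (by positivity), mul_comm (t ^ 2 + s ^ 2)]
  have h8 : s ^ 2 ≤ t ^ 2 + s ^ 2 := by nlinarith [sq_nonneg t]
  exact mul_le_mul h7 h8 (by positivity) h6.le

theorem etaS_le (hs : 0 < s) : etaS g h s x ≤ s ^ 2 / 2 + 2 * gradNorm g (trg g h) x := by
  unfold etaS
  have h1 := abs_mul_dpsi_le hs (trg g h x)
  have h2 : 0 ≤ gradNorm g (trg g h) x := Real.sqrt_nonneg _
  nlinarith [mul_le_mul_of_nonneg_right h1 h2]

/-- `|t| ψ_s'(t) → 0` as `s → 0`. -/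
theorem tendsto_abs_dpsi (t : ℝ) : Tendsto (fun s : ℝ => |t| * dpsi s t) (𝓝[>] 0) (𝓝 0) := by
  by_cases ht : t = 0
  · subst ht
    simp
  · have h1 : Tendsto (fun s : ℝ => |t| * dpsi s t) (𝓝 0) (𝓝 (|t| * dpsi 0 t)) := by
      apply Tendsto.const_mul
      have : ContinuousAt (fun s : ℝ => dpsi s t) 0 := by
        unfold dpsi
        have h2 : ((t ^ 2 + (0:ℝ) ^ 2) * Real.sqrt (t ^ 2 + 0 ^ 2)) ≠ 0 := by
          have : 0 < t ^ 2 := by positivity
          have h3 : 0 < t ^ 2 + (0:ℝ) ^ 2 := by simpa using this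
          exact (mul_pos h3 (Real.sqrt_pos.2 h3)).ne'
        exact ContinuousAt.div (by fun_prop) (by fun_prop) h2
      exact this
    have h3 : |t| * dpsi 0 t = 0 := by unfold dpsi; simp
    rw [h3] at h1
    exact h1.mono_left nhdsWithin_le_nhds

theorem tendsto_etaS (g h : Tens) (x : E3) : Tendsto (fun s : ℝ => etaS g h s x) (𝓝[>] 0) (𝓝 0) := by
  unfold etaS
  have h1 : Tendsto (fun s : ℝ => s ^ 2 / 2) (𝓝[>] 0) (𝓝 0) := by
    have : Tendsto (fun s : ℝ => s ^ 2 / 2) (𝓝 0) (𝓝 (0 ^ 2 / 2)) := Continuous.tendsto (by fun_prop) 0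
    simp only [ne_eq, OfNat.ofNat_ne_zero, not_false_eq_true, zero_pow, zero_div] at this
    exact this.mono_left nhdsWithin_le_nhds
  have h2 := ((tendsto_abs_dpsi (trg g h x)).const_mul 2).mul_const (gradNorm g (trg g h) x)
  have h3 := h1.add h2
  simp only [mul_zero, zero_mul, add_zero] at h3
  refine h3.congr fun s => ?_
  ring

/-- The reduction. -/
theorem reduction_aux (hg : SmM g a) (ha : a < 1) (hh : SmT h a) (hhs : ∀ x : E3, a < ‖x‖ → (h x).IsSymm)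
    (hdec : ∀ x : E3, 1 ≤ ‖x‖ → momNorm g h x ≤ energy g h x)
    (hO : ∀ x : E3, 1 ≤ ‖x‖ → OneSign g h x)
    (hS : ∀ x : E3, ‖x‖ = 1 → meanCurv g (fun y => ‖y‖) x ≤ |sphTr g h x|) {K : ℝ}
    (hK : ∀ x : E3, 1 ≤ ‖x‖ → ∀ i j, |h x i j| ≤ K / ‖x‖ ^ 2) {R0 δ : ℝ} (hs : 0 < s)
    (hF : ∀ r : ℝ, R0 ≤ r → trFlux g h r ≤ δ) (hR0 : 1 ≤ R0) :
    Adm g (kS g h s) a K (etaS g h s) (2 * s) R0 δ where
  smooth := kS_smooth hs hg hh
  symm := fun x hx => (hhs x hx).smul _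
  bound := fun x hx i j => (kS_abs_le hs i j).trans (hK x hx i j)
  two := fun x hx => two_kS hs (hO x hx) (hg.symm x (by linarith)) (hg.pos x (by linarith))
  cont_err := fun x hx => (etaS_cont hs hg hh (lt_of_lt_of_le ha hx)).continuousWithinAt
  err_nonneg := fun x _ => etaS_nonneg hs
  err0_nonneg := by positivity
  dec := fun x hx => dec_kS hs hg hh (lt_of_lt_of_le ha hx) (hhs x (lt_of_lt_of_le ha hx)) (hO x hx) (hdec x hx)
  horizon := fun x hx => by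
    have hx1 : 1 ≤ ‖x‖ := hx.ge
    have hxa := lt_of_lt_of_le ha hx1
    have hx0 : x ≠ 0 := by
      intro h0
      rw [h0, norm_zero] at hx
      exact one_ne_zero hx.symm
    exact (hS x hx).trans (sphTr_kS_abs hs (hO x hx1) (hg.symm x hxa) (hhs x hxa) (hg.pos x hxa) hx0)
  flux := fun r hr => by
    refine (trFlux_mono hg ha hh (kS_smooth hs hg hh) (hR0.trans hr) fun x _ => ?_).trans (hF r hr)
    rw [sphTr_kS, abs_mul]
    have := abs_psi_le hs (trg g h x)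
    nlinarith [abs_nonneg (sphTr g h x)]

/-- The errors tend to zero in `L²` of the annulus. -/
theorem etaS_tendsto_aux (hg : SmM g a) (ha : a < 1) (hh : SmT h a) (R : ℝ) :
    Tendsto (fun s : ℝ => ∫ x in {x : E3 | 1 ≤ ‖x‖ ∧ ‖x‖ ≤ R}, (etaS g h s x) ^ 2) (𝓝[>] 0) (𝓝 0) := by
  have hcpt : IsCompact {x : E3 | 1 ≤ ‖x‖ ∧ ‖x‖ ≤ R} := by
    have h1 : {x : E3 | 1 ≤ ‖x‖ ∧ ‖x‖ ≤ R} = Metric.closedBall 0 R ∩ {x : E3 | 1 ≤ ‖x‖} := by
      ext x
      simp [and_comm]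
    rw [h1]
    exact (isCompact_closedBall _ _).inter_right (isClosed_le continuous_const continuous_norm)
  have hmem : ∀ x ∈ {x : E3 | 1 ≤ ‖x‖ ∧ ‖x‖ ≤ R}, a < ‖x‖ := fun x hx => lt_of_lt_of_le ha hx.1
  have hms : MeasurableSet {x : E3 | 1 ≤ ‖x‖ ∧ ‖x‖ ≤ R} := hcpt.measurableSet
  have hgc : ContinuousOn (fun x => gradNorm g (trg g h) x) {x : E3 | 1 ≤ ‖x‖ ∧ ‖x‖ ≤ R} := fun x hx =>
    (hg.gradNorm_cont (hmem x hx) (hg.trg_at hh (hmem x hx))).continuousWithinAt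
  have hlim : Tendsto (fun s : ℝ => ∫ x in {x : E3 | 1 ≤ ‖x‖ ∧ ‖x‖ ≤ R}, (etaS g h s x) ^ 2) (𝓝[>] 0)
      (𝓝 (∫ x in {x : E3 | 1 ≤ ‖x‖ ∧ ‖x‖ ≤ R}, (0:ℝ))) := by
    apply tendsto_integral_filter_of_dominated_convergence
      (fun x => (1 / 2 + 2 * gradNorm g (trg g h) x) ^ 2)
    · filter_upwards [self_mem_nhdsWithin] with s hs
      have hs0 : 0 < s := hs
      apply ContinuousOn.aestronglyMeasurable _ hms
      exact ContinuousOn.pow (fun x hx => (etaS_cont hs0 hg hh (hmem x hx)).continuousWithinAt) 2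
    · have h1 : Ioo (0:ℝ) 1 ∈ 𝓝[>] (0:ℝ) := Ioo_mem_nhdsGT one_pos
      filter_upwards [h1] with s hs
      apply Eventually.of_forall
      intro x
      have h2 := etaS_le (g := g) (h := h) (x := x) hs.1
      have h3 := etaS_nonneg (g := g) (h := h) (x := x) hs.1
      rw [Real.norm_eq_abs, abs_of_nonneg (by positivity)]
      have h4 : s ^ 2 ≤ 1 := by nlinarith [hs.1, hs.2]
      exact pow_le_pow_left₀ h3 (by linarith) 2
    · exact ((continuousOn_const.add (continuousOn_const.mul hgc)).pow 2).integrableOn_compact hcpt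
    · apply Eventually.of_forall
      intro x
      have := (tendsto_etaS g h x).pow 2
      simpa using this
  simpa using hlim

end UMB
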