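import Pool.Agent.Lib.UMB.SS.Flux3

set_option autoImplicit false

/-!
# UMB section S: polar coordinates, the integrated flux inequality
-/

open Filter Topology Set MeasureTheory Matrix
open scoped ContDiff

namespace UMB

open Pool.Agent.Lib.PenroseSph (E3 Tens pd trg energy momNorm trLevel meanCurv gradNorm normal normSqg momentum divg chr
  S2 sm integrable_S2 norm_ray avg avg_congr avg_mono avg_add avg_sub avg_smul flux_deriv avg_const cont_ray)
open SSM

/-- Continuity of spherical averages. -/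
theorem avg_contOn {b : ℝ} (hb : 0 ≤ b) {f : E3 → ℝ} (hf : ContinuousOn f {x : E3 | b < ‖x‖}) :
    ContinuousOn (avg f) (Ioi b) := by
  intro t ht
  have ht' : b < t := ht
  apply ContinuousAt.continuousWithinAt
  unfold avg
  apply ContinuousAt.mul continuousAt_const
  set e := (t - b) / 2 with he
  have he0 : 0 < e := by rw [he]; linarith
  have hcpt : IsCompact {x : E3 | t - e ≤ ‖x‖ ∧ ‖x‖ ≤ t + e} := by
    have h1 : {x : E3 | t - e ≤ ‖x‖ ∧ ‖x‖ ≤ t + e} = Metric.closedBall 0 (t + e) ∩ {x : E3 | t - e ≤ ‖x‖} := by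
      ext x
      simp [and_comm]
    rw [h1]
    exact (isCompact_closedBall _ _).inter_right (isClosed_le continuous_const continuous_norm)
  have hsub : {x : E3 | t - e ≤ ‖x‖ ∧ ‖x‖ ≤ t + e} ⊆ {x : E3 | b < ‖x‖} := fun x hx => by
    have := hx.1
    show b < ‖x‖
    linarith
  obtain ⟨M, hM⟩ := hcpt.exists_bound_of_continuousOn (hf.mono hsub)
  have hev : ∀ᶠ r in 𝓝 t, r ∈ Icc (t - e) (t + e) := Icc_mem_nhds (by linarith) (by linarith)
  apply continuousAt_of_dominated (bound := fun _ => M)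
  · filter_upwards [hev] with r hr
    exact (cont_ray hb hf (by linarith [hr.1])).aestronglyMeasurable
  · filter_upwards [hev] with r hr
    apply Eventually.of_forall
    intro n
    apply hM
    show t - e ≤ ‖r • (n : E3)‖ ∧ ‖r • (n : E3)‖ ≤ t + e
    rw [norm_ray (by linarith [hr.1])]
    exact hr
  · exact integrable_const _
  · apply Eventually.of_forall
    intro n
    have h2 : ContinuousAt f (t • (n : E3)) := by
      apply hf.continuousAt
      apply (isOpen_ext' b).mem_nhds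
      show b < ‖t • (n : E3)‖
      rw [norm_ray (by linarith)]
      exact ht'
    exact ContinuousAt.comp (f := fun r : ℝ => r • (n : E3)) h2 (by fun_prop)

theorem s_radial (g : ℝ → ℝ) :
    ∫ t : Ioi (0 : ℝ), g t ∂(Measure.volumeIoiPow 2) = ∫ t in Ioi (0 : ℝ), t ^ 2 * g t := by
  simp only [Measure.volumeIoiPow, ENNReal.ofReal]
  rw [integral_withDensity_eq_integral_smul,
    integral_subtype_comap measurableSet_Ioi fun a ↦ Real.toNNReal (a ^ 2) • g a,
    setIntegral_congr_fun measurableSet_Ioi fun x hx ↦ ?_]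
  · rw [NNReal.smul_def, Real.coe_toNNReal _ (pow_nonneg (le_of_lt hx) _)]
    rfl
  · exact (measurable_subtype_coe.pow_const _).real_toNNReal

theorem isOpen_shell (b c : ℝ) : IsOpen {x : E3 | b < ‖x‖ ∧ ‖x‖ < c} :=
  (isOpen_lt continuous_const continuous_norm).inter (isOpen_lt continuous_norm continuous_const)

/-- Polar coordinates on a shell, radial variable outside. -/
theorem polar_shell {b c : ℝ} (hb : 0 ≤ b) (hbc : b ≤ c) {f : E3 → ℝ}
    (hf : IntegrableOn f {x : E3 | b < ‖x‖ ∧ ‖x‖ < c}) :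
    ∫ x in {x : E3 | b < ‖x‖ ∧ ‖x‖ < c}, f x = ∫ r in b..c, r ^ 2 * ∫ n : S2, f (r • (n : E3)) ∂sm := by
  have hfin : Module.finrank ℝ E3 - 1 = 2 := by simp
  have hms := (isOpen_shell b c).measurableSet
  set g : E3 → ℝ := ({x : E3 | b < ‖x‖ ∧ ‖x‖ < c}).indicator f with hg
  have hgint : Integrable g volume := (integrable_indicator_iff hms).mpr hf
  have hmp := Measure.measurePreserving_homeomorphUnitSphereProd (volume : Measure E3)
  rw [hfin] at hmp
  set h : Metric.sphere (0 : E3) 1 × Ioi (0 : ℝ) → ℝ := fun q => g ((q.2 : ℝ) • (q.1 : E3)) with hh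
  have hcomp : ∀ y : ({(0 : E3)}ᶜ : Set E3), h (homeomorphUnitSphereProd E3 y) = g y.1 := by
    intro y
    have hy : (y : E3) ≠ 0 := y.2
    have hn : ‖(y : E3)‖ ≠ 0 := norm_ne_zero_iff.mpr hy
    simp [hh, smul_smul, hn]
  have e1 : ∫ x in {x : E3 | b < ‖x‖ ∧ ‖x‖ < c}, f x = ∫ x, g x := (integral_indicator hms).symm
  have e2 : ∫ x, g x = ∫ y : ({(0 : E3)}ᶜ : Set E3), g y.1 ∂(Measure.comap Subtype.val (volume : Measure E3)) := by
    rw [integral_subtype_comap (measurableSet_singleton _).compl (fun y => g y), restrict_compl_singleton]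
  have e3 : ∫ y : ({(0 : E3)}ᶜ : Set E3), g y.1 ∂(Measure.comap Subtype.val (volume : Measure E3))
      = ∫ q, h q ∂(sm.prod (Measure.volumeIoiPow 2)) := by
    rw [← hmp.integral_comp (Homeomorph.measurableEmbedding _)]
    exact integral_congr_ae (Filter.Eventually.of_forall fun y => (hcomp y).symm)
  have hhint : Integrable h (sm.prod (Measure.volumeIoiPow 2)) := by
    rw [← hmp.integrable_comp_emb (Homeomorph.measurableEmbedding _)]
    have h1 : (h ∘ (homeomorphUnitSphereProd E3)) = g ∘ (Subtype.val : ({(0 : E3)}ᶜ : Set E3) → E3) := by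
      funext y
      exact hcomp y
    rw [h1, ← integrableOn_iff_comap_subtypeVal (measurableSet_singleton _).compl]
    exact hgint.integrableOn
  have e4 : ∫ q, h q ∂(sm.prod (Measure.volumeIoiPow 2))
      = ∫ t : Ioi (0 : ℝ), (∫ n : Metric.sphere (0 : E3) 1, h (n, t) ∂sm) ∂(Measure.volumeIoiPow 2) :=
    integral_prod_symm h hhint
  rw [e1, e2, e3, e4]
  have e5 : ∫ t : Ioi (0 : ℝ), (∫ n : Metric.sphere (0 : E3) 1, h (n, t) ∂sm) ∂(Measure.volumeIoiPow 2) =
      ∫ t in Ioi (0 : ℝ), t ^ 2 * ∫ n : Metric.sphere (0 : E3) 1, g (t • (n : E3)) ∂sm :=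
    s_radial fun t => ∫ n : Metric.sphere (0 : E3) 1, g (t • (n : E3)) ∂sm
  rw [e5, intervalIntegral.integral_of_le hbc, integral_Ioc_eq_integral_Ioo]
  have h2 : ∀ t ∈ Ioi (0 : ℝ), t ^ 2 * ∫ n : Metric.sphere (0 : E3) 1, g (t • (n : E3)) ∂sm
      = (Ioo b c).indicator (fun t => t ^ 2 * ∫ n : S2, f (t • (n : E3)) ∂sm) t := by
    intro t ht
    have ht0 : (0:ℝ) < t := ht
    by_cases hmem : t ∈ Ioo b c
    · rw [indicator_of_mem hmem]
      congr 1
      apply integral_congr_ae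
      apply Eventually.of_forall
      intro n
      show g (t • (n : E3)) = f (t • (n : E3))
      rw [hg, indicator_of_mem]
      have := norm_ray ht0 n
      exact ⟨by rw [this]; exact hmem.1, by rw [this]; exact hmem.2⟩
    · rw [indicator_of_notMem hmem]
      have : ∀ n : S2, g (t • (n : E3)) = 0 := by
        intro n
        rw [hg, indicator_of_notMem]
        rintro ⟨h4, h5⟩
        rw [norm_ray ht0 n] at h4 h5
        exact hmem ⟨h4, h5⟩
      simp [this]
  rw [setIntegral_congr_fun measurableSet_Ioi h2, setIntegral_indicator measurableSet_Ioo]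
  congr 2
  ext t
  constructor
  · rintro ⟨_, h4⟩
    exact h4
  · intro h4
    exact ⟨lt_of_le_of_lt hb h4.1, h4⟩

theorem polar_avg {b c : ℝ} (hb : 0 ≤ b) (hbc : b ≤ c) {f : E3 → ℝ}
    (hf : IntegrableOn f {x : E3 | b < ‖x‖ ∧ ‖x‖ < c}) :
    ∫ r in b..c, r ^ 2 * avg f r = (4 * Real.pi)⁻¹ * ∫ x in {x : E3 | b < ‖x‖ ∧ ‖x‖ < c}, f x := by
  rw [polar_shell hb hbc hf, ← intervalIntegral.integral_const_mul]
  apply intervalIntegral.integral_congr
  intro r _
  unfold avg
  ring

variable {g k : Tens} {a ε D K C : ℝ}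

theorem FZ_hasDeriv {r0 : ℝ} (h : FarM g a C r0) (hk : SmT k a) {t : ℝ} (ht : r0 ≤ t) :
    HasDerivAt (FZ g k) (t ^ 2 * avg (fun x => ∑ i, pd i (Zf g k i) x) t) t := by
  have ht0 : 0 < t := by linarith [h.one_le]
  exact flux_deriv (le_max_right a 0) (max_lt (lt_of_lt_of_le h.lt ht) ht0) fun i => Zf_C1 h.sm hk i

/-- The integrated flux inequality. -/
theorem PhiT_ineq {r0 : ℝ} (h : FarM g a C r0) (hk : SmT k a) (hks : ∀ x : E3, a < ‖x‖ → (k x).IsSymm) (hK0 : 0 ≤ K)
    (hK : ∀ x : E3, 1 ≤ ‖x‖ → ∀ i j, |k x i j| ≤ K / ‖x‖ ^ 2) {c ε1 : ℝ} (hc : 0 < c)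
    (hT : ∀ x : E3, r0 ≤ ‖x‖ → sphTr g k x ≤ c * trg g k x + ε1 / ‖x‖ ^ 2) {m : E3 → ℝ}
    (hmc : ContinuousOn m {x : E3 | max a 0 < ‖x‖}) (hm0 : ∀ x : E3, r0 ≤ ‖x‖ → 0 ≤ m x)
    (hm : ∀ x : E3, r0 ≤ ‖x‖ → momNorm g k x ≤ m x) {t1 T t : ℝ} (ht1 : r0 ≤ t1) (ht : t1 ≤ t) (htT : t ≤ T) :
    PhiT g k t1 - (155400 * (C * K) / t1 + 2 * ∫ r in t1..T, r ^ 2 * avg m r) +
      ∫ r in t1..t, (1 / r) * ((2 / c - 1) * PhiT g k r - (2 / c) * ε1) ≤ PhiT g k t := by
  have hone := h.one_le
  have ht10 : 0 < t1 := by linarith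
  have hCK : 0 ≤ C * K := mul_nonneg h.C_nonneg hK0
  have hmb : 0 ≤ max a 0 := le_max_right _ _
  have hmt1 : max a 0 < t1 := max_lt (lt_of_lt_of_le h.lt ht1) ht10
  have hsubI : ∀ b c : ℝ, t1 ≤ b → Icc b c ⊆ Ioi (max a 0) := fun b c hb r hr => by
    have := hr.1
    show max a 0 < r
    linarith
  have hcm : ContinuousOn (fun r => r ^ 2 * avg m r) (Ioi (max a 0)) :=
    (continuousOn_id.pow 2).mul (avg_contOn hmb hmc)
  have hcP : ContinuousOn (PhiT g k) (Ioi (max a 0)) :=
    (continuousOn_id.pow 2).mul (avg_contOn hmb (h.sm.sphTr_cont hk))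
  have hcG : ContinuousOn (fun r : ℝ => (1 / r) * ((2 / c - 1) * PhiT g k r - (2 / c) * ε1)) (Ioi (max a 0)) := by
    refine ContinuousOn.mul ?_ ((continuousOn_const.mul hcP).sub continuousOn_const)
    refine continuousOn_const.div continuousOn_id fun r hr => ?_
    have : max a 0 < r := hr
    exact (lt_of_le_of_lt hmb this).ne'
  have hcS : ContinuousOn (fun r : ℝ => 151800 * (C * K) / r ^ 2) (Ioi (max a 0)) := by
    refine continuousOn_const.div (continuousOn_id.pow 2) fun r hr => ?_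
    have : max a 0 < r := hr
    exact pow_ne_zero 2 (lt_of_le_of_lt hmb this).ne'
  have hII : ∀ {f : ℝ → ℝ}, ContinuousOn f (Ioi (max a 0)) → ∀ b c : ℝ, t1 ≤ b → b ≤ c → IntervalIntegrable f volume b c := by
    intro f hf b c hb hbc
    apply ContinuousOn.intervalIntegrable
    rw [uIcc_of_le hbc]
    exact hf.mono (hsubI b c hb)
  have hFc : ContinuousOn (FZ g k) (Icc t1 t) := fun r hr =>
    (FZ_hasDeriv h hk (ht1.trans hr.1)).continuousAt.continuousWithinAt
  have key : ∫ r in t1..t, (- 2 * (r ^ 2 * avg m r) - 151800 * (C * K) / r ^ 2 +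
      (1 / r) * ((2 / c - 1) * PhiT g k r - (2 / c) * ε1)) ≤ FZ g k t - FZ g k t1 := by
    apply intervalIntegral.integral_le_sub_of_hasDeriv_right_of_le ht hFc
      (g' := fun r => r ^ 2 * avg (fun x => ∑ i, pd i (Zf g k i) x) r)
    · intro r hr
      exact (FZ_hasDeriv h hk (ht1.trans hr.1.le)).hasDerivWithinAt
    · apply ContinuousOn.integrableOn_Icc
      exact (((continuousOn_const.mul hcm).sub hcS).add hcG).mono (hsubI _ _ le_rfl)
    · intro r hr
      exact dFZ_lower h hk hks hK hc hT hmc hm (ht1.trans hr.1.le)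
  have h1 : ∫ r in t1..t, (- 2 * (r ^ 2 * avg m r) - 151800 * (C * K) / r ^ 2 +
      (1 / r) * ((2 / c - 1) * PhiT g k r - (2 / c) * ε1)) =
      - 2 * (∫ r in t1..t, r ^ 2 * avg m r) - (∫ r in t1..t, 151800 * (C * K) / r ^ 2) +
      ∫ r in t1..t, (1 / r) * ((2 / c - 1) * PhiT g k r - (2 / c) * ε1) := by
    rw [intervalIntegral.integral_add, intervalIntegral.integral_sub, intervalIntegral.integral_const_mul]
    · exact (hII hcm _ _ le_rfl ht).const_mul _
    · exact hII hcS _ _ le_rfl ht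
    · exact ((hII hcm _ _ le_rfl ht).const_mul _).sub (hII hcS _ _ le_rfl ht)
    · exact hII hcG _ _ le_rfl ht
  have h2 : ∫ r in t1..t, 151800 * (C * K) / r ^ 2 ≤ 151800 * (C * K) / t1 := by
    have ht0 : 0 < t := lt_of_lt_of_le ht10 ht
    have h3 : ∫ r in t1..t, 151800 * (C * K) / r ^ 2 = 151800 * (C * K) / t1 - 151800 * (C * K) / t := by
      have h4 : ∀ r ∈ uIcc t1 t, HasDerivAt (fun r : ℝ => - (151800 * (C * K)) / r) (151800 * (C * K) / r ^ 2) r := by
        intro r hr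
        rw [uIcc_of_le ht] at hr
        have hr0 : r ≠ 0 := (lt_of_lt_of_le ht10 hr.1).ne'
        have := (hasDerivAt_inv hr0).const_mul (- (151800 * (C * K)))
        refine (this.congr_deriv ?_)
        field_simp
      rw [intervalIntegral.integral_eq_sub_of_hasDerivAt h4 (hII hcS _ _ le_rfl ht)]
      ring
    rw [h3]
    have : 0 ≤ 151800 * (C * K) / t := by positivity
    linarith
  have h5 : ∫ r in t1..t, r ^ 2 * avg m r ≤ ∫ r in t1..T, r ^ 2 * avg m r := by
    rw [← intervalIntegral.integral_add_adjacent_intervals (hII hcm _ _ le_rfl ht) (hII hcm _ _ ht htT)]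
    have : 0 ≤ ∫ r in t..T, r ^ 2 * avg m r := by
      apply intervalIntegral.integral_nonneg htT
      intro r hr
      have hr0 : 0 < r := lt_of_lt_of_le (lt_of_lt_of_le ht10 ht) hr.1
      apply mul_nonneg (sq_nonneg r)
      have h6 : avg (fun _ => (0:ℝ)) r ≤ avg m r := by
        apply avg_mono hmb (max_lt (lt_of_lt_of_le h.lt (ht1.trans (ht.trans hr.1))) hr0) continuousOn_const hmc
        intro n
        apply hm0
        rw [norm_ray hr0]
        exact ht1.trans (ht.trans hr.1)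
      rw [avg_const] at h6
      exact h6
    linarith
  have h7 := abs_le.1 (FZ_near h hk hK (ht1.trans ht))
  have h8 := abs_le.1 (FZ_near h hk hK ht1)
  have h9 : 1800 * (C * K) / t ≤ 1800 * (C * K) / t1 := by
    apply div_le_div_of_nonneg_left (by positivity) ht10 ht
  have h10 : 155400 * (C * K) / t1 = 151800 * (C * K) / t1 + 1800 * (C * K) / t1 + 1800 * (C * K) / t1 := by ring
  rw [h1] at key
  rw [h10]
  linarith [h7.1, h7.2, h8.1, h8.2]

end UMB
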