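import Pool.Agent.Lib.UMB.SS.Levels

set_option autoImplicit false

/-!
# UMB section S: the area of almost every level is at most the derivative of `∫_{θ < t} |∇θ| dV`
-/

open Filter Topology Set MeasureTheory Matrix
open scoped ContDiff

namespace UMB

open Pool.Agent.Lib.PenroseSph (E3 Tens pd trg energy momNorm trLevel meanCurv gradNorm normal normSqg momentum divg chr)
open SSM

/-- A trapezoid. -/
noncomputable def trap (η u : ℝ) : ℝ := max 0 (min 1 (min ((u + 1) / η) (-u / η)))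

theorem trap_cont (η : ℝ) : Continuous (trap η) := by
  unfold trap
  fun_prop

theorem trap_nonneg (η u : ℝ) : 0 ≤ trap η u := le_max_left _ _

theorem trap_le (η u : ℝ) : trap η u ≤ 1 := max_le zero_le_one (min_le_left _ _)

theorem trap_zero_left {η u : ℝ} (hη : 0 < η) (hu : u ≤ -1) : trap η u = 0 := by
  unfold trap
  apply max_eq_left
  refine (min_le_right _ _).trans ((min_le_left _ _).trans ?_)
  apply div_nonpos_of_nonpos_of_nonneg (by linarith) hη.le

theorem trap_zero_right {η u : ℝ} (hη : 0 < η) (hu : 0 ≤ u) : trap η u = 0 := by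
  unfold trap
  apply max_eq_left
  refine (min_le_right _ _).trans ((min_le_right _ _).trans ?_)
  apply div_nonpos_of_nonpos_of_nonneg (by linarith) hη.le

theorem trap_one {η u : ℝ} (hη : 0 < η) (h1 : -1 + η ≤ u) (h2 : u ≤ -η) : trap η u = 1 := by
  unfold trap
  have h3 : 1 ≤ (u + 1) / η := by rw [le_div_iff₀ hη]; linarith
  have h4 : 1 ≤ -u / η := by rw [le_div_iff₀ hη]; linarith
  rw [min_eq_left (le_min h3 h4), max_eq_right zero_le_one]

theorem trap_int {η : ℝ} (hη : 0 < η) (hη2 : η < 1 / 2) : 1 - 2 * η ≤ ∫ u in (-1:ℝ)..0, trap η u := by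
  have hi : ∀ b c : ℝ, IntervalIntegrable (trap η) volume b c := fun b c => (trap_cont η).intervalIntegrable _ _
  have h1 : ∫ u in (-1:ℝ)..0, trap η u = (∫ u in (-1:ℝ)..(-1 + η), trap η u) +
      ((∫ u in (-1 + η)..(-η), trap η u) + ∫ u in (-η)..0, trap η u) := by
    rw [intervalIntegral.integral_add_adjacent_intervals (hi _ _) (hi _ _),
      intervalIntegral.integral_add_adjacent_intervals (hi _ _) (hi _ _)]
  have h2 : ∫ u in (-1 + η)..(-η), trap η u = ∫ u in (-1 + η)..(-η), (1:ℝ) := by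
    apply intervalIntegral.integral_congr
    intro u hu
    rw [uIcc_of_le (by linarith)] at hu
    exact trap_one hη hu.1 hu.2
  have h3 : 0 ≤ ∫ u in (-1:ℝ)..(-1 + η), trap η u :=
    intervalIntegral.integral_nonneg (by linarith) fun u _ => trap_nonneg η u
  have h4 : 0 ≤ ∫ u in (-η)..0, trap η u :=
    intervalIntegral.integral_nonneg (by linarith) fun u _ => trap_nonneg η u
  rw [h1, h2]
  simp only [intervalIntegral.integral_const, smul_eq_mul, mul_one]
  linarith

/-- The cutoff function of one variable. -/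
theorem exists_cutoff {ε : ℝ} (hε : 0 < ε) : ∃ S S' : ℝ → ℝ, (∀ u, HasDerivAt S (S' u) u) ∧ Continuous S' ∧
    (∀ u, u ≤ -1 → S u = 1 ∧ S' u = 0) ∧ (∀ u, 0 ≤ u → S u = 0 ∧ S' u = 0) ∧ (∀ u, |S' u| ≤ 1 + ε) ∧
    ∀ u, |S u| ≤ 1 := by
  set η : ℝ := ε / (4 * (1 + ε)) with hη
  have hη0 : 0 < η := by positivity
  have hη2 : η < 1 / 2 := by
    rw [hη, div_lt_iff₀ (by positivity)]
    linarith
  set I : ℝ := ∫ u in (-1:ℝ)..0, trap η u with hI
  have hI1 := trap_int hη0 hη2
  rw [← hI] at hI1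
  have hI0 : 0 < I := by linarith
  have hI2 : 1 / I ≤ 1 + ε := by
    rw [div_le_iff₀ hI0]
    have h1 : 1 - 2 * η = (2 + ε) / (2 * (1 + ε)) := by
      rw [hη]; field_simp; ring
    have h2 : (1 + ε) * ((2 + ε) / (2 * (1 + ε))) ≤ (1 + ε) * I := by
      rw [← h1]; exact mul_le_mul_of_nonneg_left hI1 (by linarith)
    have h3 : (1 + ε) * ((2 + ε) / (2 * (1 + ε))) = (2 + ε) / 2 := by field_simp
    linarith
  have hi : ∀ b c : ℝ, IntervalIntegrable (trap η) volume b c := fun b c => (trap_cont η).intervalIntegrable _ _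
  have hleft : ∀ u : ℝ, u ≤ -1 → ∫ v in (-1:ℝ)..u, trap η v = 0 := by
    intro u hu
    rw [intervalIntegral.integral_symm, neg_eq_zero]
    have : ∫ v in u..(-1:ℝ), trap η v = ∫ v in u..(-1:ℝ), (0:ℝ) := by
      apply intervalIntegral.integral_congr
      intro v hv
      rw [uIcc_of_le hu] at hv
      exact trap_zero_left hη0 hv.2
    rw [this]; simp
  have hright : ∀ u : ℝ, 0 ≤ u → ∫ v in (-1:ℝ)..u, trap η v = I := by
    intro u hu
    rw [← intervalIntegral.integral_add_adjacent_intervals (hi (-1) 0) (hi 0 u), ← hI]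
    have : ∫ v in (0:ℝ)..u, trap η v = ∫ v in (0:ℝ)..u, (0:ℝ) := by
      apply intervalIntegral.integral_congr
      intro v hv
      rw [uIcc_of_le hu] at hv
      exact trap_zero_right hη0 hv.1
    rw [this]; simp
  have hmono : ∀ u : ℝ, 0 ≤ (∫ v in (-1:ℝ)..u, trap η v) / I ∧ (∫ v in (-1:ℝ)..u, trap η v) / I ≤ 1 := by
    intro u
    rcases le_total u (-1) with h1 | h1
    · rw [hleft u h1]; simp
    · rcases le_total u 0 with h2 | h2
      · have h3 : 0 ≤ ∫ v in (-1:ℝ)..u, trap η v := intervalIntegral.integral_nonneg h1 fun v _ => trap_nonneg η v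
        have h4 : 0 ≤ ∫ v in u..(0:ℝ), trap η v := intervalIntegral.integral_nonneg h2 fun v _ => trap_nonneg η v
        have h5 := intervalIntegral.integral_add_adjacent_intervals (hi (-1) u) (hi u 0)
        rw [← hI] at h5
        exact ⟨div_nonneg h3 hI0.le, (div_le_one hI0).2 (by linarith)⟩
      · rw [hright u h2, div_self hI0.ne']; norm_num
  refine ⟨fun u => 1 - (∫ v in (-1:ℝ)..u, trap η v) / I, fun u => - (trap η u / I), ?_, ?_, ?_, ?_, ?_, ?_⟩
  · intro u
    have h1 : HasDerivAt (fun u => ∫ v in (-1:ℝ)..u, trap η v) (trap η u) u :=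
      intervalIntegral.integral_hasDerivAt_right (hi _ _) ((trap_cont η).stronglyMeasurableAtFilter _ _)
        (trap_cont η).continuousAt
    exact (h1.div_const I).const_sub 1
  · exact ((trap_cont η).div_const I).neg
  · intro u hu
    beta_reduce
    rw [hleft u hu, trap_zero_left hη0 hu]; simp
  · intro u hu
    beta_reduce
    rw [hright u hu, trap_zero_right hη0 hu, div_self hI0.ne']; simp
  · intro u
    rw [abs_neg, abs_of_nonneg (div_nonneg (trap_nonneg η u) hI0.le)]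
    exact (div_le_div_of_nonneg_right (trap_le η u) hI0.le).trans hI2
  · intro u
    obtain ⟨h1, h2⟩ := hmono u
    rw [abs_of_nonneg (by linarith)]
    linarith

variable {g : Tens} {a R T t : ℝ} {θ : E3 → ℝ}

open Classical in
/-- The cutoff `1` inside, `S((θ - t)/δ)` in the annulus, `0` outside. -/
noncomputable def cutF (S : ℝ → ℝ) (θ : E3 → ℝ) (R t δ : ℝ) (x : E3) : ℝ :=
  if ‖x‖ ≤ 1 then 1 else if ‖x‖ < R then S ((θ x - t) / δ) else 0

section cut

variable {S S' : ℝ → ℝ} {δ : ℝ}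

theorem cutF_ann {x : E3} (hx : 1 < ‖x‖ ∧ ‖x‖ < R) : cutF S θ R t δ x = S ((θ x - t) / δ) := by
  unfold cutF
  rw [if_neg (not_le.2 hx.1), if_pos hx.2]

theorem cutF_inner (h : LevFun θ R T) (hδ : 0 < δ) (hδt : δ < t) (hS1 : ∀ u, u ≤ -1 → S u = 1 ∧ S' u = 0)
    {x : E3} (hx : ‖x‖ ≤ 1) : cutF S θ R t δ =ᶠ[𝓝 x] fun _ => 1 := by
  rcases lt_or_eq_of_le hx with h1 | h1
  · have : ∀ᶠ y in 𝓝 x, ‖y‖ < 1 := (continuous_norm.tendsto x).eventually (gt_mem_nhds h1)
    filter_upwards [this] with y hy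
    unfold cutF
    rw [if_pos hy.le]
  · filter_upwards [h.near_inner (t := t - δ) (by linarith) h1] with y hy
    unfold cutF
    by_cases hy1 : ‖y‖ ≤ 1
    · rw [if_pos hy1]
    · rw [if_neg hy1, if_pos (hy (not_le.1 hy1)).1]
      apply (hS1 _ _).1
      rw [div_le_iff₀ hδ]
      linarith [(hy (not_le.1 hy1)).2]

theorem cutF_outer (h : LevFun θ R T) (hδ : 0 < δ) (htT : t < T) (hS0 : ∀ u, 0 ≤ u → S u = 0 ∧ S' u = 0)
    {x : E3} (hx : R ≤ ‖x‖) : cutF S θ R t δ =ᶠ[𝓝 x] fun _ => 0 := by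
  rcases lt_or_eq_of_le hx with h1 | h1
  · have h2 : ∀ᶠ y in 𝓝 x, R < ‖y‖ := (continuous_norm.tendsto x).eventually (lt_mem_nhds h1)
    filter_upwards [h2] with y hy
    unfold cutF
    rw [if_neg (not_le.2 (h.one_lt.trans hy)), if_neg (not_lt.2 hy.le)]
  · filter_upwards [h.near_outer htT h1.symm] with y hy
    unfold cutF
    rw [if_neg (not_le.2 hy.1)]
    by_cases hy1 : ‖y‖ < R
    · rw [if_pos hy1]
      apply (hS0 _ _).1
      exact div_nonneg (by linarith [hy.2 hy1]) hδ.le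
    · rw [if_neg hy1]

theorem cutF_hasFDeriv (h : LevFun θ R T) (hSd : ∀ u, HasDerivAt S (S' u) u) {x : E3} (hx : 1 < ‖x‖ ∧ ‖x‖ < R) :
    HasFDerivAt (cutF S θ R t δ) ((S' ((θ x - t) / δ) * (1 / δ)) • fderiv ℝ θ x) x := by
  have h1 : HasFDerivAt θ (fderiv ℝ θ x) x := ((h.contAt hx).differentiableAt (by simp)).hasFDerivAt
  have h2 : HasFDerivAt (fun y => (θ y - t) / δ) ((1 / δ) • fderiv ℝ θ x) x := by
    have h3 := (h1.sub_const t).const_mul (1 / δ)
    refine h3.congr_of_eventuallyEq (Eventually.of_forall fun y => ?_)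
    show (θ y - t) / δ = 1 / δ * (θ y - t)
    ring
  have h4 := (hSd ((θ x - t) / δ)).comp_hasFDerivAt x h2
  rw [smul_smul] at h4
  refine h4.congr_of_eventuallyEq ?_
  filter_upwards [(isOpen_annO R).mem_nhds hx] with y hy
  exact cutF_ann hy

/-- The gradient of the cutoff. -/
theorem pd_cutF (h : LevFun θ R T) (hδ : 0 < δ) (hδt : δ < t) (htT : t < T)
    (hSd : ∀ u, HasDerivAt S (S' u) u) (hS1 : ∀ u, u ≤ -1 → S u = 1 ∧ S' u = 0)
    (hS0 : ∀ u, 0 ≤ u → S u = 0 ∧ S' u = 0) (x : E3) (i : Fin 3) :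
    pd i (cutF S θ R t δ) x =
      {x : E3 | 1 < ‖x‖ ∧ ‖x‖ < R}.indicator (fun x => S' ((θ x - t) / δ) * (1 / δ) * pd i θ x) x := by
  by_cases hx : 1 < ‖x‖ ∧ ‖x‖ < R
  · rw [indicator_of_mem (show x ∈ {x : E3 | 1 < ‖x‖ ∧ ‖x‖ < R} from hx)]
    unfold pd
    rw [(cutF_hasFDeriv h hSd hx).fderiv]
    rfl
  · rw [indicator_of_notMem (show x ∉ {x : E3 | 1 < ‖x‖ ∧ ‖x‖ < R} from hx)]
    unfold pd
    rw [not_and_or, not_lt, not_lt] at hx
    rcases hx with hx | hx
    · rw [(cutF_inner (S' := S') h hδ hδt hS1 hx).fderiv_eq]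
      simp
    · rw [(cutF_outer (S' := S') h hδ htT hS0 hx).fderiv_eq]
      simp

theorem cutF_diff (h : LevFun θ R T) (hδ : 0 < δ) (hδt : δ < t) (htT : t < T)
    (hSd : ∀ u, HasDerivAt S (S' u) u) (hS1 : ∀ u, u ≤ -1 → S u = 1 ∧ S' u = 0)
    (hS0 : ∀ u, 0 ≤ u → S u = 0 ∧ S' u = 0) : Differentiable ℝ (cutF S θ R t δ) := by
  intro x
  by_cases hx : 1 < ‖x‖ ∧ ‖x‖ < R
  · exact (cutF_hasFDeriv h hSd hx).differentiableAt
  · rw [not_and_or, not_lt, not_lt] at hx
    rcases hx with hx | hx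
    · exact (cutF_inner (S' := S') h hδ hδt hS1 hx).differentiableAt_iff.2 (differentiableAt_const _)
    · exact (cutF_outer (S' := S') h hδ htT hS0 hx).differentiableAt_iff.2 (differentiableAt_const _)

/-- Continuity of the gradient of the cutoff. -/
theorem pd_cutF_cont (h : LevFun θ R T) (hδ : 0 < δ) (hδt : δ < t) (htT : t < T)
    (hSd : ∀ u, HasDerivAt S (S' u) u) (hS'c : Continuous S') (hS1 : ∀ u, u ≤ -1 → S u = 1 ∧ S' u = 0)
    (hS0 : ∀ u, 0 ≤ u → S u = 0 ∧ S' u = 0) (i : Fin 3) : Continuous (pd i (cutF S θ R t δ)) := by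
  rw [continuous_iff_continuousAt]
  intro x
  by_cases hx : 1 < ‖x‖ ∧ ‖x‖ < R
  · have h1 : pd i (cutF S θ R t δ) =ᶠ[𝓝 x] fun x => S' ((θ x - t) / δ) * (1 / δ) * pd i θ x := by
      filter_upwards [(isOpen_annO R).mem_nhds hx] with y hy
      rw [pd_cutF h hδ hδt htT hSd hS1 hS0, indicator_of_mem (show y ∈ {x : E3 | 1 < ‖x‖ ∧ ‖x‖ < R} from hy)]
    rw [continuousAt_congr h1]
    have h2 : ContinuousAt (fun x => (θ x - t) / δ) x := ((h.contAt hx).continuousAt.sub continuousAt_const).div_const δ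
    exact ((hS'c.continuousAt.comp h2).mul continuousAt_const).mul (contDiffAt_pd (h.contAt hx) i).continuousAt
  · rw [not_and_or, not_lt, not_lt] at hx
    have key : ∀ c : ℝ, cutF S θ R t δ =ᶠ[𝓝 x] (fun _ => c) → ContinuousAt (pd i (cutF S θ R t δ)) x := by
      intro c hc
      have h1 : pd i (cutF S θ R t δ) =ᶠ[𝓝 x] fun _ => 0 := by
        filter_upwards [hc.eventuallyEq_nhds] with y hy
        unfold pd
        rw [hy.fderiv_eq]
        simp
      rw [continuousAt_congr h1]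
      exact continuousAt_const
    rcases hx with hx | hx
    · exact key 1 (cutF_inner (S' := S') h hδ hδt hS1 hx)
    · exact key 0 (cutF_outer (S' := S') h hδ htT hS0 hx)

end cut

end UMB
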