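import Pool.Agent.Lib.UMB.SS.Area2

set_option autoImplicit false

/-!
# UMB section S: choice of the level
-/

open Filter Topology Set MeasureTheory Matrix
open scoped ContDiff

namespace UMB

open Pool.Agent.Lib.PenroseSph (E3 Tens pd trg energy momNorm trLevel meanCurv gradNorm normal normSqg momentum divg chr)
open SSM

variable {g : Tens} {a R T t : ℝ} {θ : E3 → ℝ}

theorem AreaLE.mono {F : Set E3} {c c' : ℝ} (h : AreaLE g a F c) (hc : c ≤ c') : AreaLE g a F c' :=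
  fun X h1 h2 h3 h4 => (h X h1 h2 h3 h4).trans hc

theorem AT_monoOn (s t1 : ℝ)
    (hint : IntegrableOn (fun x => gradNorm g θ x * Real.sqrt (g x).det) (lowT θ R t1)) :
    MonotoneOn (AT g θ R) (Icc s t1) := by
  intro p _ q hq hpq
  unfold AT
  apply setIntegral_mono_set (hint.mono_set (lowT_mono hq.2))
  · apply Eventually.of_forall
    intro x
    exact mul_nonneg (Real.sqrt_nonneg _) (Real.sqrt_nonneg _)
  · exact (lowT_mono hpq).eventuallyLE

/-- Choice of a level in the window `(s, t1)`. -/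
theorem LevFun.exists_level (h : LevFun θ R T) (hg : SmM g a) (ha : a < 1) {s t1 M : ℝ} (hs : 0 ≤ s) (hst : s < t1)
    (ht1 : t1 ≤ T) (hint : IntegrableOn (fun x => gradNorm g θ x * Real.sqrt (g x).det) (lowT θ R t1))
    (hreg : ∀ᵐ τ : ℝ, 0 < τ → τ < T → ∀ x : E3, 1 < ‖x‖ → ‖x‖ < R → θ x = τ → fderiv ℝ θ x ≠ 0)
    (hM : AT g θ R t1 - AT g θ R s ≤ M) :
    ∃ t ∈ Ioo s t1, Encloses (FT θ R t) ∧ AreaLE g a (FT θ R t) (M / (t1 - s)) := by
  have hmono := AT_monoOn (g := g) s t1 hint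
  have hmono' : MonotoneOn (AT g θ R) (uIcc s t1) := by rw [uIcc_of_le hst.le]; exact hmono
  have hII := hmono'.intervalIntegrable_deriv
  have hint2 := hmono'.intervalIntegral_deriv_mem_uIcc
  have hIon : IntegrableOn (deriv (AT g θ R)) (Ioo s t1) := by
    rw [intervalIntegrable_iff_integrableOn_Ioo_of_le hst.le] at hII
    exact hII
  have hvol : (volume (Ioo s t1)) ≠ 0 := by
    rw [Real.volume_Ioo]
    exact (ENNReal.ofReal_pos.2 (by linarith)).ne'
  have hvol2 : (volume (Ioo s t1)) ≠ ⊤ := by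
    rw [Real.volume_Ioo]
    exact ENNReal.ofReal_ne_top
  have hpos := measure_le_setAverage_pos hvol hvol2 hIon
  have hae1 : ∀ᵐ τ : ℝ, τ ∈ Ioo s t1 → DifferentiableAt ℝ (AT g θ R) τ := by
    have h1 := hmono.ae_differentiableWithinAt measurableSet_Icc
    rw [ae_restrict_iff' measurableSet_Icc] at h1
    filter_upwards [h1] with τ hτ hτ2
    exact (hτ ⟨hτ2.1.le, hτ2.2.le⟩).differentiableAt (Icc_mem_nhds hτ2.1 hτ2.2)
  have hae := hae1.and hreg
  have hne : ∃ τ, τ ∈ {x ∈ Ioo s t1 | deriv (AT g θ R) x ≤ ⨍ y in Ioo s t1, deriv (AT g θ R) y} ∧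
      ((τ ∈ Ioo s t1 → DifferentiableAt ℝ (AT g θ R) τ) ∧
        (0 < τ → τ < T → ∀ x : E3, 1 < ‖x‖ → ‖x‖ < R → θ x = τ → fderiv ℝ θ x ≠ 0)) := by
    by_contra hcon
    push Not at hcon
    have hnull : volume {x ∈ Ioo s t1 | deriv (AT g θ R) x ≤ ⨍ y in Ioo s t1, deriv (AT g θ R) y} = 0 := by
      refine measure_mono_null ?_ (ae_iff.1 hae)
      intro τ hτ hτ2
      obtain ⟨h5, h6, x, h7, h8, h9, h10⟩ := hcon τ hτ hτ2.1
      exact hτ2.2 h5 h6 x h7 h8 h9 h10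
    exact hpos.ne' hnull
  obtain ⟨τ, hτ, hdiff, hr⟩ := hne
  have hτI := hτ.1
  have hτ0 : 0 < τ := lt_of_le_of_lt hs hτI.1
  have hτT : τ < T := lt_of_lt_of_le hτI.2 ht1
  refine ⟨τ, hτI, h.encloses hτ0 hτT (hr hτ0 hτT), ?_⟩
  have hle : deriv (AT g θ R) τ ≤ M / (t1 - s) := by
    refine hτ.2.trans ?_
    rw [setAverage_eq, smul_eq_mul, Real.volume_real_Ioo_of_le hst.le, ← integral_Ioc_eq_integral_Ioo,
      ← intervalIntegral.integral_of_le hst.le, inv_mul_eq_div]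
    apply div_le_div_of_nonneg_right _ (by linarith)
    have h1 : AT g θ R s ≤ AT g θ R t1 := hmono ⟨le_rfl, hst.le⟩ ⟨hst.le, le_rfl⟩ hst.le
    rw [uIcc_of_le (by linarith)] at hint2
    exact hint2.2.trans hM
  exact (h.areaLE hg ha hτ0 hτT (hint.mono_set (lowT_mono hτI.2.le)) (hdiff hτI).hasDerivAt).mono hle

/-- Choice of a level in `(0, d0)`. -/
theorem LevFun.exists_level' (h : LevFun θ R T) (hg : SmM g a) (ha : a < 1) {d0 M : ℝ} (hd : 0 < d0)
    (hdT : d0 ≤ T) (hint : IntegrableOn (fun x => gradNorm g θ x * Real.sqrt (g x).det) (lowT θ R d0))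
    (hreg : ∀ᵐ τ : ℝ, 0 < τ → τ < T → ∀ x : E3, 1 < ‖x‖ → ‖x‖ < R → θ x = τ → fderiv ℝ θ x ≠ 0)
    (hM : ∫ x in lowT θ R d0, gradNorm g θ x * Real.sqrt (g x).det ≤ M) :
    ∃ t ∈ Ioo 0 d0, Encloses (FT θ R t) ∧ AreaLE g a (FT θ R t) (M / d0) := by
  have h1 : 0 ≤ AT g θ R 0 := by
    unfold AT
    apply integral_nonneg
    intro x
    exact mul_nonneg (Real.sqrt_nonneg _) (Real.sqrt_nonneg _)
  have h2 : AT g θ R d0 ≤ M := hM
  have h3 := h.exists_level hg ha (s := 0) (t1 := d0) (M := M) le_rfl hd hdT hint hreg (by linarith)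
  rw [sub_zero] at h3
  exact h3

/-- The metric part of `AF` as `SmM`. -/
theorem AF.toSmM (hg : AF g a) : SmM g a := ⟨hg.smooth, hg.symm, hg.pos⟩

end UMB
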