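import Pool.Agent.Lib.UMB.Core

set_option autoImplicit false

/-!
# UMB section S: the reduction tensor `k_s = ψ_s(tr h) h` and its error function
-/

open Filter Topology Set MeasureTheory
open scoped ContDiff

namespace UMB

open Pool.Agent.Lib.PenroseSph (E3 Tens pd trg energy momNorm trLevel meanCurv gradNorm)

/-- `ψ_s(t) = t / √(t² + s²)`. -/
noncomputable def psi (s t : ℝ) : ℝ := t / Real.sqrt (t ^ 2 + s ^ 2)

/-- The derivative of `ψ_s`. -/
noncomputable def dpsi (s t : ℝ) : ℝ := s ^ 2 / ((t ^ 2 + s ^ 2) * Real.sqrt (t ^ 2 + s ^ 2))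

/-- The reduction tensor. -/
noncomputable def kS (g h : Tens) (s : ℝ) : Tens := fun x => psi s (trg g h x) • h x

/-- The error function. -/
noncomputable def etaS (g h : Tens) (s : ℝ) (x : E3) : ℝ :=
  s ^ 2 / 2 + 2 * |trg g h x| * dpsi s (trg g h x) * gradNorm g (trg g h) x

end UMB
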