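import Pool.Agent.Lib.UMB.SS.Mom
import Pool.Agent.Lib.UMB.SS.Area3
import Pool.Agent.Lib.UMB.Wil

set_option autoImplicit false

/-!
# UMB section S: assembly
-/

open Filter Topology Set MeasureTheory
open scoped ContDiff

namespace UMB

open Pool.Agent.Lib.PenroseSph (E3 Tens pd trg energy momNorm trLevel meanCurv gradNorm admFlux admMom)

variable {g h : Tens} {a E A : ℝ}

theorem Data.toAF (hD : Data g h a) : AF g a where
  lt := hD.lt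
  smooth := hD.smooth_g
  symm := hD.symm_g
  pos := hD.pos
  decay := by
    obtain ⟨C, hC⟩ := hD.decay
    exact ⟨C, fun x hx i j k => ⟨(hC x hx i j k).1, (hC x hx i j k).2.1⟩⟩

/-- The reduction. -/
theorem reduction (hD : Data g h a) (hs : ∀ x : E3, 1 ≤ ‖x‖ → OneSign g h x) {K : ℝ}
    (hK : ∀ x : E3, 1 ≤ ‖x‖ → ∀ i j, |h x i j| ≤ K / ‖x‖ ^ 2) :
    ∃ η0 : ℝ, ∀ R0 φ s : ℝ, 0 < s → (∀ r : ℝ, R0 ≤ r → trFlux g h r ≤ φ) → 1 ≤ R0 →
      Adm g (kS g h s) a K (etaS g h s) (η0 + 2 * s) R0 φ := by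
  obtain ⟨η0, h0, h1⟩ := mc_bound hD.smM hD.lt
  exact ⟨η0, fun R0 φ s hs0 hF hR0 => reduction_wil hD.smM hD.lt hD.smooth_h hD.symm_h hD.dec hs h0 h1 hK hs0 hF hR0⟩

/-- The errors tend to zero in `L²` of the annulus. -/
theorem etaS_tendsto (hD : Data g h a) (R : ℝ) :
    Tendsto (fun s : ℝ => ∫ x in {x : E3 | 1 ≤ ‖x‖ ∧ ‖x‖ ≤ R}, (etaS g h s x) ^ 2) (𝓝[>] 0) (𝓝 0) :=
  etaS_tendsto_aux hD.smM hD.lt hD.smooth_h R

end UMB
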