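import Pool.Agent.Lib.UMB.SS.Pert

set_option autoImplicit false

/-!
# UMB section S: the flux field of a tensor `k`
-/

open Filter Topology Set MeasureTheory Matrix
open scoped ContDiff

namespace UMB

open Pool.Agent.Lib.PenroseSph (E3 Tens pd trg energy momNorm trLevel meanCurv gradNorm normal normSqg momentum divg chr)
open SSM

/-- `(tr k) g - k`. -/
noncomputable def qT (g k : Tens) : Tens := fun x => trg g k x • g x - k x

/-- The flux field. -/
noncomputable def Zf (g k : Tens) (i : Fin 3) (x : E3) : ℝ := ∑ m, ∑ j, (g x)⁻¹ i m * qT g k x m j * nu x j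

/-- The flux density. -/
noncomputable def ff (g k : Tens) (x : E3) : ℝ := ∑ i, Zf g k i x * nu x i

/-- The error terms of the divergence. -/
noncomputable def EE (g k : Tens) (x : E3) : ℝ := ∑ i, ∑ m, ∑ j, (pd i (fun y => (g y)⁻¹ i m) x * qT g k x m j * nu x j +
  (g x)⁻¹ i m * nu x j * (∑ l, chr g l i m x * qT g k x l j + ∑ l, chr g l i j x * qT g k x m l))

variable {g k : Tens} {a ε D K C : ℝ} {x : E3}

theorem qT_apply (m j : Fin 3) : qT g k x m j = trg g k x * g x m j - k x m j := rfl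

theorem qT_at (hg : SmM g a) (hk : SmT k a) (hx : a < ‖x‖) (m j : Fin 3) :
    ContDiffAt ℝ ∞ (fun y => qT g k y m j) x := by
  simp only [qT_apply]
  exact ((hg.trg_at hk hx).mul (hg.sm.at hx m j)).sub (hk.at hx m j)

theorem Zf_at (hg : SmM g a) (hk : SmT k a) (hx : a < ‖x‖) (hx0 : x ≠ 0) (i : Fin 3) : ContDiffAt ℝ ∞ (Zf g k i) x := by
  unfold Zf
  exact ContDiffAt.sum fun m _ => ContDiffAt.sum fun j _ =>
    ((hg.inv hx i m).mul (qT_at hg hk hx m j)).mul (contDiffAt_nu hx0 j)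

theorem tr_qT (hd : IsUnit (g x).det) (hgs : (g x).IsSymm) : ∑ i, ∑ j, (g x)⁻¹ i j * qT g k x i j = 2 * trg g k x := by
  have h1 := tr_PT (h := k) hd hgs 1
  rw [one_mul] at h1
  rw [← h1]
  refine Finset.sum_congr rfl fun i _ => Finset.sum_congr rfl fun j _ => ?_
  simp only [PT, qT, one_smul]

theorem pd_Zf (hg : SmM g a) (hk : SmT k a) (hx : a < ‖x‖) (hx0 : x ≠ 0) (i : Fin 3) :
    pd i (Zf g k i) x = ∑ m, ∑ j, (pd i (fun y => (g y)⁻¹ i m) x * qT g k x m j * nu x j +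
      (g x)⁻¹ i m * pd i (fun y => qT g k y m j) x * nu x j +
      (g x)⁻¹ i m * qT g k x m j * (((if j = i then 1 else 0) - nu x i * nu x j) / ‖x‖)) := by
  have h1 : ∀ m, DifferentiableAt ℝ (fun y => (g y)⁻¹ i m) x := fun m => (hg.inv hx i m).differentiableAt (by simp)
  have h2 : ∀ m j, DifferentiableAt ℝ (fun y => qT g k y m j) x := fun m j => (qT_at hg hk hx m j).differentiableAt (by simp)
  have h3 : ∀ j, DifferentiableAt ℝ (fun y => nu y j) x := fun j => (contDiffAt_nu hx0 j).differentiableAt (by simp)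
  have h4 : ∀ m j, DifferentiableAt ℝ (fun y => (g y)⁻¹ i m * qT g k y m j * nu y j) x :=
    fun m j => ((h1 m).mul (h2 m j)).mul (h3 j)
  have e1 : pd i (Zf g k i) x = ∑ m, ∑ j, pd i (fun y => (g y)⁻¹ i m * qT g k y m j * nu y j) x := by
    have h5 := Pool.Agent.Lib.PenroseSph.sum_pd (x := x)
      (f := fun m y => ∑ j, (g y)⁻¹ i m * qT g k y m j * nu y j) i
      (fun m => by
        have := DifferentiableAt.fun_sum (u := Finset.univ) (A := fun j y => (g y)⁻¹ i m * qT g k y m j * nu y j)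
          (fun j _ => h4 m j)
        exact this)
    have h6 : pd i (Zf g k i) x = pd i (fun y => ∑ m, ∑ j, (g y)⁻¹ i m * qT g k y m j * nu y j) x := rfl
    rw [h6, h5]
    exact Finset.sum_congr rfl fun m _ => Pool.Agent.Lib.PenroseSph.sum_pd (x := x)
      (f := fun j y => (g y)⁻¹ i m * qT g k y m j * nu y j) i (fun j => h4 m j)
  rw [e1]
  refine Finset.sum_congr rfl fun m _ => Finset.sum_congr rfl fun j _ => ?_
  rw [pd_mul' (f1 := fun y => (g y)⁻¹ i m * qT g k y m j) ((h1 m).mul (h2 m j)) (h3 j), pd_mul' (h1 m) (h2 m j), pd_nu hx0]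
  ring

theorem momentum_qT (hg : SmM g a) (hk : SmT k a) (hx : a < ‖x‖) (j : Fin 3) :
    momentum g k j x = - ∑ i, ∑ m, (g x)⁻¹ i m * (pd i (fun y => qT g k y m j) x - ∑ l, chr g l i m x * qT g k x l j -
      ∑ l, chr g l i j x * qT g k x m l) := by
  have h0 : ∀ (y : E3) m j, mom0 g k y m j = - qT g k y m j := by
    intro y m j
    rw [mom0_apply, qT_apply]; ring
  have h1 : ∀ i m, pd i (fun y => - qT g k y m j) x = - pd i (fun y => qT g k y m j) x := by
    intro i m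
    unfold pd
    rw [fderiv_fun_neg]
    rfl
  rw [momentum_eq]
  unfold divg
  simp only [h0, h1, ← Finset.sum_neg_distrib]
  refine Finset.sum_congr rfl fun i _ => Finset.sum_congr rfl fun m _ => ?_
  simp only [mul_neg, Finset.sum_neg_distrib]
  ring

/-- The divergence of the flux field. -/
theorem div_Zf (hg : SmM g a) (hk : SmT k a) (hks : (k x).IsSymm) (hx : a < ‖x‖) (hx0 : x ≠ 0) :
    ∑ i, pd i (Zf g k i) x = - ∑ j, momentum g k j x * nu x j + EE g k x + (2 * trg g k x - ff g k x) / ‖x‖ := by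
  have hgs := hg.symm x hx
  have hqs : ∀ i j, qT g k x i j = qT g k x j i := by
    intro i j
    rw [qT_apply, qT_apply, ← hgs.apply, ← hks.apply]
  have htr : ∑ i, ∑ m, (g x)⁻¹ i m * qT g k x m i = 2 * trg g k x := by
    rw [← tr_qT (hg.det hx) hgs]
    exact Finset.sum_congr rfl fun i _ => Finset.sum_congr rfl fun m _ => by rw [hqs]
  rw [← htr]
  simp only [pd_Zf hg hk hx hx0, momentum_qT hg hk hx, EE, ff, Zf]
  generalize hQ : (fun i m j => pd i (fun y => qT g k y m j) x) = Q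
  generalize hP : (fun i m => pd i (fun y => (g y)⁻¹ i m) x) = P
  have hQ' : ∀ i m j, pd i (fun y => qT g k y m j) x = Q i m j := fun i m j => by rw [← hQ]
  have hP' : ∀ i m, pd i (fun y => (g y)⁻¹ i m) x = P i m := fun i m => by rw [← hP]
  simp only [hQ', hP']
  have hr : ‖x‖ ≠ 0 := norm_ne_zero_iff.2 hx0
  rw [← Finset.sum_neg_distrib]
  have e1 : ∑ i, ∑ m, ∑ j, (P i m * qT g k x m j * nu x j + (g x)⁻¹ i m * Q i m j * nu x j +
      (g x)⁻¹ i m * qT g k x m j * (((if j = i then 1 else 0) - nu x i * nu x j) / ‖x‖)) =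
      ∑ i, ∑ m, ∑ j, (P i m * qT g k x m j * nu x j) + ∑ i, ∑ m, ∑ j, ((g x)⁻¹ i m * Q i m j * nu x j) +
      (∑ i, ∑ m, ∑ j, (g x)⁻¹ i m * qT g k x m j * ((if j = i then 1 else 0) - nu x i * nu x j)) / ‖x‖ := by
    rw [Finset.sum_div, ← Finset.sum_add_distrib, ← Finset.sum_add_distrib]
    refine Finset.sum_congr rfl fun i _ => ?_
    rw [Finset.sum_div, ← Finset.sum_add_distrib, ← Finset.sum_add_distrib]
    refine Finset.sum_congr rfl fun m _ => ?_
    rw [Finset.sum_div, ← Finset.sum_add_distrib, ← Finset.sum_add_distrib]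
    refine Finset.sum_congr rfl fun j _ => ?_
    ring
  have e2 : ∑ i, ∑ m, ∑ j, (g x)⁻¹ i m * qT g k x m j * ((if j = i then 1 else 0) - nu x i * nu x j) =
      ∑ i, ∑ m, (g x)⁻¹ i m * qT g k x m i - ∑ i, (∑ m, ∑ j, (g x)⁻¹ i m * qT g k x m j * nu x j) * nu x i := by
    rw [← Finset.sum_sub_distrib]
    refine Finset.sum_congr rfl fun i _ => ?_
    rw [Finset.sum_mul, ← Finset.sum_sub_distrib]
    refine Finset.sum_congr rfl fun m _ => ?_
    rw [Finset.sum_mul]
    have : ∀ j, (g x)⁻¹ i m * qT g k x m j * ((if j = i then 1 else 0) - nu x i * nu x j) =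
        (if j = i then (g x)⁻¹ i m * qT g k x m j else 0) - (g x)⁻¹ i m * qT g k x m j * nu x j * nu x i := by
      intro j
      split_ifs <;> ring
    simp only [this, Finset.sum_sub_distrib]
    simp
  have e3 : ∑ i, ∑ m, ∑ j, (P i m * qT g k x m j * nu x j + (g x)⁻¹ i m * nu x j *
      (∑ l, chr g l i m x * qT g k x l j + ∑ l, chr g l i j x * qT g k x m l)) =
      ∑ i, ∑ m, ∑ j, (P i m * qT g k x m j * nu x j) + ∑ i, ∑ m, ∑ j, (g x)⁻¹ i m * nu x j *
      (∑ l, chr g l i m x * qT g k x l j + ∑ l, chr g l i j x * qT g k x m l) := by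
    simp only [Finset.sum_add_distrib]
  have e4 : ∑ j, -(-(∑ i, ∑ m, (g x)⁻¹ i m * (Q i m j - ∑ l, chr g l i m x * qT g k x l j -
      ∑ l, chr g l i j x * qT g k x m l)) * nu x j) =
      ∑ i, ∑ m, ∑ j, ((g x)⁻¹ i m * Q i m j * nu x j) - ∑ i, ∑ m, ∑ j, (g x)⁻¹ i m * nu x j *
      (∑ l, chr g l i m x * qT g k x l j + ∑ l, chr g l i j x * qT g k x m l) := by
    have e5 : ∑ j, -(-(∑ i, ∑ m, (g x)⁻¹ i m * (Q i m j - ∑ l, chr g l i m x * qT g k x l j -
      ∑ l, chr g l i j x * qT g k x m l)) * nu x j) = ∑ j, ∑ i, ∑ m, ((g x)⁻¹ i m * Q i m j * nu x j -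
        (g x)⁻¹ i m * nu x j * (∑ l, chr g l i m x * qT g k x l j + ∑ l, chr g l i j x * qT g k x m l)) := by
      refine Finset.sum_congr rfl fun j _ => ?_
      rw [neg_mul, neg_neg, Finset.sum_mul]
      refine Finset.sum_congr rfl fun i _ => ?_
      rw [Finset.sum_mul]
      refine Finset.sum_congr rfl fun m _ => ?_
      ring
    rw [e5, Finset.sum_comm]
    rw [← Finset.sum_sub_distrib]
    refine Finset.sum_congr rfl fun i _ => ?_
    rw [Finset.sum_comm, ← Finset.sum_sub_distrib]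
    refine Finset.sum_congr rfl fun m _ => ?_
    rw [← Finset.sum_sub_distrib]
  rw [e1, e2, e3, e4]
  ring

theorem trg_le (hN : Near (g x) ε) (hε : ε ≤ 1 / 6) (hd : IsUnit (g x).det) (hK : ∀ i j, |k x i j| ≤ K) :
    |trg g k x| ≤ 18 * K := by
  have : 18 * K = 3 * (3 * (2 * K)) := by ring
  rw [this]
  exact sum3_le fun i => sum3_le fun j => mul_bd (near_inv_le hN hε hd i j) (hK i j)

theorem near_le (hN : Near (g x) ε) (hε : ε ≤ 1 / 6) (i j : Fin 3) : |g x i j| ≤ 2 := by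
  have h1 := hN i j
  have h2 := abs_one_le i j
  have h3 : g x i j = (g x i j - (1 : Matrix (Fin 3) (Fin 3) ℝ) i j) + (1 : Matrix (Fin 3) (Fin 3) ℝ) i j := by ring
  rw [h3]
  refine (abs_add_le _ _).trans ?_
  linarith

theorem qT_le (hN : Near (g x) ε) (hε : ε ≤ 1 / 6) (hd : IsUnit (g x).det) (hK : ∀ i j, |k x i j| ≤ K) (i j : Fin 3) :
    |qT g k x i j| ≤ 37 * K := by
  rw [qT_apply]
  have h1 := mul_bd (trg_le hN hε hd hK) (near_le hN hε i j)
  have h2 := abs_sub (trg g k x * g x i j) (k x i j)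
  have h3 := hK i j
  linarith

theorem EE_le (hg : SmM g a) (hx : a < ‖x‖) (hx0 : x ≠ 0) (hN : Near (g x) ε) (hε : ε ≤ 1 / 6)
    (hD : ∀ i j k, |pd k (fun y => g y i j) x| ≤ D) (hK : ∀ i j, |k x i j| ≤ K) :
    |EE g k x| ≤ 150000 * (D * K) := by
  have hd := hg.det hx
  have hD0 : 0 ≤ D := (abs_nonneg _).trans (hD 0 0 0)
  have hK0 : 0 ≤ K := (abs_nonneg _).trans (hK 0 0)
  have hq := qT_le hN hε hd hK
  have hc := chr_le hd hN hε hD
  have hp := pd_inv_le hg hx hN hε hD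
  have hi := near_inv_le hN hε hd
  have hn := nu_abs_le hx0
  have h1 : ∀ i m j, |pd i (fun y => (g y)⁻¹ i m) x * qT g k x m j * nu x j +
      (g x)⁻¹ i m * nu x j * (∑ l, chr g l i m x * qT g k x l j + ∑ l, chr g l i j x * qT g k x m l)| ≤
      36 * D * (37 * K) * 1 + 2 * 1 * (3 * (9 * D * (37 * K)) + 3 * (9 * D * (37 * K))) := by
    intro i m j
    refine (abs_add_le _ _).trans (add_le_add (mul_bd (mul_bd (hp i i m) (hq m j)) (hn j)) ?_)
    refine mul_bd (mul_bd (hi i m) (hn j)) ((abs_add_le _ _).trans (add_le_add ?_ ?_))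
    · exact sum3_le fun l => mul_bd (hc l i m) (hq l j)
    · exact sum3_le fun l => mul_bd (hc l i j) (hq m l)
  have h2 : |EE g k x| ≤ 3 * (3 * (3 * (36 * D * (37 * K) * 1 + 2 * 1 * (3 * (9 * D * (37 * K)) + 3 * (9 * D * (37 * K)))))) :=
    sum3_le fun i => sum3_le fun m => sum3_le fun j => h1 i m j
  refine h2.trans ?_
  nlinarith [mul_nonneg hD0 hK0]

/-- `|J(ν)| ≤ 2 |J|`. -/
theorem J_nu_le (hg : SmM g a) (hx : a < ‖x‖) (hx0 : x ≠ 0) (hN : Near (g x) ε) (hε : ε ≤ 1 / 6) :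
    |∑ j, momentum g k j x * nu x j| ≤ 2 * momNorm g k x := by
  have h1 : quad g x (fun j => nu x j / 2) ≤ 1 := by
    have h2 : quad g x (fun j => nu x j / 2) = (∑ i, ∑ j, (g x i j - (1 : Matrix (Fin 3) (Fin 3) ℝ) i j) * nu x i * nu x j +
        ∑ i, nu x i * nu x i) / 4 := by
      simp only [quad, Matrix.one_apply, Fin.sum_univ_three]
      simp
      ring
    have h3 : |∑ i, ∑ j, (g x i j - (1 : Matrix (Fin 3) (Fin 3) ℝ) i j) * nu x i * nu x j| ≤ 3 * (3 * (1 / 6 * 1 * 1)) :=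
      sum3_le fun i => sum3_le fun j => mul_bd (mul_bd ((hN i j).trans hε) (nu_abs_le hx0 i)) (nu_abs_le hx0 j)
    rw [h2, nu_sq hx0]
    have := (abs_le.1 h3).2
    linarith
  have h4 := cs_cov' (hg.symm x hx) (hg.pos x hx) (fun j => momentum g k j x) (fun j => nu x j / 2) h1
  have h5 : ∑ j, momentum g k j x * nu x j = 2 * ∑ j, momentum g k j x * (nu x j / 2) := by
    simp only [Fin.sum_univ_three]; ring
  rw [h5, abs_mul, abs_of_pos (by norm_num : (0:ℝ) < 2), momNorm_eq]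
  linarith

end UMB
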