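import Pool.Agent.Lib.UMB.SS.Flux1

set_option autoImplicit false

/-!
# UMB section S: the flux density and the trace over the spheres
-/

open Filter Topology Set MeasureTheory Matrix
open scoped ContDiff

namespace UMB

open Pool.Agent.Lib.PenroseSph (E3 Tens pd trg energy momNorm trLevel meanCurv gradNorm normal normSqg momentum divg chr)
open SSM

variable {g k : Tens} {a ε D K C : ℝ} {x : E3}

/-- The vector `g⁻¹ ν`. -/
noncomputable def mu (g : Tens) (x : E3) (i : Fin 3) : ℝ := ∑ m, (g x)⁻¹ i m * nu x m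

theorem mu_near (hN : Near (g x) ε) (hε : ε ≤ 1 / 6) (hd : IsUnit (g x).det) (hx0 : x ≠ 0) (i : Fin 3) :
    |mu g x i - nu x i| ≤ 18 * ε := by
  have h1 : mu g x i - nu x i = ∑ m, ((g x)⁻¹ i m - (1 : Matrix (Fin 3) (Fin 3) ℝ) i m) * nu x m := by
    have h2 : nu x i = ∑ m, (1 : Matrix (Fin 3) (Fin 3) ℝ) i m * nu x m := by
      simp [Matrix.one_apply]
    rw [h2]
    unfold mu
    rw [← Finset.sum_sub_distrib]
    exact Finset.sum_congr rfl fun m _ => by ring
  rw [h1]
  have : 18 * ε = 3 * (6 * ε * 1) := by ring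
  rw [this]
  exact sum3_le fun m => mul_bd (near_inv hN hε hd i m) (nu_abs_le hx0 m)

/-- `S = |dr|²`. -/
noncomputable def SS0 (g : Tens) (x : E3) : ℝ := ∑ i, ∑ j, (g x)⁻¹ i j * nu x i * nu x j

theorem SS0_near (hN : Near (g x) ε) (hε : ε ≤ 1 / 6) (hd : IsUnit (g x).det) (hx0 : x ≠ 0) :
    |SS0 g x - 1| ≤ 54 * ε := by
  have h1 : SS0 g x - 1 = ∑ i, ∑ j, ((g x)⁻¹ i j - (1 : Matrix (Fin 3) (Fin 3) ℝ) i j) * nu x i * nu x j := by
    have h2 : ∑ i, ∑ j, (1 : Matrix (Fin 3) (Fin 3) ℝ) i j * nu x i * nu x j = 1 := by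
      rw [← nu_sq hx0]
      simp [Matrix.one_apply]
    rw [← h2]
    unfold SS0
    rw [← Finset.sum_sub_distrib]
    refine Finset.sum_congr rfl fun i _ => ?_
    rw [← Finset.sum_sub_distrib]
    exact Finset.sum_congr rfl fun j _ => by ring
  rw [h1]
  have : 54 * ε = 3 * (3 * (6 * ε * 1 * 1)) := by ring
  rw [this]
  exact sum3_le fun i => sum3_le fun j => mul_bd (mul_bd (near_inv hN hε hd i j) (nu_abs_le hx0 i)) (nu_abs_le hx0 j)

theorem sphTr_formula (hg : SmM g a) (hx : a < ‖x‖) (hx0 : x ≠ 0) :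
    sphTr g k x = trg g k x - (∑ i, ∑ j, k x i j * mu g x i * mu g x j) / SS0 g x := by
  have h1 : gradNorm g (fun y : E3 => ‖y‖) x = Real.sqrt (SS0 g x) := by
    unfold gradNorm SS0
    simp only [pd_norm' hx0]
  have h2 : ∀ i, normal g (fun y : E3 => ‖y‖) i x = mu g x i / Real.sqrt (SS0 g x) := by
    intro i
    unfold normal mu
    rw [h1]
    simp only [pd_norm' hx0]
  have h3 : 0 < SS0 g x := by
    have := hg.gradSq_pos hx (pd_norm_ne hx0)
    simp only [pd_norm' hx0] at this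
    exact this
  have h4 : sphTr g k x = trLevel g k (fun y => ‖y‖) x := rfl
  rw [h4, trLevel_eq]
  congr 1
  simp only [quad, h2]
  have h5 := Real.mul_self_sqrt h3.le
  rw [Finset.sum_div]
  refine Finset.sum_congr rfl fun i _ => ?_
  rw [Finset.sum_div]
  refine Finset.sum_congr rfl fun j _ => ?_
  have h6 := (Real.sqrt_pos.2 h3).ne'
  generalize hr : Real.sqrt (SS0 g x) = r at h5 h6
  rw [← h5]
  field_simp

theorem ff_formula (hd : IsUnit (g x).det) (hgs : (g x).IsSymm) (hx0 : x ≠ 0) :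
    ff g k x = trg g k x - ∑ i, ∑ j, k x i j * mu g x i * nu x j := by
  have h1 : (g x)⁻¹ * g x = 1 := nonsing_inv_mul _ hd
  have h2 : ∀ i j, ∑ m, (g x)⁻¹ i m * g x m j = if i = j then 1 else 0 := by
    intro i j
    rw [← Matrix.mul_apply, h1, Matrix.one_apply]
  have h3 : ff g k x = trg g k x * ∑ i, ∑ j, (∑ m, (g x)⁻¹ i m * g x m j) * nu x j * nu x i -
      ∑ i, ∑ j, k x i j * mu g x i * nu x j := by
    simp only [ff, Zf, qT_apply, mu, Fin.sum_univ_three]
    rw [inv_symm hgs 1 0, inv_symm hgs 2 0, inv_symm hgs 2 1]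
    ring
  rw [h3]
  simp only [h2]
  have h4 := nu_sq hx0
  have h5 : ∑ i, ∑ j, (if i = j then (1:ℝ) else 0) * nu x j * nu x i = 1 := by
    simp only [Fin.sum_univ_three] at h4 ⊢
    simp
    linarith
  rw [h5, mul_one]

/-- The flux density is close to the trace over the sphere. -/
theorem ff_near (hg : SmM g a) (hx : a < ‖x‖) (hx0 : x ≠ 0) (hN : Near (g x) ε) (hε : ε ≤ 1 / 200)
    (hK : ∀ i j, |k x i j| ≤ K) : |ff g k x - sphTr g k x| ≤ 1800 * (K * ε) := by
  have hd := hg.det hx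
  have hε6 : ε ≤ 1 / 6 := by linarith
  have hε0 : 0 ≤ ε := (abs_nonneg _).trans (hN 0 0)
  have hS := SS0_near hN hε6 hd hx0
  have hS2 := abs_le.1 hS
  have hS1 : 73 / 100 ≤ SS0 g x := by linarith
  have hSpos : 0 < SS0 g x := by linarith
  rw [ff_formula hd (hg.symm x hx) hx0, sphTr_formula hg hx hx0]
  have e1 : trg g k x - ∑ i, ∑ j, k x i j * mu g x i * nu x j -
      (trg g k x - (∑ i, ∑ j, k x i j * mu g x i * mu g x j) / SS0 g x) =
      ∑ i, ∑ j, k x i j * mu g x i * (mu g x j / SS0 g x - nu x j) := by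
    have e2 : (∑ i, ∑ j, k x i j * mu g x i * mu g x j) / SS0 g x =
        ∑ i, ∑ j, k x i j * mu g x i * (mu g x j / SS0 g x) := by
      rw [Finset.sum_div]
      refine Finset.sum_congr rfl fun i _ => ?_
      rw [Finset.sum_div]
      refine Finset.sum_congr rfl fun j _ => ?_
      ring
    rw [e2]
    simp only [mul_sub, Finset.sum_sub_distrib]
    ring
  rw [e1]
  have hm : ∀ i, |mu g x i| ≤ 2 := by
    intro i
    have h1 := mu_near hN hε6 hd hx0 i
    have h2 := nu_abs_le hx0 i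
    have h3 : mu g x i = (mu g x i - nu x i) + nu x i := by ring
    rw [h3]
    refine (abs_add_le _ _).trans ?_
    linarith
  have hmn : ∀ j, |mu g x j / SS0 g x - nu x j| ≤ 100 * ε := by
    intro j
    have h1 := mu_near hN hε6 hd hx0 j
    have h2 := nu_abs_le hx0 j
    have h3 : mu g x j / SS0 g x - nu x j = ((mu g x j - nu x j) - nu x j * (SS0 g x - 1)) / SS0 g x := by
      field_simp
      ring
    rw [h3, abs_div, abs_of_pos hSpos, div_le_iff₀ hSpos]
    have h4 := mul_bd h2 hS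
    have h5 := abs_sub (mu g x j - nu x j) (nu x j * (SS0 g x - 1))
    nlinarith
  have : 1800 * (K * ε) = 3 * (3 * (K * 2 * (100 * ε))) := by ring
  rw [this]
  exact sum3_le fun i => sum3_le fun j => mul_bd (mul_bd (hK i j) (hm i)) (hmn j)

end UMB
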