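import Mathlib

set_option autoImplicit false

/-!
# UMB section S: a growth lemma in one variable
-/

open Filter Topology Set MeasureTheory

namespace UMB

theorem gw {Φ : ℝ → ℝ} {t1 T δ c κ ε : ℝ} (hc : ContinuousOn Φ (Icc t1 T)) (h0 : 0 < t1) (h01 : t1 ≤ T) (hc0 : 0 < c)
    (hδ : 0 < δ) (hκ : κ ≤ δ / 4) (hε : ε ≤ c * δ / 4) (h1 : δ ≤ Φ t1)
    (hint : ∀ t ∈ Icc t1 T, Φ t1 - κ + ∫ r in t1..t, (1 / r) * (c * Φ r - ε) ≤ Φ t) :
    (c * δ / 4) * Real.log (T / t1) ≤ Φ T := by
  have hcd : 0 < c * δ := by positivity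
  have hpos : ∀ t ∈ Icc t1 T, δ / 2 < Φ t := by
    by_contra hcon
    push Not at hcon
    obtain ⟨t0, ht0, ht0'⟩ := hcon
    set S : Set ℝ := {t ∈ Icc t1 T | Φ t ≤ δ / 2} with hS
    have hScl : IsClosed S := by
      have := hc.preimage_isClosed_of_isClosed isClosed_Icc (isClosed_Iic (a := δ / 2))
      exact this
    have hSne : S.Nonempty := ⟨t0, ht0, ht0'⟩
    have hSbd : BddBelow S := ⟨t1, fun t ht => ht.1.1⟩
    set ts := sInf S with hts
    have hmem : ts ∈ S := hScl.csInf_mem hSne hSbd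
    have hlt : ∀ t ∈ Icc t1 ts, t ≠ ts → δ / 2 < Φ t := by
      intro t ht hne
      have h2 : t < ts := lt_of_le_of_ne ht.2 hne
      by_contra h3
      have : t ∈ S := ⟨⟨ht.1, h2.le.trans hmem.1.2⟩, not_lt.1 h3⟩
      exact absurd (csInf_le hSbd this) (not_le.2 h2)
    have h4 : 0 ≤ ∫ r in t1..ts, (1 / r) * (c * Φ r - ε) := by
      apply intervalIntegral.integral_nonneg_of_ae_restrict hmem.1.1
      have h5 : ∀ᵐ r : ℝ, r ≠ ts := by
        have : (volume : Measure ℝ) {ts} = 0 := by simp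
        exact compl_mem_ae_iff.2 this
      rw [EventuallyLE, ae_restrict_iff' measurableSet_Icc]
      filter_upwards [h5] with r hr hr2
      have h6 := hlt r hr2 hr
      have h7 : 0 < r := lt_of_lt_of_le h0 hr2.1
      have h8 : 0 ≤ c * Φ r - ε := by nlinarith
      show 0 ≤ 1 / r * (c * Φ r - ε)
      positivity
    have h9 := hint ts hmem.1
    have h10 : Φ ts ≤ δ / 2 := hmem.2
    linarith
  have hfin := hint T ⟨h01, le_rfl⟩
  have hiΦ : IntervalIntegrable (fun r => (1 / r) * (c * Φ r - ε)) volume t1 T := by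
    apply ContinuousOn.intervalIntegrable
    rw [uIcc_of_le h01]
    refine ContinuousOn.mul ?_ ((continuousOn_const.mul hc).sub continuousOn_const)
    exact continuousOn_const.div continuousOn_id fun r hr => (lt_of_lt_of_le h0 hr.1).ne'
  have hi1 : IntervalIntegrable (fun r : ℝ => (c * δ / 4) * (1 / r)) volume t1 T := by
    apply ContinuousOn.intervalIntegrable
    rw [uIcc_of_le h01]
    refine continuousOn_const.mul ?_
    exact continuousOn_const.div continuousOn_id fun r hr => (lt_of_lt_of_le h0 hr.1).ne'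
  have hle : ∫ r in t1..T, (c * δ / 4) * (1 / r) ≤ ∫ r in t1..T, (1 / r) * (c * Φ r - ε) := by
    apply intervalIntegral.integral_mono_on h01 hi1 hiΦ
    intro r hr
    have h6 := hpos r hr
    have h7 : 0 < r := lt_of_lt_of_le h0 hr.1
    rw [mul_comm]
    apply mul_le_mul_of_nonneg_left _ (by positivity)
    nlinarith
  rw [intervalIntegral.integral_const_mul, integral_one_div_of_pos h0 (lt_of_lt_of_le h0 h01)] at hle
  linarith

end UMB
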