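import Pool.Agent.Lib.UMB.SS.Flux2
import Pool.Agent.Lib.UMB.SS.Gw

set_option autoImplicit false

/-!
# UMB section S: regularity of momentum, the flux inequality
-/

open Filter Topology Set MeasureTheory Matrix
open scoped ContDiff

namespace UMB

open Pool.Agent.Lib.PenroseSph (E3 Tens pd trg energy momNorm trLevel meanCurv gradNorm normal normSqg momentum divg chr
  S2 sm integrable_S2 norm_ray avg avg_congr avg_mono avg_add avg_sub avg_smul flux_deriv avg_const cont_ray)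
open SSM

variable {g k p : Tens} {a ε D K C : ℝ} {x : E3}

theorem chr_at (hg : SmM g a) (hx : a < ‖x‖) (l i j : Fin 3) : ContDiffAt ℝ ∞ (chr g l i j) x := by
  unfold chr
  refine contDiffAt_const.mul (ContDiffAt.sum fun m _ => ?_)
  exact (hg.inv hx l m).mul (((contDiffAt_pd (hg.sm.at hx j m) i).add (contDiffAt_pd (hg.sm.at hx i m) j)).sub
    (contDiffAt_pd (hg.sm.at hx i j) m))

theorem divg_at (hg : SmM g a) (hp : SmT p a) (hx : a < ‖x‖) (j : Fin 3) : ContDiffAt ℝ ∞ (divg g p j) x := by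
  unfold divg
  refine ContDiffAt.sum fun i _ => ContDiffAt.sum fun m _ => (hg.inv hx i m).mul ?_
  exact ((contDiffAt_pd (hp.at hx m j) i).sub (ContDiffAt.sum fun l _ => (chr_at hg hx l i m).mul (hp.at hx l j))).sub
    (ContDiffAt.sum fun l _ => (chr_at hg hx l i j).mul (hp.at hx m l))

theorem mom0_smooth (hg : SmM g a) (hk : SmT k a) : SmT (mom0 g k) a := by
  intro i j x hx
  apply ContDiffAt.contDiffWithinAt
  simp only [mom0_apply]
  exact (hk.at hx i j).sub ((hg.trg_at hk hx).mul (hg.sm.at hx i j))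

theorem momentum_at (hg : SmM g a) (hk : SmT k a) (hx : a < ‖x‖) (j : Fin 3) : ContDiffAt ℝ ∞ (momentum g k j) x :=
  divg_at hg (mom0_smooth hg hk) hx j

theorem momNorm_cont (hg : SmM g a) (hk : SmT k a) (hx : a < ‖x‖) : ContinuousAt (momNorm g k) x := by
  unfold momNorm
  refine ContinuousAt.sqrt ?_
  have : ContDiffAt ℝ ∞ (fun x => ∑ i, ∑ j, (g x)⁻¹ i j * momentum g k i x * momentum g k j x) x :=
    ContDiffAt.sum fun i _ => ContDiffAt.sum fun j _ =>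
      ((hg.inv hx i j).mul (momentum_at hg hk hx i)).mul (momentum_at hg hk hx j)
  exact this.continuousAt

/-- Positive radius outside `a`. -/
theorem ne_of_max (hx : max a 0 < ‖x‖) : x ≠ 0 := by
  intro h0
  rw [h0, norm_zero] at hx
  exact absurd (le_max_right a 0) (not_le.2 hx)

theorem lt_of_max (hx : max a 0 < ‖x‖) : a < ‖x‖ := lt_of_le_of_lt (le_max_left _ _) hx

theorem Zf_C1 (hg : SmM g a) (hk : SmT k a) (i : Fin 3) : ContDiffOn ℝ 1 (Zf g k i) {x : E3 | max a 0 < ‖x‖} := by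
  intro x hx
  exact ((Zf_at hg hk (lt_of_max hx) (ne_of_max hx) i).of_le (by exact_mod_cast le_top)).contDiffWithinAt

theorem ff_cont (hg : SmM g a) (hk : SmT k a) : ContinuousOn (ff g k) {x : E3 | max a 0 < ‖x‖} := by
  intro x hx
  unfold ff
  have : ContDiffAt ℝ ∞ (fun x => ∑ i, Zf g k i x * nu x i) x :=
    ContDiffAt.sum fun i _ => (Zf_at hg hk (lt_of_max hx) (ne_of_max hx) i).mul (contDiffAt_nu (ne_of_max hx) i)
  exact this.continuousAt.continuousWithinAt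

theorem trg_cont (hg : SmM g a) (hk : SmT k a) : ContinuousOn (trg g k) {x : E3 | max a 0 < ‖x‖} :=
  fun _ hx => (hg.trg_at hk (lt_of_max hx)).continuousAt.continuousWithinAt

/-- The flux of `Z` through the sphere of radius `t` divided by `4π`. -/
noncomputable def FZ (g k : Tens) (t : ℝ) : ℝ := t * avg (fun x => ∑ i, Zf g k i x * x i) t

/-- `t²` times the mean of `tr_S k`. -/
noncomputable def PhiT (g k : Tens) (t : ℝ) : ℝ := t ^ 2 * avg (sphTr g k) t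

theorem FZ_eq {t : ℝ} (ht : 0 < t) : FZ g k t = t ^ 2 * avg (ff g k) t := by
  unfold FZ
  have : avg (fun x => ∑ i, Zf g k i x * x i) t = avg (fun x => t * ff g k x) t := by
    apply avg_congr
    intro n
    have hn := norm_ray ht n
    generalize t • (n : E3) = y at hn
    unfold ff nu
    rw [Finset.mul_sum]
    refine Finset.sum_congr rfl fun i _ => ?_
    rw [hn]
    field_simp
  rw [this, avg_smul]
  ring

/-- Hypotheses on `g` near infinity: `|g - δ| ≤ C/r`, `|∂g| ≤ C/r²`, `r ≥ r0`, `200 C ≤ r0`. -/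
structure FarM (g : Tens) (a C r0 : ℝ) : Prop where
  sm : SmM g a
  lt : a < r0
  one_le : 1 ≤ r0
  C_nonneg : 0 ≤ C
  C_le : 200 * C ≤ r0
  near : ∀ x : E3, r0 ≤ ‖x‖ → Near (g x) (C / ‖x‖)
  deriv : ∀ x : E3, r0 ≤ ‖x‖ → ∀ i j k, |pd k (fun y => g y i j) x| ≤ C / ‖x‖ ^ 2

theorem FarM.eps {r0 : ℝ} (h : FarM g a C r0) (hx : r0 ≤ ‖x‖) : C / ‖x‖ ≤ 1 / 200 := by
  have h1 : 0 < ‖x‖ := lt_of_lt_of_le (by linarith [h.one_le]) hx
  rw [div_le_iff₀ h1]
  linarith [h.C_le]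

theorem FarM.mx {r0 : ℝ} (h : FarM g a C r0) (hx : r0 ≤ ‖x‖) : max a 0 < ‖x‖ :=
  max_lt (lt_of_lt_of_le h.lt hx) (lt_of_lt_of_le (by linarith [h.one_le]) hx)

/-- Pointwise lower bound of the divergence. -/
theorem div_lower {r0 : ℝ} (h : FarM g a C r0) (hk : SmT k a) (hks : ∀ x : E3, a < ‖x‖ → (k x).IsSymm)
    (hK : ∀ x : E3, 1 ≤ ‖x‖ → ∀ i j, |k x i j| ≤ K / ‖x‖ ^ 2) {c ε1 : ℝ} (hc : 0 < c)
    (hT : ∀ x : E3, r0 ≤ ‖x‖ → sphTr g k x ≤ c * trg g k x + ε1 / ‖x‖ ^ 2) {m : E3 → ℝ}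
    (hm : ∀ x : E3, r0 ≤ ‖x‖ → momNorm g k x ≤ m x) (hx : r0 ≤ ‖x‖) :
    - 2 * m x - 151800 * (C * K) / ‖x‖ ^ 4 + (1 / ‖x‖) * ((2 / c - 1) * sphTr g k x - (2 / c) * (ε1 / ‖x‖ ^ 2)) ≤
      ∑ i, pd i (Zf g k i) x := by
  have hmax := h.mx hx
  have hxa := lt_of_max hmax
  have hx0 := ne_of_max hmax
  have hr : 0 < ‖x‖ := norm_pos_iff.2 hx0
  have hr1 : 1 ≤ ‖x‖ := h.one_le.trans hx
  have hε := h.eps hx
  have hN := h.near x hx
  have hD := h.deriv x hx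
  have hKx := hK x hr1
  rw [div_Zf h.sm hk (hks x hxa) hxa hx0]
  have h1 := EE_le h.sm hxa hx0 hN (by linarith) hD hKx
  have h2 := J_nu_le (k := k) h.sm hxa hx0 hN (by linarith)
  have h3 := ff_near h.sm hxa hx0 hN hε hKx
  have h4 := hT x hx
  have h5 := hm x hx
  have h6 := (abs_le.1 h1).1
  have h7 := (abs_le.1 h2).2
  have h8 := (abs_le.1 h3).2
  have e1 : 150000 * (C / ‖x‖ ^ 2 * (K / ‖x‖ ^ 2)) = 150000 * (C * K) / ‖x‖ ^ 4 := by
    field_simp
  have e2 : 1800 * (K / ‖x‖ ^ 2 * (C / ‖x‖)) / ‖x‖ = 1800 * (C * K) / ‖x‖ ^ 4 := by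
    field_simp
  have h9 : (2 / c) * (sphTr g k x - ε1 / ‖x‖ ^ 2) ≤ 2 * trg g k x := by
    rw [div_mul_eq_mul_div, div_le_iff₀ hc]
    linarith
  have h10 : ((2 / c - 1) * sphTr g k x - (2 / c) * (ε1 / ‖x‖ ^ 2) - 1800 * (K / ‖x‖ ^ 2 * (C / ‖x‖))) / ‖x‖ ≤
      (2 * trg g k x - ff g k x) / ‖x‖ := by
    apply div_le_div_of_nonneg_right _ hr.le
    linarith
  have e3 : ((2 / c - 1) * sphTr g k x - (2 / c) * (ε1 / ‖x‖ ^ 2) - 1800 * (K / ‖x‖ ^ 2 * (C / ‖x‖))) / ‖x‖ =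
      (1 / ‖x‖) * ((2 / c - 1) * sphTr g k x - (2 / c) * (ε1 / ‖x‖ ^ 2)) - 1800 * (C * K) / ‖x‖ ^ 4 := by
    rw [← e2]; ring
  rw [e3] at h10
  have e4 : 151800 * (C * K) / ‖x‖ ^ 4 = 150000 * (C * K) / ‖x‖ ^ 4 + 1800 * (C * K) / ‖x‖ ^ 4 := by ring
  rw [e4]
  linarith

/-- Lower bound of the derivative of the flux. -/
theorem dFZ_lower {r0 : ℝ} (h : FarM g a C r0) (hk : SmT k a) (hks : ∀ x : E3, a < ‖x‖ → (k x).IsSymm)
    (hK : ∀ x : E3, 1 ≤ ‖x‖ → ∀ i j, |k x i j| ≤ K / ‖x‖ ^ 2) {c ε1 : ℝ} (hc : 0 < c)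
    (hT : ∀ x : E3, r0 ≤ ‖x‖ → sphTr g k x ≤ c * trg g k x + ε1 / ‖x‖ ^ 2) {m : E3 → ℝ}
    (hmc : ContinuousOn m {x : E3 | max a 0 < ‖x‖})
    (hm : ∀ x : E3, r0 ≤ ‖x‖ → momNorm g k x ≤ m x) {t : ℝ} (ht : r0 ≤ t) :
    - 2 * (t ^ 2 * avg m t) - 151800 * (C * K) / t ^ 2 + (1 / t) * ((2 / c - 1) * PhiT g k t - (2 / c) * ε1) ≤
      t ^ 2 * avg (fun x => ∑ i, pd i (Zf g k i) x) t := by
  have ht1 : 1 ≤ t := h.one_le.trans ht
  have ht0 : 0 < t := by linarith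
  have hm0 : 0 ≤ max a 0 := le_max_right _ _
  have hmt : max a 0 < t := max_lt (lt_of_lt_of_le h.lt ht) ht0
  have hsc := h.sm.sphTr_cont hk
  have h1 : avg (fun x => (-2) * m x + ((- (151800 * (C * K) / t ^ 4) - (1 / t) * ((2 / c) * (ε1 / t ^ 2))) +
      ((1 / t) * (2 / c - 1)) * sphTr g k x)) t ≤ avg (fun x => ∑ i, pd i (Zf g k i) x) t := by
    apply avg_mono hm0 hmt
    · exact (continuousOn_const.mul hmc).add (continuousOn_const.add (continuousOn_const.mul hsc))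
    · apply continuousOn_finsetSum
      intro i _ x hx
      exact (contDiffAt_pd (Zf_at h.sm hk (lt_of_max hx) (ne_of_max hx) i) i).continuousAt.continuousWithinAt
    · intro n
      have hn := norm_ray ht0 n
      have h2 := div_lower h hk hks hK hc hT hm (x := t • (n : E3)) (by rw [hn]; exact ht)
      rw [hn] at h2
      refine le_trans (le_of_eq ?_) h2
      ring
  rw [avg_add (f := fun x => (-2) * m x) (g := fun x => (- (151800 * (C * K) / t ^ 4) - (1 / t) * ((2 / c) * (ε1 / t ^ 2))) +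
      ((1 / t) * (2 / c - 1)) * sphTr g k x) hm0 hmt (continuousOn_const.mul hmc)
      (continuousOn_const.add (continuousOn_const.mul hsc)),
    avg_smul, avg_add (f := fun _ => - (151800 * (C * K) / t ^ 4) - (1 / t) * ((2 / c) * (ε1 / t ^ 2)))
      (g := fun x => ((1 / t) * (2 / c - 1)) * sphTr g k x) hm0 hmt continuousOn_const (continuousOn_const.mul hsc),
    avg_const, avg_smul] at h1
  have h3 := mul_le_mul_of_nonneg_left h1 (sq_nonneg t)
  refine le_trans (le_of_eq ?_) h3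
  unfold PhiT
  field_simp
  ring

/-- The flux and `PhiT` are close. -/
theorem FZ_near {r0 : ℝ} (h : FarM g a C r0) (hk : SmT k a)
    (hK : ∀ x : E3, 1 ≤ ‖x‖ → ∀ i j, |k x i j| ≤ K / ‖x‖ ^ 2) {t : ℝ} (ht : r0 ≤ t) :
    |FZ g k t - PhiT g k t| ≤ 1800 * (C * K) / t := by
  have ht1 : 1 ≤ t := h.one_le.trans ht
  have ht0 : 0 < t := by linarith
  have hm0 : 0 ≤ max a 0 := le_max_right _ _
  have hmt : max a 0 < t := max_lt (lt_of_lt_of_le h.lt ht) ht0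
  have hsc := h.sm.sphTr_cont hk
  have hfc := ff_cont h.sm hk
  rw [FZ_eq ht0]
  unfold PhiT
  have h0 : t ^ 2 * avg (ff g k) t - t ^ 2 * avg (sphTr g k) t = t ^ 2 * (avg (ff g k) t - avg (sphTr g k) t) := by ring
  rw [h0, ← avg_sub hm0 hmt hfc hsc, abs_mul, abs_of_nonneg (sq_nonneg t)]
  have hb : ∀ n : S2, |ff g k (t • (n : E3)) - sphTr g k (t • (n : E3))| ≤ 1800 * (C * K) / t ^ 3 := by
    intro n
    have hn := norm_ray ht0 n
    have hx : r0 ≤ ‖t • (n : E3)‖ := by rw [hn]; exact ht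
    have hmax := h.mx hx
    have := ff_near h.sm (lt_of_max hmax) (ne_of_max hmax) (h.near _ hx) (h.eps hx) (hK _ (h.one_le.trans hx))
    refine this.trans (le_of_eq ?_)
    rw [hn]
    field_simp
  have hu : avg (fun x => ff g k x - sphTr g k x) t ≤ avg (fun _ => 1800 * (C * K) / t ^ 3) t :=
    avg_mono hm0 hmt (hfc.sub hsc) continuousOn_const fun n => (abs_le.1 (hb n)).2
  have hl : avg (fun _ => - (1800 * (C * K) / t ^ 3)) t ≤ avg (fun x => ff g k x - sphTr g k x) t :=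
    avg_mono hm0 hmt continuousOn_const (hfc.sub hsc) fun n => (abs_le.1 (hb n)).1
  rw [avg_const] at hu hl
  have h4 : |avg (fun x => ff g k x - sphTr g k x) t| ≤ 1800 * (C * K) / t ^ 3 := abs_le.2 ⟨hl, hu⟩
  refine (mul_le_mul_of_nonneg_left h4 (sq_nonneg t)).trans (le_of_eq ?_)
  field_simp

end UMB
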