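import Pool.Agent.Lib.UMB.SS.Flux4

set_option autoImplicit false

/-!
# UMB section S: the flux of the plane traces tends to zero
-/

open Filter Topology Set MeasureTheory Matrix
open scoped ContDiff

namespace UMB

open Pool.Agent.Lib.PenroseSph (E3 Tens pd trg energy momNorm trLevel meanCurv gradNorm normal normSqg momentum divg chr
  S2 sm integrable_S2 norm_ray avg avg_congr avg_mono avg_add avg_sub avg_smul flux_deriv avg_const cont_ray)
open SSM

variable {g h : Tens} {a : ℝ}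

theorem Data.smM (hD : Data g h a) : SmM g a := ⟨hD.smooth_g, hD.symm_g, hD.pos⟩

/-- The far zone data. -/
theorem Data.farM (hD : Data g h a) : ∃ C K : ℝ, 0 ≤ K ∧ (∀ r0 : ℝ, max 1 (200 * C) ≤ r0 → FarM g a C r0) ∧
    ∀ x : E3, 1 ≤ ‖x‖ → ∀ i j, |h x i j| ≤ K / ‖x‖ ^ 2 := by
  obtain ⟨C, hC⟩ := hD.decay
  refine ⟨max C 0, max C 0, le_max_right _ _, ?_, ?_⟩
  · intro r0 hr0
    have h1 : 1 ≤ r0 := (le_max_left _ _).trans hr0
    refine ⟨hD.smM, lt_of_lt_of_le hD.lt h1, h1, le_max_right _ _, (le_max_right _ _).trans hr0, ?_, ?_⟩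
    · intro x hx i j
      have hx1 : 1 ≤ ‖x‖ := h1.trans hx
      refine (hC x hx1 i j 0).1.trans ?_
      apply div_le_div_of_nonneg_right (le_max_left _ _)
      exact norm_nonneg _
    · intro x hx i j k
      have hx1 : 1 ≤ ‖x‖ := h1.trans hx
      refine (hC x hx1 i j k).2.1.trans ?_
      apply div_le_div_of_nonneg_right (le_max_left _ _)
      positivity
  · intro x hx i j
    refine (hC x hx i j 0).2.2.trans ?_
    apply div_le_div_of_nonneg_right (le_max_left _ _)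
    positivity

/-- `L¹` version of the limit of the errors. -/
theorem etaS_L1 (hg : SmM g a) (ha : a < 1) (hh : SmT h a) {b c : ℝ} (hb : 1 ≤ b) :
    Tendsto (fun s : ℝ => ∫ x in {x : E3 | b < ‖x‖ ∧ ‖x‖ < c}, etaS g h s x) (𝓝[>] 0) (𝓝 0) := by
  have hcpt : IsCompact {x : E3 | b ≤ ‖x‖ ∧ ‖x‖ ≤ c} := by
    have h1 : {x : E3 | b ≤ ‖x‖ ∧ ‖x‖ ≤ c} = Metric.closedBall 0 c ∩ {x : E3 | b ≤ ‖x‖} := by
      ext x
      simp [and_comm]
    rw [h1]
    exact (isCompact_closedBall _ _).inter_right (isClosed_le continuous_const continuous_norm)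
  have hsub : {x : E3 | b < ‖x‖ ∧ ‖x‖ < c} ⊆ {x : E3 | b ≤ ‖x‖ ∧ ‖x‖ ≤ c} := fun x hx => ⟨hx.1.le, hx.2.le⟩
  have hmem : ∀ x ∈ {x : E3 | b ≤ ‖x‖ ∧ ‖x‖ ≤ c}, a < ‖x‖ := fun x hx => lt_of_lt_of_le ha (hb.trans hx.1)
  have hms := (isOpen_shell b c).measurableSet
  have hgc : ContinuousOn (fun x => gradNorm g (trg g h) x) {x : E3 | b ≤ ‖x‖ ∧ ‖x‖ ≤ c} := fun x hx =>
    (hg.gradNorm_cont (hmem x hx) (hg.trg_at hh (hmem x hx))).continuousWithinAt
  have hlim : Tendsto (fun s : ℝ => ∫ x in {x : E3 | b < ‖x‖ ∧ ‖x‖ < c}, etaS g h s x) (𝓝[>] 0)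
      (𝓝 (∫ x in {x : E3 | b < ‖x‖ ∧ ‖x‖ < c}, (0:ℝ))) := by
    apply tendsto_integral_filter_of_dominated_convergence
      (fun x => 1 / 2 + 2 * gradNorm g (trg g h) x)
    · filter_upwards [self_mem_nhdsWithin] with s hs
      have hs0 : 0 < s := hs
      apply ContinuousOn.aestronglyMeasurable _ hms
      exact fun x hx => (etaS_cont hs0 hg hh (hmem x (hsub hx))).continuousWithinAt
    · have h1 : Ioo (0:ℝ) 1 ∈ 𝓝[>] (0:ℝ) := Ioo_mem_nhdsGT one_pos
      filter_upwards [h1] with s hs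
      apply Eventually.of_forall
      intro x
      have h2 := etaS_le (g := g) (h := h) (x := x) hs.1
      have h3 := etaS_nonneg (g := g) (h := h) (x := x) hs.1
      rw [Real.norm_eq_abs, abs_of_nonneg h3]
      have h4 : s ^ 2 ≤ 1 := by nlinarith [hs.1, hs.2]
      linarith
    · exact ((continuousOn_const.add (continuousOn_const.mul hgc)).integrableOn_compact hcpt).mono_set hsub
    · apply Eventually.of_forall
      intro x
      exact tendsto_etaS g h x
  simpa using hlim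

theorem abs_sphTr_le' {x : E3} (hgs : (g x).IsSymm) (hhs : (h x).IsSymm)
    (hgp : ∀ v : Fin 3 → ℝ, v ≠ 0 → 0 < quad g x v) (hO : OneSign g h x) (hx : x ≠ 0) {C : ℝ}
    (hN : Near (g x) C) (hC : C ≤ 1 / 6) {K : ℝ} (hK : ∀ i j, |h x i j| ≤ K) : |sphTr g h x| ≤ 36 * K := by
  have h1 := abs_sphTr_le hgs hhs hgp hO hx
  have h2 := trg_le hN hC (isUnit_det hgs hgp) hK
  linarith

/-- The trace over the sphere of the reduction tensor is nonnegative. -/
theorem sphTr_kS_nonneg {s : ℝ} {x : E3} (hs : 0 < s) (hgs : (g x).IsSymm)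
    (hgp : ∀ v : Fin 3 → ℝ, v ≠ 0 → 0 < quad g x v) (hO : OneSign g h x) (hx : x ≠ 0) :
    0 ≤ sphTr g (kS g h s) x := by
  have h1 := two_kS hs hO hgs hgp (fun i => normal g (fun y => ‖y‖) i x)
  rw [quad_normal hgs hgp (pd_norm_ne hx), mul_one] at h1
  have h2 : sphTr g (kS g h s) x = trLevel g (kS g h s) (fun y => ‖y‖) x := rfl
  rw [h2, trLevel_eq]
  exact h1

/-- The flux of `|tr_S h|` is at most `4π` times `PhiT` of the reduction tensor plus an error. -/
theorem trFlux_le (hD : Data g h a) (hO : ∀ x : E3, 1 ≤ ‖x‖ → OneSign g h x) {s t : ℝ} (hs : 0 < s) (ht : 1 ≤ t) :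
    trFlux g h t ≤ 4 * Real.pi * (PhiT g (kS g h s) t + 2 * s * t ^ 2) := by
  have hg := hD.smM
  have hmt : max a 0 < t := lt_of_lt_of_le (max_lt hD.lt one_pos) ht
  have hk := kS_smooth (h := h) hs hg hD.smooth_h
  have h1 : trFlux g h t ≤ ∫ n : S2, t ^ 2 * (sphTr g (kS g h s) (t • (n : E3)) + 2 * s) ∂sm := by
    unfold trFlux
    refine integral_mono (sph_int (le_max_right _ _) (hg.sphTr_cont hD.smooth_h) hmt) ?_ fun n => ?_
    · apply integrable_S2
      exact continuous_const.mul ((cont_ray (le_max_right _ _) (hg.sphTr_cont hk) hmt).add continuous_const)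
    · have hn : ‖t • (n : E3)‖ = t := norm_ray (by linarith) n
      have hx1 : 1 ≤ ‖t • (n : E3)‖ := by rw [hn]; exact ht
      have hxa := lt_of_lt_of_le hD.lt hx1
      apply mul_le_mul_of_nonneg_left _ (sq_nonneg t)
      refine sphTr_kS_abs hs (hO _ hx1) (hg.symm _ hxa) (hD.symm_h _ hxa) (hg.pos _ hxa) ?_
      exact norm_ne_zero_iff.1 (by rw [hn]; linarith)
  refine h1.trans (le_of_eq ?_)
  have hi : Integrable (fun n : S2 => sphTr g (kS g h s) (t • (n : E3))) sm :=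
    integrable_S2 (cont_ray (le_max_right _ _) (hg.sphTr_cont hk) hmt)
  rw [integral_const_mul, integral_add hi (integrable_const _)]
  unfold PhiT avg
  rw [integral_const, Pool.Agent.Lib.PenroseSph.sm_univ]
  have := Real.pi_pos
  simp only [smul_eq_mul]
  field_simp

/-- THE FLUX OF THE PLANE TRACES TENDS TO ZERO. -/
theorem trFlux_tendsto_aux (hD : Data g h a) (hO : ∀ x : E3, 1 ≤ ‖x‖ → OneSign g h x) (hT : Tame g h) :
    Tendsto (trFlux g h) atTop (𝓝 0) := by
  have hg := hD.smM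
  have hpi := Real.pi_pos
  have hnn : ∀ t, 0 ≤ trFlux g h t := by
    intro t
    unfold trFlux
    apply integral_nonneg
    intro n
    positivity
  obtain ⟨C, K, hK0, hfar, hK⟩ := hD.farM
  obtain ⟨c0, hc0, hTame⟩ := hT
  set c : ℝ := max c0 1 with hc
  have hc1 : 1 ≤ c := le_max_right _ _
  have hc2 : c < 2 := max_lt hc0 (by norm_num)
  have hcpos : 0 < c := by linarith
  set c' : ℝ := 2 / c - 1 with hc'
  have hc'0 : 0 < c' := by
    rw [hc', sub_pos, lt_div_iff₀ hcpos]; linarith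
  have hC0 : 0 ≤ C := (hfar _ le_rfl).C_nonneg
  -- continuity of the momentum norm
  have hJc : ContinuousOn (momNorm g h) {x : E3 | max a 0 < ‖x‖} := fun x hx =>
    (momNorm_cont hg hD.smooth_h (lt_of_max hx)).continuousWithinAt
  have hJn : ∀ x, 0 ≤ momNorm g h x := fun x => Real.sqrt_nonneg _
  -- tails of the momentum integral
  have htail : Tendsto (fun t : ℝ => ∫ x in {x : E3 | t ≤ ‖x‖}, momNorm g h x) atTop (𝓝 0) := by
    have h1 : Tendsto (fun t : ℝ => ∫ x in {x : E3 | t ≤ ‖x‖}, momNorm g h x) atTop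
        (𝓝 (∫ x in ⋂ t : ℝ, {x : E3 | t ≤ ‖x‖}, momNorm g h x)) := by
      apply tendsto_setIntegral_of_antitone
      · intro t
        exact (isClosed_le continuous_const continuous_norm).measurableSet
      · intro t1 t2 h12 x hx
        exact le_trans h12 hx
      · exact ⟨1, hD.int_J⟩
    have h2 : ⋂ t : ℝ, {x : E3 | t ≤ ‖x‖} = ∅ := by
      ext x
      simp only [mem_iInter, mem_setOf_eq, mem_empty_iff_false, iff_false, not_forall, not_le]
      exact ⟨‖x‖ + 1, by linarith⟩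
    rw [h2] at h1
    simpa using h1
  rw [Metric.tendsto_atTop]
  intro δ hδ
  -- constants
  set δ1 : ℝ := δ / (16 * Real.pi) with hδ1
  have hδ10 : 0 < δ1 := by positivity
  set ε1 : ℝ := c' * δ1 * c / 8 with hε1
  have hε10 : 0 < ε1 := by positivity
  obtain ⟨RT, hRT⟩ := hTame ε1 hε10
  set B : ℝ := 36 * K with hB
  have hB0 : 0 ≤ B := by positivity
  obtain ⟨tJ, htJ⟩ := eventually_atTop.1 (htail.eventually (gt_mem_nhds (show (0:ℝ) < δ1 by exact hδ10)))
  set t0 : ℝ := max (max (max 1 (200 * C)) RT) (max tJ (155400 * (C * K) / (δ1 / 16))) with ht0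
  refine ⟨t0, fun t1 ht1 => ?_⟩
  have ht1' : t0 ≤ t1 := ht1
  have hA1 : max 1 (200 * C) ≤ t1 := ((le_max_left _ _).trans (le_max_left _ _)).trans ht1'
  have hone : 1 ≤ t1 := (le_max_left _ _).trans hA1
  have ht1RT : RT ≤ t1 := ((le_max_right _ _).trans (le_max_left _ _)).trans ht1'
  have ht1J : tJ ≤ t1 := ((le_max_left _ _).trans (le_max_right _ _)).trans ht1'
  have ht1K : 155400 * (C * K) / (δ1 / 16) ≤ t1 := ((le_max_right _ _).trans (le_max_right _ _)).trans ht1'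
  have ht10 : 0 < t1 := by linarith
  have hF := hfar t1 hA1
  set T : ℝ := t1 * Real.exp ((B + 1) / (c' * δ1 / 4)) with hTdef
  have hTt : t1 ≤ T := by
    rw [hTdef]
    have : 1 ≤ Real.exp ((B + 1) / (c' * δ1 / 4)) := Real.one_le_exp (by positivity)
    nlinarith
  have hT0 : 0 < T := lt_of_lt_of_le ht10 hTt
  have hlog : (c' * δ1 / 4) * Real.log (T / t1) = B + 1 := by
    have h1 : T / t1 = Real.exp ((B + 1) / (c' * δ1 / 4)) := by
      rw [hTdef]; field_simp
    rw [h1, Real.log_exp]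
    have : c' * δ1 / 4 ≠ 0 := by positivity
    field_simp
  -- choice of s
  have hev1 := (etaS_L1 hg hD.lt hD.smooth_h (b := t1) (c := T) hone).eventually
    (gt_mem_nhds (show (0:ℝ) < δ1 / 16 by positivity))
  have hev2 : ∀ᶠ s : ℝ in 𝓝[>] 0, 2 * s * t1 ^ 2 < δ1 := by
    have h1 : Tendsto (fun s : ℝ => 2 * s * t1 ^ 2) (𝓝 0) (𝓝 (2 * 0 * t1 ^ 2)) := Continuous.tendsto (by fun_prop) 0
    simp only [mul_zero, zero_mul] at h1
    exact (h1.mono_left nhdsWithin_le_nhds).eventually (gt_mem_nhds hδ10)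
  obtain ⟨s, ⟨hs1, hs2⟩, hs3⟩ := ((hev1.and hev2).and self_mem_nhdsWithin).exists
  have hs : 0 < s := hs3
  have hk := kS_smooth (h := h) hs hg hD.smooth_h
  have hks : ∀ x : E3, a < ‖x‖ → (kS g h s x).IsSymm := fun x hx => (hD.symm_h x hx).smul _
  have hkK : ∀ x : E3, 1 ≤ ‖x‖ → ∀ i j, |kS g h s x i j| ≤ K / ‖x‖ ^ 2 := fun x hx i j =>
    (kS_abs_le hs i j).trans (hK x hx i j)
  have hTk : ∀ x : E3, t1 ≤ ‖x‖ → sphTr g (kS g h s) x ≤ c * trg g (kS g h s) x + ε1 / ‖x‖ ^ 2 := by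
    intro x hx
    have hx1 : 1 ≤ ‖x‖ := hone.trans hx
    have hxp : 0 < ‖x‖ := by linarith
    have h1 := hRT x (ht1RT.trans hx)
    rw [sphTr_kS, trg_kS]
    have h2 := abs_psi_le hs (trg g h x)
    have h3 : psi s (trg g h x) * sphTr g h x ≤ |psi s (trg g h x)| * |sphTr g h x| := by
      rw [← abs_mul]; exact le_abs_self _
    have h4 : psi s (trg g h x) * trg g h x = |psi s (trg g h x)| * |trg g h x| := by
      rw [← abs_mul]; exact (abs_of_nonneg (psi_self hs _)).symm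
    rw [h4]
    have h5 : c0 * |trg g h x| ≤ c * |trg g h x| := mul_le_mul_of_nonneg_right (le_max_left _ _) (abs_nonneg _)
    have h6 : |psi s (trg g h x)| * |sphTr g h x| ≤ |psi s (trg g h x)| * (c * |trg g h x| + ε1 / ‖x‖ ^ 2) :=
      mul_le_mul_of_nonneg_left (by linarith) (abs_nonneg _)
    have h7 : |psi s (trg g h x)| * (ε1 / ‖x‖ ^ 2) ≤ 1 * (ε1 / ‖x‖ ^ 2) :=
      mul_le_mul_of_nonneg_right h2 (by positivity)
    nlinarith
  set m : E3 → ℝ := fun x => momNorm g h x + etaS g h s x with hm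
  have hmc : ContinuousOn m {x : E3 | max a 0 < ‖x‖} := hJc.add fun x hx =>
    (etaS_cont hs hg hD.smooth_h (lt_of_max hx)).continuousWithinAt
  have hmn : ∀ x : E3, t1 ≤ ‖x‖ → 0 ≤ m x := fun x _ => add_nonneg (hJn x) (etaS_nonneg hs)
  have hmm : ∀ x : E3, t1 ≤ ‖x‖ → momNorm g (kS g h s) x ≤ m x := by
    intro x hx
    have hx1 : 1 ≤ ‖x‖ := hone.trans hx
    have hxa := lt_of_lt_of_le hD.lt hx1
    have h1 := momNorm_kS hs hg hD.smooth_h hxa (hD.symm_h x hxa) (hO x hx1)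
    have h2 := abs_psi_le hs (trg g h x)
    have h3 : |psi s (trg g h x)| * momNorm g h x ≤ 1 * momNorm g h x := mul_le_mul_of_nonneg_right h2 (hJn x)
    simp only [hm, etaS]
    nlinarith [sq_nonneg s]
  -- the error
  set κ : ℝ := 155400 * (C * K) / t1 + 2 * ∫ r in t1..T, r ^ 2 * avg m r with hκ
  have hκle : κ ≤ δ1 / 4 := by
    have h1 : 155400 * (C * K) / t1 ≤ δ1 / 16 := by
      rw [div_le_iff₀ ht10]
      rw [div_le_iff₀ (by positivity)] at ht1K
      linarith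
    have hintJ : IntegrableOn (momNorm g h) {x : E3 | t1 < ‖x‖ ∧ ‖x‖ < T} :=
      hD.int_J.mono_set fun x hx => hone.trans hx.1.le
    have hcpt : IsCompact {x : E3 | t1 ≤ ‖x‖ ∧ ‖x‖ ≤ T} := by
      have h1 : {x : E3 | t1 ≤ ‖x‖ ∧ ‖x‖ ≤ T} = Metric.closedBall 0 T ∩ {x : E3 | t1 ≤ ‖x‖} := by
        ext x
        simp [and_comm]
      rw [h1]
      exact (isCompact_closedBall _ _).inter_right (isClosed_le continuous_const continuous_norm)
    have hinte : IntegrableOn (etaS g h s) {x : E3 | t1 < ‖x‖ ∧ ‖x‖ < T} := by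
      have h2 : ContinuousOn (etaS g h s) {x : E3 | t1 ≤ ‖x‖ ∧ ‖x‖ ≤ T} := fun x hx =>
        (etaS_cont hs hg hD.smooth_h (lt_of_lt_of_le hD.lt (hone.trans hx.1))).continuousWithinAt
      exact (h2.integrableOn_compact hcpt).mono_set fun x hx => ⟨hx.1.le, hx.2.le⟩
    have hintm : IntegrableOn m {x : E3 | t1 < ‖x‖ ∧ ‖x‖ < T} := hintJ.add hinte
    have h2 := polar_avg ht10.le hTt hintm
    have h3 : ∫ x in {x : E3 | t1 < ‖x‖ ∧ ‖x‖ < T}, m x =
        (∫ x in {x : E3 | t1 < ‖x‖ ∧ ‖x‖ < T}, momNorm g h x) + ∫ x in {x : E3 | t1 < ‖x‖ ∧ ‖x‖ < T}, etaS g h s x :=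
      integral_add hintJ hinte
    have h4 : ∫ x in {x : E3 | t1 < ‖x‖ ∧ ‖x‖ < T}, momNorm g h x ≤ δ1 := by
      refine le_trans ?_ (htJ t1 ht1J).le
      apply setIntegral_mono_set (hD.int_J.mono_set fun x hx => hone.trans hx)
      · exact Eventually.of_forall fun x => hJn x
      · exact (show {x : E3 | t1 < ‖x‖ ∧ ‖x‖ < T} ⊆ {x : E3 | t1 ≤ ‖x‖} from fun x hx => hx.1.le).eventuallyLE
    have h5 : (4 * Real.pi)⁻¹ ≤ 1 / 12 := by
      rw [inv_eq_one_div]
      apply one_div_le_one_div_of_le (by norm_num)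
      linarith [Real.pi_gt_three]
    have h6 : ∫ r in t1..T, r ^ 2 * avg m r ≤ 1 / 12 * (δ1 + δ1 / 16) := by
      rw [h2, h3]
      have h7 : 0 ≤ ∫ x in {x : E3 | t1 < ‖x‖ ∧ ‖x‖ < T}, momNorm g h x := integral_nonneg fun x => hJn x
      have h8 : 0 ≤ ∫ x in {x : E3 | t1 < ‖x‖ ∧ ‖x‖ < T}, etaS g h s x := integral_nonneg fun x => etaS_nonneg hs
      apply mul_le_mul h5 (by linarith) (by linarith) (by norm_num)
    rw [hκ]
    linarith
  -- growth
  have hPc : ContinuousOn (PhiT g (kS g h s)) (Icc t1 T) := by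
    have h1 : ContinuousOn (PhiT g (kS g h s)) (Ioi (max a 0)) :=
      (continuousOn_id.pow 2).mul (avg_contOn (le_max_right _ _) (hg.sphTr_cont hk))
    refine h1.mono fun r hr => ?_
    exact max_lt (lt_of_lt_of_le hD.lt (hone.trans hr.1)) (lt_of_lt_of_le ht10 hr.1)
  have hP1 : PhiT g (kS g h s) t1 < δ1 := by
    by_contra hcon
    rw [not_lt] at hcon
    have h1 := gw (Φ := PhiT g (kS g h s)) (t1 := t1) (T := T) (δ := δ1) (c := c') (κ := κ) (ε := (2 / c) * ε1)
      hPc ht10 hTt hc'0 hδ10 hκle (by rw [hε1]; field_simp; linarith) hcon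
      (fun t ht => PhiT_ineq hF hk hks hK0 hkK hcpos hTk hmc hmn hmm le_rfl ht.1 ht.2)
    rw [hlog] at h1
    have h2 : PhiT g (kS g h s) T ≤ B := by
      have hmT : max a 0 < T := max_lt (lt_of_lt_of_le hD.lt (hone.trans hTt)) hT0
      have h3 : avg (sphTr g (kS g h s)) T ≤ avg (fun _ => B / T ^ 2) T := by
        apply avg_mono (le_max_right _ _) hmT (hg.sphTr_cont hk) continuousOn_const
        intro n
        have hn : ‖T • (n : E3)‖ = T := norm_ray hT0 n
        have hx : t1 ≤ ‖T • (n : E3)‖ := by rw [hn]; exact hTt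
        have hx1 : 1 ≤ ‖T • (n : E3)‖ := hone.trans hx
        have hxa := lt_of_lt_of_le hD.lt hx1
        have hx0 : T • (n : E3) ≠ 0 := norm_ne_zero_iff.1 (by rw [hn]; exact hT0.ne')
        have h4 := abs_sphTr_le' (hg.symm _ hxa) (hD.symm_h _ hxa) (hg.pos _ hxa) (hO _ hx1) hx0 (hF.near _ hx)
          (by linarith [hF.eps hx]) (hK _ hx1)
        have h5 : sphTr g (kS g h s) (T • (n : E3)) ≤ |sphTr g h (T • (n : E3))| := by
          rw [sphTr_kS]
          refine (le_abs_self _).trans ?_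
          rw [abs_mul]
          have := abs_psi_le hs (trg g h (T • (n : E3)))
          nlinarith [abs_nonneg (sphTr g h (T • (n : E3)))]
        refine (h5.trans h4).trans (le_of_eq ?_)
        rw [hn, hB]
        ring
      rw [avg_const] at h3
      unfold PhiT
      have h6 := mul_le_mul_of_nonneg_left h3 (sq_nonneg T)
      refine h6.trans (le_of_eq ?_)
      field_simp
    linarith
  have hfin := trFlux_le hD hO hs hone
  rw [Real.dist_eq, sub_zero, abs_of_nonneg (hnn t1)]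
  refine lt_of_le_of_lt hfin ?_
  have h9 : 4 * Real.pi * (PhiT g (kS g h s) t1 + 2 * s * t1 ^ 2) < 4 * Real.pi * (2 * δ1) :=
    mul_lt_mul_of_pos_left (by linarith) (by positivity)
  refine lt_trans h9 ?_
  rw [hδ1]
  have h10 : 4 * Real.pi * (2 * (δ / (16 * Real.pi))) = δ / 2 := by field_simp; norm_num
  rw [h10]
  linarith

end UMB
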