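import Mathlib

set_option autoImplicit false

/-!
# UMB section S: algebra of positive definite 3 x 3 matrices, orthonormal frames
-/

open Matrix
open scoped MatrixOrder

namespace UMB

namespace SSM

/-- Quadratic form. -/
def qf (M : Matrix (Fin 3) (Fin 3) ℝ) (v : Fin 3 → ℝ) : ℝ := ∑ i, ∑ j, M i j * v i * v j

/-- Bilinear form. -/
def bf (M : Matrix (Fin 3) (Fin 3) ℝ) (v w : Fin 3 → ℝ) : ℝ := ∑ i, ∑ j, M i j * v i * w j

variable {G H P : Matrix (Fin 3) (Fin 3) ℝ} {e : Fin 3 → Fin 3 → ℝ}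

theorem qf_eq (M : Matrix (Fin 3) (Fin 3) ℝ) (v : Fin 3 → ℝ) : qf M v = bf M v v := rfl

theorem bf_add_left (M : Matrix (Fin 3) (Fin 3) ℝ) (v v' w : Fin 3 → ℝ) :
    bf M (v + v') w = bf M v w + bf M v' w := by
  simp only [bf, Fin.sum_univ_three, Pi.add_apply]; ring

theorem bf_add_right (M : Matrix (Fin 3) (Fin 3) ℝ) (v w w' : Fin 3 → ℝ) :
    bf M v (w + w') = bf M v w + bf M v w' := by
  simp only [bf, Fin.sum_univ_three, Pi.add_apply]; ring

theorem bf_smul_left (M : Matrix (Fin 3) (Fin 3) ℝ) (c : ℝ) (v w : Fin 3 → ℝ) :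
    bf M (c • v) w = c * bf M v w := by
  simp only [bf, Fin.sum_univ_three, Pi.smul_apply, smul_eq_mul]; ring

theorem bf_smul_right (M : Matrix (Fin 3) (Fin 3) ℝ) (c : ℝ) (v w : Fin 3 → ℝ) :
    bf M v (c • w) = c * bf M v w := by
  simp only [bf, Fin.sum_univ_three, Pi.smul_apply, smul_eq_mul]; ring

theorem bf_comm (hs : P.IsSymm) (v w : Fin 3 → ℝ) : bf P v w = bf P w v := by
  have h : ∀ i j, P i j = P j i := fun i j => by rw [← hs.apply]
  simp only [bf, Fin.sum_univ_three]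
  rw [h 1 0, h 2 0, h 2 1]; ring

/-- An orthonormal frame. -/
structure Frame (G : Matrix (Fin 3) (Fin 3) ℝ) (e : Fin 3 → Fin 3 → ℝ) : Prop where
  orth : ∀ a b, bf G (e a) (e b) = if a = b then 1 else 0
  inv : ∀ i j, ∑ a, e a i * e a j = G⁻¹ i j

theorem posDef (hs : G.IsSymm) (hp : ∀ v, v ≠ 0 → 0 < qf G v) : G.PosDef := by
  apply PosDef.of_dotProduct_mulVec_pos
  · rw [IsHermitian, conjTranspose_eq_transpose_of_trivial]; exact hs
  · intro x hx
    have h := hp x hx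
    unfold qf at h
    simp only [star_trivial, dotProduct, mulVec]
    refine lt_of_lt_of_eq h ?_
    simp only [Fin.sum_univ_three]; ring

theorem exists_frame (hs : G.IsSymm) (hp : ∀ v, v ≠ 0 → 0 < qf G v) : ∃ e, Frame G e := by
  have hG := posDef hs hp
  obtain ⟨B, hB⟩ := CStarAlgebra.nonneg_iff_eq_star_mul_self.mp hG.posSemidef.nonneg
  rw [star_eq_conjTranspose, conjTranspose_eq_transpose_of_trivial] at hB
  have hdet : IsUnit G.det := (isUnit_iff_isUnit_det G).1 hG.isUnit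
  have hBd : IsUnit B.det := by
    rw [hB, det_mul, det_transpose] at hdet
    exact isUnit_of_mul_isUnit_right hdet
  have h1 : B⁻¹ * B⁻¹ᵀ = G⁻¹ := by
    rw [hB, Matrix.mul_inv_rev, transpose_nonsing_inv]
  have h2 : B⁻¹ᵀ * G * B⁻¹ = 1 := by
    rw [hB, transpose_nonsing_inv]
    have h3 : Bᵀ⁻¹ * Bᵀ = 1 := nonsing_inv_mul _ (by rwa [det_transpose])
    have h4 : B * B⁻¹ = 1 := mul_nonsing_inv _ hBd
    calc Bᵀ⁻¹ * (Bᵀ * B) * B⁻¹ = (Bᵀ⁻¹ * Bᵀ) * (B * B⁻¹) := by simp only [Matrix.mul_assoc]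
      _ = 1 := by rw [h3, h4, Matrix.mul_one]
  refine ⟨fun a i => B⁻¹ i a, ?_, ?_⟩
  · intro a b
    have h5 := congrFun (congrFun h2 a) b
    rw [one_apply] at h5
    rw [← h5]
    simp only [bf, Matrix.mul_apply, transpose_apply, Fin.sum_univ_three]
    ring
  · intro i j
    rw [← h1]
    simp only [Matrix.mul_apply, transpose_apply]

theorem qf_expand (M : Matrix (Fin 3) (Fin 3) ℝ) (c : Fin 3 → ℝ) (e : Fin 3 → Fin 3 → ℝ) :
    qf M (fun i => ∑ a, c a * e a i) = ∑ a, ∑ b, c a * c b * bf M (e a) (e b) := by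
  simp only [qf, bf, Fin.sum_univ_three]; ring

namespace Frame

theorem tr (h : Frame G e) (H : Matrix (Fin 3) (Fin 3) ℝ) :
    ∑ i, ∑ j, G⁻¹ i j * H i j = ∑ a, qf H (e a) := by
  simp only [← h.inv, qf, Fin.sum_univ_three]; ring

theorem cov (h : Frame G e) (α : Fin 3 → ℝ) :
    ∑ i, ∑ j, G⁻¹ i j * α i * α j = ∑ a, (∑ i, α i * e a i) ^ 2 := by
  simp only [← h.inv, Fin.sum_univ_three]; ring

theorem sq (h : Frame G e) (H : Matrix (Fin 3) (Fin 3) ℝ) :
    ∑ i, ∑ j, ∑ k, ∑ l, G⁻¹ i k * G⁻¹ j l * H i j * H k l = ∑ a, ∑ b, (bf H (e a) (e b)) ^ 2 := by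
  simp only [← h.inv, bf, Fin.sum_univ_three]; ring

theorem sq_nonneg (h : Frame G e) (H : Matrix (Fin 3) (Fin 3) ℝ) :
    0 ≤ ∑ i, ∑ j, ∑ k, ∑ l, G⁻¹ i k * G⁻¹ j l * H i j * H k l := by
  rw [h.sq]; positivity

theorem expand (h : Frame G e) (hd : IsUnit G.det) (v : Fin 3 → ℝ) (i : Fin 3) :
    v i = ∑ a, bf G (e a) v * e a i := by
  have h1 : G⁻¹ * G = 1 := nonsing_inv_mul _ hd
  have h2 : v i = ∑ k, (G⁻¹ * G) i k * v k := by
    rw [h1]; simp [Matrix.one_apply]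
  rw [h2]
  simp only [Matrix.mul_apply, ← h.inv, bf, Fin.sum_univ_three]; ring

theorem qfG (h : Frame G e) (hd : IsUnit G.det) (v : Fin 3 → ℝ) :
    qf G v = ∑ a, (bf G (e a) v) ^ 2 := by
  have h1 : v = fun i => ∑ a, bf G (e a) v * e a i := funext fun i => h.expand hd v i
  have h2 := qf_expand G (fun a => bf G (e a) v) e
  rw [← h1] at h2
  rw [h2]
  simp only [h.orth, Fin.sum_univ_three]
  simp; ring

end Frame

/-- Cauchy-Schwarz for a positive semidefinite form. -/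
theorem cs (hs : P.IsSymm) (hP : ∀ v, 0 ≤ qf P v) (v w : Fin 3 → ℝ) : (bf P v w) ^ 2 ≤ qf P v * qf P w := by
  have h : ∀ t : ℝ, 0 ≤ qf P w * (t * t) + (2 * bf P v w) * t + qf P v := by
    intro t
    have h1 := hP (v + t • w)
    rw [qf_eq, bf_add_left, bf_add_right, bf_add_right, bf_smul_left, bf_smul_left, bf_smul_right, bf_smul_right,
      bf_comm hs w v] at h1
    rw [qf_eq, qf_eq]
    linarith
  have h2 := discrim_le_zero h
  unfold discrim at h2
  nlinarith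

/-- The quadratic form is at most the trace. -/
theorem qf_le (h : Frame G e) (hd : IsUnit G.det) (hs : P.IsSymm) (hP : ∀ v, 0 ≤ qf P v) (v : Fin 3 → ℝ) :
    qf P v ≤ (∑ i, ∑ j, G⁻¹ i j * P i j) * qf G v := by
  have h1 : v = fun i => ∑ a, bf G (e a) v * e a i := funext fun i => h.expand hd v i
  have h2 := qf_expand P (fun a => bf G (e a) v) e
  rw [← h1] at h2
  rw [h2, h.qfG hd, h.tr]
  set c : Fin 3 → ℝ := fun a => bf G (e a) v with hc
  have h3 : ∀ a b, c a * c b * bf P (e a) (e b) ≤ (c a ^ 2 * qf P (e b) + c b ^ 2 * qf P (e a)) / 2 := by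
    intro a b
    have h4 := cs hs hP (e a) (e b)
    have ha := hP (e a)
    have hb := hP (e b)
    have h5 : (c a * c b * bf P (e a) (e b)) ^ 2 ≤ ((c a ^ 2 * qf P (e b) + c b ^ 2 * qf P (e a)) / 2) ^ 2 := by
      have h6 : (c a * c b * bf P (e a) (e b)) ^ 2 ≤ (c a * c b) ^ 2 * (qf P (e a) * qf P (e b)) := by
        rw [mul_pow]; exact mul_le_mul_of_nonneg_left h4 (by positivity)
      refine h6.trans ?_
      nlinarith [sq_nonneg (c a ^ 2 * qf P (e b) - c b ^ 2 * qf P (e a))]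
    exact le_of_sq_le_sq h5 (by positivity)
  calc ∑ a, ∑ b, c a * c b * bf P (e a) (e b)
      ≤ ∑ a, ∑ b, (c a ^ 2 * qf P (e b) + c b ^ 2 * qf P (e a)) / 2 :=
        Finset.sum_le_sum fun a _ => Finset.sum_le_sum fun b _ => h3 a b
    _ = (∑ a, qf P (e a)) * ∑ a, c a ^ 2 := by
        simp only [Fin.sum_univ_three]; ring

/-- The length of the covector `P(X, ·)`. -/
theorem cov_le (h : Frame G e) (hd : IsUnit G.det) (hs : P.IsSymm) (hP : ∀ v, 0 ≤ qf P v) (X : Fin 3 → ℝ) :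
    ∑ i, ∑ j, G⁻¹ i j * (∑ k, P k i * X k) * (∑ k, P k j * X k) ≤
      (∑ i, ∑ j, G⁻¹ i j * P i j) ^ 2 * qf G X := by
  rw [h.cov]
  have h1 : ∀ a, (∑ i, (∑ k, P k i * X k) * e a i) ^ 2 ≤ qf P X * qf P (e a) := by
    intro a
    have h2 := cs hs hP X (e a)
    refine le_of_eq_of_le ?_ h2
    congr 1
    simp only [bf, Fin.sum_univ_three]; ring
  calc ∑ a, (∑ i, (∑ k, P k i * X k) * e a i) ^ 2 ≤ ∑ a, qf P X * qf P (e a) :=
        Finset.sum_le_sum fun a _ => h1 a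
    _ = (∑ i, ∑ j, G⁻¹ i j * P i j) * qf P X := by rw [h.tr, ← Finset.mul_sum]; ring
    _ ≤ (∑ i, ∑ j, G⁻¹ i j * P i j) * ((∑ i, ∑ j, G⁻¹ i j * P i j) * qf G X) := by
        apply mul_le_mul_of_nonneg_left (qf_le h hd hs hP X)
        rw [h.tr]
        exact Finset.sum_nonneg fun a _ => hP _
    _ = _ := by ring

end SSM

end UMB
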