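import Pool.Agent.Lib.UMB.SS.Flux5
import Pool.Agent.Lib.PenroseSph.System

set_option autoImplicit false

/-!
# UMB section S: the ADM momentum vanishes
-/

open Filter Topology Set MeasureTheory Matrix
open scoped ContDiff

namespace UMB

open Pool.Agent.Lib.PenroseSph (E3 Tens pd trg energy momNorm trLevel meanCurv gradNorm normal normSqg momentum divg chr
  S2 sm integrable_S2 norm_ray avg avg_congr avg_mono avg_add avg_sub avg_smul flux_deriv avg_const cont_ray admMom momDensity)
open SSM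

variable {g h : Tens} {a ε K : ℝ} {x : E3}

theorem normal_formula (hx0 : x ≠ 0) (i : Fin 3) :
    normal g (fun y : E3 => ‖y‖) i x = mu g x i / Real.sqrt (SS0 g x) := by
  have h1 : gradNorm g (fun y : E3 => ‖y‖) x = Real.sqrt (SS0 g x) := by
    unfold gradNorm SS0
    simp only [pd_norm' hx0]
  unfold normal mu
  rw [h1]
  simp only [pd_norm' hx0]

/-- The unit normal is close to the flat one. -/
theorem normal_near (hd : IsUnit (g x).det) (hx0 : x ≠ 0) (hN : Near (g x) ε) (hε : ε ≤ 1 / 200) (i : Fin 3) :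
    |nu x i - normal g (fun y : E3 => ‖y‖) i x| ≤ 100 * ε := by
  have hε6 : ε ≤ 1 / 6 := by linarith
  have hε0 : 0 ≤ ε := (abs_nonneg _).trans (hN 0 0)
  have hS := SS0_near hN hε6 hd hx0
  have hS2 := abs_le.1 hS
  have hS1 : 73 / 100 ≤ SS0 g x := by linarith
  have hSpos : 0 < SS0 g x := by linarith
  rw [normal_formula hx0]
  set r := Real.sqrt (SS0 g x) with hr
  have hr0 : 0 < r := Real.sqrt_pos.2 hSpos
  have hr2 : r * r = SS0 g x := Real.mul_self_sqrt hSpos.le
  have hr85 : 85 / 100 ≤ r := by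
    by_contra hcon
    rw [not_le] at hcon
    nlinarith
  have h1 := mu_near hN hε6 hd hx0 i
  have h2 := nu_abs_le hx0 i
  have h3 : nu x i - mu g x i / r = (nu x i * (r - 1) - (mu g x i - nu x i)) / r := by
    field_simp
    ring
  have h4 : |r - 1| ≤ 54 * ε := by
    have h5 : SS0 g x - 1 = (r - 1) * (r + 1) := by rw [← hr2]; ring
    rw [h5, abs_mul, abs_of_pos (by linarith : 0 < r + 1)] at hS
    nlinarith [abs_nonneg (r - 1)]
  rw [h3, abs_div, abs_of_pos hr0, div_le_iff₀ hr0]
  have h6 := mul_bd h2 h4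
  have h7 := abs_sub (nu x i * (r - 1)) (mu g x i - nu x i)
  nlinarith

/-- For a positive form `q(u) ≤ 2 q(v) + 2 q(u - v)`. -/
theorem qf_split {P : Matrix (Fin 3) (Fin 3) ℝ} (hP : ∀ v, 0 ≤ qf P v) (u v : Fin 3 → ℝ) :
    qf P u ≤ 2 * qf P v + 2 * qf P (fun i => u i - v i) := by
  have h1 := hP (fun i => 2 * v i - u i)
  have h2 : qf P (fun i => 2 * v i - u i) + qf P u = 2 * qf P v + 2 * qf P (fun i => u i - v i) := by
    simp only [qf, Fin.sum_univ_three]
    ring
  linarith

theorem PT_le (hN : Near (g x) ε) (hε : ε ≤ 1 / 6) (hd : IsUnit (g x).det) {σ : ℝ} (hσ : σ = 1 ∨ σ = -1)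
    (hK : ∀ i j, |h x i j| ≤ K) (i j : Fin 3) : |PT g h σ x i j| ≤ 37 * K := by
  have h1 := qT_le (k := h) hN hε hd hK i j
  have h2 : PT g h σ x i j = σ * qT g h x i j := rfl
  rw [h2, abs_mul]
  have h3 : |σ| = 1 := by rcases hσ with rfl | rfl <;> simp
  rw [h3, one_mul]
  exact h1

/-- Pointwise bound of the momentum density. -/
theorem momDensity_le (hg : SmM g a) (hx : a < ‖x‖) (hx0 : x ≠ 0) (hhs : (h x).IsSymm) (hO : OneSign g h x)
    (hN : Near (g x) ε) (hε : ε ≤ 1 / 200) (hK : ∀ i j, |h x i j| ≤ K) {l : ℝ} (hl : 0 < l) (i : Fin 3) :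
    |momDensity g h i x| ≤ (l * (37 * K) + (2 * |sphTr g h x| + 666 * K * (100 * ε) ^ 2) / l) / 2 := by
  have hgs := hg.symm x hx
  have hgp := hg.pos x hx
  have hd := hg.det hx
  have hε6 : ε ≤ 1 / 6 := by linarith
  have hK0 : 0 ≤ K := (abs_nonneg _).trans (hK 0 0)
  obtain ⟨σ, hσ, hab, hP⟩ := hO.exists_sign hgs hgp
  have hPs := PT_symm (h := h) hgs hhs σ
  have hPb := PT_le hN hε6 hd hσ hK
  set e : Fin 3 → ℝ := Pi.single i 1 with he
  have h1 := cs hPs hP e (fun j => nu x j)
  have h2 : bf (PT g h σ x) e (fun j => nu x j) = ∑ j, PT g h σ x i j * nu x j := by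
    rw [he]
    fin_cases i <;> simp [bf, Fin.sum_univ_three]
  have h3 : |momDensity g h i x| = |bf (PT g h σ x) e (fun j => nu x j)| := by
    rw [h2]
    have h4 : momDensity g h i x = - ∑ j, qT g h x i j * nu x j := by
      unfold momDensity
      rw [← Finset.sum_neg_distrib]
      refine Finset.sum_congr rfl fun j _ => ?_
      rw [qT_apply]
      unfold nu
      ring
    have h5 : ∑ j, PT g h σ x i j * nu x j = σ * ∑ j, qT g h x i j * nu x j := by
      rw [Finset.mul_sum]
      refine Finset.sum_congr rfl fun j _ => ?_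
      have : PT g h σ x i j = σ * qT g h x i j := rfl
      rw [this]; ring
    rw [h4, h5, abs_neg, abs_mul]
    have h6 : |σ| = 1 := by rcases hσ with rfl | rfl <;> simp
    rw [h6, one_mul]
  have h7 : qf (PT g h σ x) e ≤ 37 * K := by
    have h8 : qf (PT g h σ x) e = PT g h σ x i i := by
      rw [he]
      fin_cases i <;> simp [qf, Fin.sum_univ_three]
    rw [h8]
    exact (le_abs_self _).trans (hPb i i)
  have h9 : qf (PT g h σ x) (fun j => nu x j) ≤ 2 * |sphTr g h x| + 666 * K * (100 * ε) ^ 2 := by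
    have h10 := qf_split hP (fun j => nu x j) (fun j => normal g (fun y : E3 => ‖y‖) j x)
    have h11 := abs_trLevel hgs hgp (pd_norm_ne hx0) hσ hP
    have h12 : |qf (PT g h σ x) (fun j => nu x j - normal g (fun y : E3 => ‖y‖) j x)| ≤
        3 * (3 * (37 * K * (100 * ε) * (100 * ε))) :=
      sum3_le fun i => sum3_le fun j => mul_bd (mul_bd (hPb i j) (normal_near hd hx0 hN hε i)) (normal_near hd hx0 hN hε j)
    have h13 : |sphTr g h x| = |trLevel g h (fun y => ‖y‖) x| := rfl
    rw [h13, h11]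
    have h14 := (abs_le.1 h12).2
    have h15 : 666 * K * (100 * ε) ^ 2 = 2 * (3 * (3 * (37 * K * (100 * ε) * (100 * ε)))) := by ring
    rw [h15]
    linarith
  rw [h3]
  have hq1 := hP e
  have hq2 := hP (fun j => nu x j)
  have h16 : |bf (PT g h σ x) e (fun j => nu x j)| ≤ (l * qf (PT g h σ x) e + qf (PT g h σ x) (fun j => nu x j) / l) / 2 := by
    apply abs_le_of_sq_le_sq _ (by positivity)
    refine h1.trans ?_
    have h17 : 0 ≤ (l * qf (PT g h σ x) e - qf (PT g h σ x) (fun j => nu x j) / l) ^ 2 := sq_nonneg _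
    have h18 : l * qf (PT g h σ x) e * (qf (PT g h σ x) (fun j => nu x j) / l) =
        qf (PT g h σ x) e * qf (PT g h σ x) (fun j => nu x j) := by field_simp
    nlinarith
  refine h16.trans ?_
  have h19 : l * qf (PT g h σ x) e ≤ l * (37 * K) := mul_le_mul_of_nonneg_left h7 hl.le
  have h20 : qf (PT g h σ x) (fun j => nu x j) / l ≤ (2 * |sphTr g h x| + 666 * K * (100 * ε) ^ 2) / l :=
    div_le_div_of_nonneg_right h9 hl.le
  linarith

theorem momDensity_cont (hD : Data g h a) (i : Fin 3) : ContinuousOn (momDensity g h i) {x : E3 | max a 0 < ‖x‖} := by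
  intro x hx
  have hx0 := ne_of_max hx
  have hxa := lt_of_max hx
  apply ContinuousAt.continuousWithinAt
  have h1 : momDensity g h i = fun x => ∑ j, (h x i j - trg g h x * g x i j) * nu x j := rfl
  rw [h1]
  have hg := hD.smM
  have hh : SmT h a := hD.smooth_h
  have : ContDiffAt ℝ ∞ (fun x => ∑ j, (h x i j - trg g h x * g x i j) * nu x j) x :=
    ContDiffAt.sum fun j _ => ((hh.at hxa i j).sub ((hg.trg_at hh hxa).mul (hg.sm.at hxa i j))).mul (contDiffAt_nu hx0 j)
  exact this.continuousAt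

/-- THE ADM MOMENTUM VANISHES. -/
theorem admMom_tendsto_aux (hD : Data g h a) (hO : ∀ x : E3, 1 ≤ ‖x‖ → OneSign g h x)
    (hF : Tendsto (trFlux g h) atTop (𝓝 0)) (i : Fin 3) : Tendsto (admMom g h i) atTop (𝓝 0) := by
  have hpi := Real.pi_pos
  obtain ⟨C, K, hK0, hfar, hK⟩ := hD.farM
  set r0 : ℝ := max 1 (200 * C) with hr0
  have hfar0 := hfar r0 le_rfl
  have hC0 := hfar0.C_nonneg
  -- the bound
  have hb : ∀ l : ℝ, 0 < l → ∀ r : ℝ, r0 ≤ r → |admMom g h i r| ≤
      (1 / (8 * Real.pi)) * ((l * (37 * K) * (4 * Real.pi) + (2 * trFlux g h r +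
        (666 * K * (100 * C) ^ 2 / r ^ 2) * (4 * Real.pi)) / l) / 2) := by
    intro l hl r hr
    have hr1 : 1 ≤ r := hfar0.one_le.trans hr
    have hr00 : 0 < r := by linarith
    have hmr : max a 0 < r := max_lt (lt_of_lt_of_le hD.lt hr1) hr00
    have hmb : 0 ≤ max a 0 := le_max_right _ _
    unfold admMom
    rw [abs_mul, abs_of_pos (by positivity : 0 < 1 / (8 * Real.pi))]
    apply mul_le_mul_of_nonneg_left _ (by positivity)
    have hi1 : Integrable (fun n : S2 => r ^ 2 * |momDensity g h i (r • (n : E3))|) sm :=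
      sph_int hmb (momDensity_cont hD i) hmr
    have hi2 : Integrable (fun n : S2 => r ^ 2 * |sphTr g h (r • (n : E3))|) sm :=
      sph_int hmb (hD.smM.sphTr_cont hD.smooth_h) hmr
    have h1 : |∫ n : S2, r ^ 2 * momDensity g h i (r • (n : E3)) ∂sm| ≤
        ∫ n : S2, r ^ 2 * |momDensity g h i (r • (n : E3))| ∂sm := by
      refine (abs_integral_le_integral_abs).trans (le_of_eq ?_)
      congr 1
      funext n
      rw [abs_mul, abs_of_nonneg (sq_nonneg r)]
    refine h1.trans ?_
    have h2 : ∫ n : S2, r ^ 2 * |momDensity g h i (r • (n : E3))| ∂sm ≤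
        ∫ n : S2, (l * (37 * K) / 2 + (1 / l) * (r ^ 2 * |sphTr g h (r • (n : E3))|) +
          666 * K * (100 * C) ^ 2 / r ^ 2 / l / 2) ∂sm := by
      refine integral_mono hi1 (((integrable_const _).add (hi2.const_mul _)).add (integrable_const _)) fun n => ?_
      have hn : ‖r • (n : E3)‖ = r := norm_ray hr00 n
      have hx : r0 ≤ ‖r • (n : E3)‖ := by rw [hn]; exact hr
      have hx1 : 1 ≤ ‖r • (n : E3)‖ := by rw [hn]; exact hr1
      have hxa := lt_of_lt_of_le hD.lt hx1
      have hx0 : r • (n : E3) ≠ 0 := norm_ne_zero_iff.1 (by rw [hn]; exact hr00.ne')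
      have h3 := momDensity_le (l := l) hD.smM hxa hx0 (hD.symm_h _ hxa) (hO _ hx1) (hfar0.near _ hx) (hfar0.eps hx)
        (hK _ hx1) hl i
      have h4 := mul_le_mul_of_nonneg_left h3 (sq_nonneg r)
      refine h4.trans (le_of_eq ?_)
      rw [hn]
      field_simp
      ring
    refine h2.trans (le_of_eq ?_)
    have hi3 : Integrable (fun n : S2 => (1 / l) * (r ^ 2 * |sphTr g h (r • (n : E3))|)) sm := hi2.const_mul _
    have hi4 : Integrable (fun n : S2 => l * (37 * K) / 2 + (1 / l) * (r ^ 2 * |sphTr g h (r • (n : E3))|)) sm :=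
      (integrable_const _).add hi3
    rw [integral_add hi4 (integrable_const _),
      integral_add (integrable_const _) hi3, integral_const_mul, integral_const, integral_const,
      Pool.Agent.Lib.PenroseSph.sm_univ]
    have h5 : ∫ n : S2, r ^ 2 * |sphTr g h (r • (n : E3))| ∂sm = trFlux g h r := rfl
    rw [h5]
    simp only [smul_eq_mul]
    field_simp
    ring
  rw [Metric.tendsto_atTop]
  intro δ hδ
  set l : ℝ := δ / (37 * K + 1) with hl
  have hl0 : 0 < l := by positivity
  have hlim : Tendsto (fun r : ℝ => (1 / (8 * Real.pi)) * ((l * (37 * K) * (4 * Real.pi) + (2 * trFlux g h r +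
        (666 * K * (100 * C) ^ 2 / r ^ 2) * (4 * Real.pi)) / l) / 2)) atTop
      (𝓝 ((1 / (8 * Real.pi)) * ((l * (37 * K) * (4 * Real.pi) + (2 * 0 + 0 * (4 * Real.pi)) / l) / 2))) := by
    have h1 : Tendsto (fun r : ℝ => 666 * K * (100 * C) ^ 2 / r ^ 2) atTop (𝓝 0) :=
      Tendsto.const_div_atTop (tendsto_pow_atTop two_ne_zero) _
    exact (((tendsto_const_nhds.add (((hF.const_mul 2).add (h1.mul_const _)).div_const l)).div_const 2).const_mul _)
  have hlt : (1 / (8 * Real.pi)) * ((l * (37 * K) * (4 * Real.pi) + (2 * 0 + 0 * (4 * Real.pi)) / l) / 2) < δ := by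
    have h1 : (1 / (8 * Real.pi)) * ((l * (37 * K) * (4 * Real.pi) + (2 * 0 + 0 * (4 * Real.pi)) / l) / 2) =
        l * (37 * K) / 4 := by
      field_simp
      ring
    rw [h1, hl]
    have h2 : δ / (37 * K + 1) * (37 * K) ≤ δ := by
      rw [div_mul_eq_mul_div, div_le_iff₀ (by positivity)]
      nlinarith
    linarith
  have hev := (hlim.eventually (gt_mem_nhds hlt)).and (eventually_ge_atTop r0)
  obtain ⟨N, hN⟩ := eventually_atTop.1 hev
  refine ⟨N, fun r hr => ?_⟩
  rw [Real.dist_eq, sub_zero]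
  exact lt_of_le_of_lt (hb l hl0 r (hN r hr).2) (hN r hr).1

end UMB
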