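import Pool.Agent.Lib.UMB.SS.Red2

set_option autoImplicit false

/-!
# UMB section S: bounds for metrics close to the flat metric
-/

open Filter Topology Set MeasureTheory Matrix
open scoped ContDiff

namespace UMB

open Pool.Agent.Lib.PenroseSph (E3 Tens pd trg energy momNorm trLevel meanCurv gradNorm normal normSqg momentum divg chr
  pd_radial norm_sq_eq pd_coord diff_coord)
open SSM

/-- Close to the identity. -/
def Near (G : Matrix (Fin 3) (Fin 3) ℝ) (ε : ℝ) : Prop :=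
  ∀ i j, |G i j - (1 : Matrix (Fin 3) (Fin 3) ℝ) i j| ≤ ε

section near

variable {G : Matrix (Fin 3) (Fin 3) ℝ} {ε : ℝ}

theorem near_inv_aux (hd : IsUnit G.det) (i j : Fin 3) :
    G⁻¹ i j - (1 : Matrix (Fin 3) (Fin 3) ℝ) i j = - ∑ k, G⁻¹ i k * (G k j - (1 : Matrix (Fin 3) (Fin 3) ℝ) k j) := by
  have h1 : G⁻¹ * G = 1 := nonsing_inv_mul _ hd
  have h2 : ∑ k, G⁻¹ i k * G k j = (1 : Matrix (Fin 3) (Fin 3) ℝ) i j := by
    rw [← Matrix.mul_apply, h1]
  have h3 : ∑ k, G⁻¹ i k * (1 : Matrix (Fin 3) (Fin 3) ℝ) k j = G⁻¹ i j := by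
    rw [← Matrix.mul_apply, Matrix.mul_one]
  have h4 : ∑ k, G⁻¹ i k * (G k j - (1 : Matrix (Fin 3) (Fin 3) ℝ) k j) =
      ∑ k, G⁻¹ i k * G k j - ∑ k, G⁻¹ i k * (1 : Matrix (Fin 3) (Fin 3) ℝ) k j := by
    rw [← Finset.sum_sub_distrib]
    exact Finset.sum_congr rfl fun k _ => by ring
  rw [h4, h2, h3]
  ring

theorem abs_one_le (i j : Fin 3) : |(1 : Matrix (Fin 3) (Fin 3) ℝ) i j| ≤ 1 := by
  rw [Matrix.one_apply]
  split_ifs <;> simp

/-- Entries of the inverse are at most `2`. -/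
theorem near_inv_le (hN : Near G ε) (hε : ε ≤ 1 / 6) (hd : IsUnit G.det) (i j : Fin 3) : |G⁻¹ i j| ≤ 2 := by
  obtain ⟨p, -, hp⟩ := Finset.exists_max_image (Finset.univ : Finset (Fin 3 × Fin 3)) (fun p => |G⁻¹ p.1 p.2|)
    ⟨(0, 0), Finset.mem_univ _⟩
  set M := |G⁻¹ p.1 p.2| with hM
  have h0 : ∀ i j, |G⁻¹ i j| ≤ M := fun i j => hp (i, j) (Finset.mem_univ _)
  have hM0 : 0 ≤ M := abs_nonneg _
  have hε0 : 0 ≤ ε := (abs_nonneg _).trans (hN 0 0)
  have h1 := near_inv_aux hd p.1 p.2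
  have h2 : |∑ k, G⁻¹ p.1 k * (G k p.2 - (1 : Matrix (Fin 3) (Fin 3) ℝ) k p.2)| ≤ 3 * (M * ε) := by
    refine (Finset.abs_sum_le_sum_abs _ _).trans ?_
    have : ∑ k : Fin 3, (M * ε) = 3 * (M * ε) := by simp
    rw [← this]
    refine Finset.sum_le_sum fun k _ => ?_
    rw [abs_mul]
    exact mul_le_mul (h0 _ _) (hN _ _) (abs_nonneg _) hM0
  have h3 : M ≤ 1 + 3 * (M * ε) := by
    have h4 : G⁻¹ p.1 p.2 = (1 : Matrix (Fin 3) (Fin 3) ℝ) p.1 p.2 -
      ∑ k, G⁻¹ p.1 k * (G k p.2 - (1 : Matrix (Fin 3) (Fin 3) ℝ) k p.2) := by linarith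
    have h5 : M = |(1 : Matrix (Fin 3) (Fin 3) ℝ) p.1 p.2 -
      ∑ k, G⁻¹ p.1 k * (G k p.2 - (1 : Matrix (Fin 3) (Fin 3) ℝ) k p.2)| := by rw [← h4]
    have h6 := abs_sub ((1 : Matrix (Fin 3) (Fin 3) ℝ) p.1 p.2)
      (∑ k, G⁻¹ p.1 k * (G k p.2 - (1 : Matrix (Fin 3) (Fin 3) ℝ) k p.2))
    have := abs_one_le p.1 p.2
    linarith
  have h5 : M ≤ 2 := by nlinarith
  exact (h0 i j).trans h5

theorem near_inv (hN : Near G ε) (hε : ε ≤ 1 / 6) (hd : IsUnit G.det) (i j : Fin 3) :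
    |G⁻¹ i j - (1 : Matrix (Fin 3) (Fin 3) ℝ) i j| ≤ 6 * ε := by
  rw [near_inv_aux hd, abs_neg]
  have hε0 : 0 ≤ ε := (abs_nonneg _).trans (hN 0 0)
  refine (Finset.abs_sum_le_sum_abs _ _).trans ?_
  have : ∑ k : Fin 3, (2 * ε) = 6 * ε := by simp; ring
  rw [← this]
  refine Finset.sum_le_sum fun k _ => ?_
  rw [abs_mul]
  exact mul_le_mul (near_inv_le hN hε hd _ _) (hN _ _) (abs_nonneg _) (by norm_num)

end near

variable {g k : Tens} {a ε D : ℝ} {x : E3}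

/-- The outward flat unit vector. -/
noncomputable def nu (x : E3) (i : Fin 3) : ℝ := x i / ‖x‖

theorem pd_norm' (hx : x ≠ 0) (i : Fin 3) : pd i (fun y : E3 => ‖y‖) x = nu x i := by
  have := pd_radial (F := fun t => t) hx differentiableAt_id i
  simpa [nu] using this

theorem nu_sq (hx : x ≠ 0) : ∑ i, nu x i * nu x i = 1 := by
  have h1 := norm_sq_eq x
  have h2 : ‖x‖ ≠ 0 := norm_ne_zero_iff.2 hx
  simp only [nu, Fin.sum_univ_three]
  field_simp
  linarith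

theorem nu_abs_le (hx : x ≠ 0) (i : Fin 3) : |nu x i| ≤ 1 := by
  have h1 := nu_sq hx
  rw [Fin.sum_univ_three] at h1
  rw [← sq_le_one_iff_abs_le_one]
  fin_cases i <;> simp only [Fin.zero_eta, Fin.mk_one, Fin.reduceFinMk, Fin.isValue] <;>
    nlinarith [mul_self_nonneg (nu x 0), mul_self_nonneg (nu x 1), mul_self_nonneg (nu x 2)]

theorem contDiffAt_nu (hx : x ≠ 0) (i : Fin 3) : ContDiffAt ℝ ∞ (fun y => nu y i) x := by
  unfold nu
  exact ((EuclideanSpace.proj i : E3 →L[ℝ] ℝ).contDiff.contDiffAt).div (contDiffAt_norm ℝ hx) (norm_ne_zero_iff.2 hx)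

/-- Derivative of the unit radial field. -/
theorem pd_nu (hx : x ≠ 0) (i j : Fin 3) :
    pd i (fun y => nu y j) x = ((if j = i then 1 else 0) - nu x i * nu x j) / ‖x‖ := by
  have h2 : ‖x‖ ≠ 0 := norm_ne_zero_iff.2 hx
  have hd : DifferentiableAt ℝ (fun y => nu y j) x := (contDiffAt_nu hx j).differentiableAt (by simp)
  have hn : DifferentiableAt ℝ (fun y : E3 => ‖y‖) x := (contDiffAt_norm ℝ hx (n := 1)).differentiableAt (by norm_num)
  have h3 : pd i (fun y : E3 => ‖y‖ * nu y j) x = ‖x‖ * pd i (fun y => nu y j) x + pd i (fun y : E3 => ‖y‖) x * nu x j :=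
    pd_mul' hn hd i
  have h4 : pd i (fun y : E3 => ‖y‖ * nu y j) x = if j = i then 1 else 0 := by
    rw [← pd_coord i j x]
    unfold pd
    have : (fun y : E3 => ‖y‖ * nu y j) =ᶠ[𝓝 x] fun y => y j := by
      filter_upwards [isOpen_ne.mem_nhds hx] with y hy
      have : ‖y‖ ≠ 0 := norm_ne_zero_iff.2 hy
      unfold nu
      field_simp
    rw [this.fderiv_eq]
  rw [h4, pd_norm' hx] at h3
  rw [eq_div_iff h2]
  linarith

/-- Derivative of the inverse metric. -/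
theorem pd_inv (hg : SmM g a) (hx : a < ‖x‖) (m i j : Fin 3) :
    pd m (fun y => (g y)⁻¹ i j) x = - ∑ k, ∑ l, (g x)⁻¹ i k * pd m (fun y => g y k l) x * (g x)⁻¹ l j := by
  have hd := hg.det hx
  have hev : ∀ k, (fun y => ∑ l, g y k l * (g y)⁻¹ l j) =ᶠ[𝓝 x] fun _ => (1 : Matrix (Fin 3) (Fin 3) ℝ) k j := by
    intro k
    filter_upwards [(isOpen_ext' a).mem_nhds hx] with y hy
    rw [← Matrix.mul_apply, mul_nonsing_inv _ (hg.det hy)]
  have hgd : ∀ k l, DifferentiableAt ℝ (fun y => g y k l) x := fun k l => (hg.sm.at hx k l).differentiableAt (by simp)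
  have hid : ∀ k l, DifferentiableAt ℝ (fun y => (g y)⁻¹ k l) x := fun k l => (hg.inv hx k l).differentiableAt (by simp)
  have h1 : ∀ k, ∑ l, (g x k l * pd m (fun y => (g y)⁻¹ l j) x + pd m (fun y => g y k l) x * (g x)⁻¹ l j) = 0 := by
    intro k
    have h2 : pd m (fun y => ∑ l, g y k l * (g y)⁻¹ l j) x = 0 := by
      unfold pd
      rw [(hev k).fderiv_eq]
      simp
    rw [← h2, Pool.Agent.Lib.PenroseSph.sum_pd (f := fun l y => g y k l * (g y)⁻¹ l j) m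
      (fun l => (hgd k l).mul (hid l j))]
    exact Finset.sum_congr rfl fun l _ => (pd_mul' (hgd k l) (hid l j) m).symm
  have h3 : ∀ k, ∑ l, g x k l * pd m (fun y => (g y)⁻¹ l j) x = - ∑ l, pd m (fun y => g y k l) x * (g x)⁻¹ l j := by
    intro k
    have := h1 k
    rw [Finset.sum_add_distrib] at this
    linarith
  have h4 : pd m (fun y => (g y)⁻¹ i j) x = ∑ k, (g x)⁻¹ i k * ∑ l, g x k l * pd m (fun y => (g y)⁻¹ l j) x := by
    have h5 : (g x)⁻¹ * g x = 1 := nonsing_inv_mul _ hd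
    have h6 : ∀ l, ∑ k, (g x)⁻¹ i k * g x k l = if i = l then 1 else 0 := by
      intro l
      rw [← Matrix.mul_apply, h5, Matrix.one_apply]
    have h7 : ∑ k, (g x)⁻¹ i k * ∑ l, g x k l * pd m (fun y => (g y)⁻¹ l j) x =
        ∑ l, (∑ k, (g x)⁻¹ i k * g x k l) * pd m (fun y => (g y)⁻¹ l j) x := by
      simp only [Fin.sum_univ_three]; ring
    rw [h7]
    simp [h6]
  rw [h4]
  simp only [h3, Finset.mul_sum, ← Finset.sum_neg_distrib]
  refine Finset.sum_congr rfl fun k _ => Finset.sum_congr rfl fun l _ => ?_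
  ring

theorem sum3_le {f : Fin 3 → ℝ} {c : ℝ} (h : ∀ i, |f i| ≤ c) : |∑ i, f i| ≤ 3 * c := by
  refine (Finset.abs_sum_le_sum_abs _ _).trans ?_
  have : ∑ _k : Fin 3, c = 3 * c := by simp
  rw [← this]
  exact Finset.sum_le_sum fun k _ => h k

theorem mul_bd {u v p q : ℝ} (h1 : |u| ≤ p) (h2 : |v| ≤ q) : |u * v| ≤ p * q := by
  rw [abs_mul]
  exact mul_le_mul h1 h2 (abs_nonneg _) ((abs_nonneg _).trans h1)

theorem pd_inv_le (hg : SmM g a) (hx : a < ‖x‖) (hN : Near (g x) ε) (hε : ε ≤ 1 / 6)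
    (hD : ∀ i j k, |pd k (fun y => g y i j) x| ≤ D) (m i j : Fin 3) :
    |pd m (fun y => (g y)⁻¹ i j) x| ≤ 36 * D := by
  rw [pd_inv hg hx, abs_neg]
  have hi := near_inv_le hN hε (hg.det hx)
  have : 36 * D = 3 * (3 * (2 * D * 2)) := by ring
  rw [this]
  exact sum3_le fun k => sum3_le fun l => mul_bd (mul_bd (hi _ _) (hD _ _ _)) (hi _ _)

theorem chr_le (hd : IsUnit (g x).det) (hN : Near (g x) ε) (hε : ε ≤ 1 / 6)
    (hD : ∀ i j k, |pd k (fun y => g y i j) x| ≤ D) (l i j : Fin 3) : |chr g l i j x| ≤ 9 * D := by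
  unfold chr
  have hi := near_inv_le hN hε hd
  have h1 : ∀ m, |(pd i (fun y => g y j m) x + pd j (fun y => g y i m) x - pd m (fun y => g y i j) x)| ≤ 3 * D := by
    intro m
    have h2 := hD j m i
    have h3 := hD i m j
    have h4 := hD i j m
    have h5 := abs_sub (pd i (fun y => g y j m) x + pd j (fun y => g y i m) x) (pd m (fun y => g y i j) x)
    have h6 := abs_add_le (pd i (fun y => g y j m) x) (pd j (fun y => g y i m) x)
    linarith
  have h7 : |∑ m, (g x)⁻¹ l m * (pd i (fun y => g y j m) x + pd j (fun y => g y i m) x - pd m (fun y => g y i j) x)| ≤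
      3 * (2 * (3 * D)) := sum3_le fun m => mul_bd (hi _ _) (h1 m)
  rw [abs_mul, abs_of_pos (by norm_num : (0:ℝ) < 1 / 2)]
  linarith

end UMB
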