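import Pool.Agent.Lib.UMB.SS.Mat
import Pool.Agent.Lib.UMB.SS.Defs

set_option autoImplicit false

/-!
# UMB section S: pointwise consequences of `OneSign`
-/

open Filter Topology Set MeasureTheory Matrix
open scoped ContDiff

namespace UMB

open Pool.Agent.Lib.PenroseSph (E3 Tens pd trg energy momNorm trLevel meanCurv gradNorm normal normSqg momentum divg chr)
open SSM

/-- The tensor `σ (τ g - h)`, `τ = tr h`. -/
noncomputable def PT (g h : Tens) (σ : ℝ) (x : E3) : Matrix (Fin 3) (Fin 3) ℝ := σ • (trg g h x • g x - h x)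

variable {g h : Tens} {x : E3} {σ : ℝ}

theorem quad_eq (h : Tens) (x : E3) (v : Fin 3 → ℝ) : quad h x v = qf (h x) v := rfl

theorem isUnit_det (hgs : (g x).IsSymm) (hgp : ∀ v : Fin 3 → ℝ, v ≠ 0 → 0 < quad g x v) : IsUnit (g x).det :=
  (isUnit_iff_isUnit_det _).1 (posDef hgs hgp).isUnit

theorem qf_PT (g h : Tens) (σ : ℝ) (x : E3) (v : Fin 3 → ℝ) :
    qf (PT g h σ x) v = σ * (trg g h x * quad g x v - quad h x v) := by
  simp only [PT, quad_eq, qf, Matrix.smul_apply, Matrix.sub_apply, smul_eq_mul, Fin.sum_univ_three]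
  ring

theorem tr_g (hd : IsUnit (g x).det) (hgs : (g x).IsSymm) : ∑ i, ∑ j, (g x)⁻¹ i j * g x i j = 3 := by
  have h1 : (g x)⁻¹ * g x = 1 := nonsing_inv_mul _ hd
  have h2 : ∀ i j, g x i j = g x j i := fun i j => by rw [← hgs.apply]
  calc ∑ i, ∑ j, (g x)⁻¹ i j * g x i j = ∑ i, ((g x)⁻¹ * g x) i i := by
        simp only [Matrix.mul_apply]
        exact Finset.sum_congr rfl fun i _ => Finset.sum_congr rfl fun j _ => by rw [h2 i j]
    _ = 3 := by rw [h1]; simp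

theorem tr_PT (hd : IsUnit (g x).det) (hgs : (g x).IsSymm) (σ : ℝ) :
    ∑ i, ∑ j, (g x)⁻¹ i j * PT g h σ x i j = 2 * (σ * trg g h x) := by
  have h1 := tr_g hd hgs
  have h2 : ∑ i, ∑ j, (g x)⁻¹ i j * PT g h σ x i j =
      σ * (trg g h x * ∑ i, ∑ j, (g x)⁻¹ i j * g x i j - ∑ i, ∑ j, (g x)⁻¹ i j * h x i j) := by
    simp only [PT, Matrix.smul_apply, Matrix.sub_apply, smul_eq_mul, Fin.sum_univ_three]
    ring
  rw [h2, h1]
  have h3 : ∑ i, ∑ j, (g x)⁻¹ i j * h x i j = trg g h x := rfl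
  rw [h3]
  ring

theorem PT_symm (hgs : (g x).IsSymm) (hhs : (h x).IsSymm) (σ : ℝ) : (PT g h σ x).IsSymm :=
  ((hgs.smul _).sub hhs).smul _

/-- The sign. -/
theorem OneSign.exists_sign (hO : OneSign g h x) (hgs : (g x).IsSymm)
    (hgp : ∀ v : Fin 3 → ℝ, v ≠ 0 → 0 < quad g x v) :
    ∃ σ : ℝ, (σ = 1 ∨ σ = -1) ∧ |trg g h x| = σ * trg g h x ∧ ∀ v, 0 ≤ qf (PT g h σ x) v := by
  obtain ⟨e, he⟩ := exists_frame hgs hgp
  have hd := isUnit_det hgs hgp
  have key : ∀ σ : ℝ, (∀ v, 0 ≤ qf (PT g h σ x) v) → 0 ≤ σ * trg g h x := by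
    intro σ h1
    have h2 := tr_PT (h := h) hd hgs σ
    rw [he.tr] at h2
    have h3 : 0 ≤ ∑ a, qf (PT g h σ x) (e a) := Finset.sum_nonneg fun a _ => h1 _
    linarith
  rcases hO with h1 | h1
  · have h2 : ∀ v, 0 ≤ qf (PT g h 1 x) v := fun v => by rw [qf_PT, one_mul]; exact h1 v
    refine ⟨1, Or.inl rfl, ?_, h2⟩
    have h3 := key 1 h2
    rw [one_mul] at h3 ⊢
    exact abs_of_nonneg h3
  · have h2 : ∀ v, 0 ≤ qf (PT g h (-1) x) v := fun v => by rw [qf_PT]; have := h1 v; linarith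
    refine ⟨-1, Or.inr rfl, ?_, h2⟩
    have h3 := key (-1) h2
    rw [abs_of_nonpos (by linarith)]
    ring

theorem trg_smul (g h : Tens) (c : ℝ) (x : E3) : ∑ i, ∑ j, (g x)⁻¹ i j * (c • h x) i j = c * trg g h x := by
  unfold trg
  simp only [Matrix.smul_apply, smul_eq_mul, Fin.sum_univ_three]
  ring

/-- The unit normal of a level set has length one. -/
theorem quad_normal (hgs : (g x).IsSymm) (hgp : ∀ v : Fin 3 → ℝ, v ≠ 0 → 0 < quad g x v) {w : E3 → ℝ}
    (hw : ∃ i, pd i w x ≠ 0) : quad g x (fun i => normal g w i x) = 1 := by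
  obtain ⟨e, he⟩ := exists_frame hgs hgp
  have hd := isUnit_det hgs hgp
  have h1 : (g x) * (g x)⁻¹ = 1 := mul_nonsing_inv _ hd
  set α : Fin 3 → ℝ := fun i => pd i w x with hα
  set S : ℝ := ∑ i, ∑ j, (g x)⁻¹ i j * α i * α j with hS
  have hcov := he.cov α
  have hSpos : 0 < S := by
    rw [hS, hcov]
    by_contra hneg
    have h0 : ∑ a, (∑ i, α i * e a i) ^ 2 = 0 :=
      le_antisymm (not_lt.1 hneg) (Finset.sum_nonneg fun a _ => sq_nonneg _)
    have h2 : ∀ a, ∑ i, α i * e a i = 0 := by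
      intro a
      have := (Finset.sum_eq_zero_iff_of_nonneg (fun a _ => sq_nonneg _)).1 h0 a (Finset.mem_univ _)
      exact pow_eq_zero_iff (two_ne_zero) |>.1 this
    have h3 : ∀ j, ∑ i, α i * (g x)⁻¹ i j = 0 := by
      intro j
      have : ∑ i, α i * (g x)⁻¹ i j = ∑ a, (∑ i, α i * e a i) * e a j := by
        simp only [← he.inv, Fin.sum_univ_three]; ring
      rw [this]
      exact Finset.sum_eq_zero fun a _ => by rw [h2 a, zero_mul]
    obtain ⟨i, hi⟩ := hw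
    apply hi
    have h4 : (g x)⁻¹ * (g x) = 1 := nonsing_inv_mul _ hd
    have h5 : α i = ∑ k, α k * ((g x)⁻¹ * (g x)) k i := by rw [h4]; simp [Matrix.one_apply]
    have h6 : ∑ k, α k * ((g x)⁻¹ * (g x)) k i = ∑ j, (∑ k, α k * (g x)⁻¹ k j) * g x j i := by
      simp only [Matrix.mul_apply, Fin.sum_univ_three]; ring
    rw [h6] at h5
    rw [show pd i w x = α i from rfl, h5]
    exact Finset.sum_eq_zero fun j _ => by rw [h3 j, zero_mul]
  have hG : gradNorm g w x = Real.sqrt S := rfl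
  have hGpos : 0 < gradNorm g w x := by rw [hG]; exact Real.sqrt_pos.2 hSpos
  have hGsq : gradNorm g w x ^ 2 = S := by rw [hG, Real.sq_sqrt hSpos.le]
  have hsymI : ∀ i j, (g x)⁻¹ i j = (g x)⁻¹ j i := by
    intro i j
    rw [← he.inv, ← he.inv]
    exact Finset.sum_congr rfl fun a _ => mul_comm _ _
  have h7 : quad g x (fun i => normal g w i x) =
      (∑ i, ∑ j, g x i j * (∑ k, (g x)⁻¹ i k * α k) * (∑ l, (g x)⁻¹ j l * α l)) / (gradNorm g w x) ^ 2 := by
    have hn : ∀ i, normal g w i x = (∑ k, (g x)⁻¹ i k * α k) * (gradNorm g w x)⁻¹ := fun i => rfl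
    rw [div_eq_mul_inv, ← inv_pow]
    simp only [quad, hn, Fin.sum_univ_three]
    ring
  rw [h7, hGsq]
  have h8 : ∑ i, ∑ j, g x i j * (∑ k, (g x)⁻¹ i k * α k) * (∑ l, (g x)⁻¹ j l * α l) =
      ∑ i, ∑ l, (∑ j, g x i j * (g x)⁻¹ j l) * α l * (∑ k, (g x)⁻¹ i k * α k) := by
    simp only [Fin.sum_univ_three]; ring
  have h9 : ∀ i l, ∑ j, g x i j * (g x)⁻¹ j l = if i = l then 1 else 0 := by
    intro i l
    rw [← Matrix.mul_apply, h1, Matrix.one_apply]
  rw [h8]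
  simp only [h9]
  have h10 : ∑ i, ∑ l, (if i = l then (1:ℝ) else 0) * α l * (∑ k, (g x)⁻¹ i k * α k) = S := by
    rw [hS]
    simp only [Fin.sum_univ_three]
    simp
    ring
  rw [h10, div_self hSpos.ne']

theorem trLevel_eq (w : E3 → ℝ) : trLevel g h w x = trg g h x - quad h x (fun i => normal g w i x) := by
  simp only [trLevel, trg, quad, Fin.sum_univ_three]
  ring

theorem abs_trLevel (hgs : (g x).IsSymm) (hgp : ∀ v : Fin 3 → ℝ, v ≠ 0 → 0 < quad g x v) {w : E3 → ℝ}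
    (hw : ∃ i, pd i w x ≠ 0) (hσ : σ = 1 ∨ σ = -1) (hP : ∀ v, 0 ≤ qf (PT g h σ x) v) :
    |trLevel g h w x| = qf (PT g h σ x) (fun i => normal g w i x) := by
  have h1 : qf (PT g h σ x) (fun i => normal g w i x) = σ * trLevel g h w x := by
    rw [qf_PT, trLevel_eq, quad_normal hgs hgp hw, mul_one]
  have h2 := hP (fun i => normal g w i x)
  rw [h1] at h2 ⊢
  rcases hσ with rfl | rfl
  · rw [one_mul] at h2 ⊢; exact abs_of_nonneg h2
  · rw [abs_of_nonpos (by linarith)]; ring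

theorem abs_trLevel_le (hgs : (g x).IsSymm) (hhs : (h x).IsSymm) (hgp : ∀ v : Fin 3 → ℝ, v ≠ 0 → 0 < quad g x v)
    (hO : OneSign g h x) {w : E3 → ℝ} (hw : ∃ i, pd i w x ≠ 0) : |trLevel g h w x| ≤ 2 * |trg g h x| := by
  obtain ⟨σ, hσ, hab, hP⟩ := hO.exists_sign hgs hgp
  obtain ⟨e, he⟩ := exists_frame hgs hgp
  have hd := isUnit_det hgs hgp
  rw [abs_trLevel hgs hgp hw hσ hP]
  have h1 := qf_le he hd (PT_symm hgs hhs σ) hP (fun i => normal g w i x)
  rw [tr_PT hd hgs, ← quad_eq g x, quad_normal hgs hgp hw, ← hab, mul_one] at h1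
  exact h1

/-- The coordinates of the gradient of the norm. -/
theorem pd_norm_ne (hx : x ≠ 0) : ∃ i, pd i (fun y : E3 => ‖y‖) x ≠ 0 := by
  by_contra hcon
  push Not at hcon
  have h1 : HasFDerivAt (fun y : E3 => ‖y‖) (fderiv ℝ (fun y : E3 => ‖y‖) x) x :=
    (differentiableAt_id.norm ℝ hx).hasFDerivAt
  have h2 : HasDerivAt (fun t : ℝ => ‖x + t • x‖) ((fderiv ℝ (fun y : E3 => ‖y‖) x) x) 0 := by
    have h3 : HasDerivAt (fun t : ℝ => x + t • x) x 0 := by
      have := ((hasDerivAt_id (0:ℝ)).smul_const x).const_add x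
      simpa using this
    have h4 : HasFDerivAt (fun y : E3 => ‖y‖) (fderiv ℝ (fun y : E3 => ‖y‖) x) (x + (0:ℝ) • x) := by simpa using h1
    exact h4.comp_hasDerivAt 0 h3
  have h5 : HasDerivAt (fun t : ℝ => ‖x + t • x‖) ‖x‖ 0 := by
    have h6 : HasDerivAt (fun t : ℝ => (1 + t) * ‖x‖) ‖x‖ 0 := by
      have := ((hasDerivAt_id (0:ℝ)).const_add 1).mul_const ‖x‖
      simpa using this
    refine h6.congr_of_eventuallyEq ?_
    filter_upwards [Ioi_mem_nhds (show (-1:ℝ) < 0 by norm_num)] with t ht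
    have ht' : -1 < t := ht
    have : x + t • x = (1 + t) • x := by rw [add_smul, one_smul]
    rw [this, norm_smul, Real.norm_of_nonneg (by linarith)]
  have h7 : (fderiv ℝ (fun y : E3 => ‖y‖) x) x = ‖x‖ := h2.unique h5
  have h8 : x = ∑ i, x i • EuclideanSpace.single i (1:ℝ) := by
    ext j
    simp [Fin.sum_univ_three]
    fin_cases j <;> simp
  have h9 : (fderiv ℝ (fun y : E3 => ‖y‖) x) x = 0 := by
    conv_lhs => rw [h8]
    rw [map_sum]
    refine Finset.sum_eq_zero fun i _ => ?_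
    rw [map_smul]
    have := hcon i
    unfold pd at this
    rw [← h8, this, smul_zero]
  rw [h9] at h7
  exact hx (norm_eq_zero.1 h7.symm)

theorem abs_sphTr_le (hgs : (g x).IsSymm) (hhs : (h x).IsSymm) (hgp : ∀ v : Fin 3 → ℝ, v ≠ 0 → 0 < quad g x v)
    (hO : OneSign g h x) (hx : x ≠ 0) : |sphTr g h x| ≤ 2 * |trg g h x| :=
  abs_trLevel_le hgs hhs hgp hO (pd_norm_ne hx)

end UMB
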