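import Pool.Agent.Lib.UMB.SS.Smooth

set_option autoImplicit false

/-!
# UMB section S: the reduction, pointwise part
-/

open Filter Topology Set MeasureTheory Matrix
open scoped ContDiff

namespace UMB

open Pool.Agent.Lib.PenroseSph (E3 Tens pd trg energy momNorm trLevel meanCurv gradNorm normal normSqg momentum divg chr)
open SSM

variable {g h : Tens} {a s : ℝ} {x : E3}

theorem rad_pos (hs : 0 < s) (t : ℝ) : 0 < t ^ 2 + s ^ 2 := by positivity

theorem abs_psi_le (hs : 0 < s) (t : ℝ) : |psi s t| ≤ 1 := by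
  unfold psi
  have h1 := rad_pos hs t
  rw [abs_div, abs_of_pos (Real.sqrt_pos.2 h1), div_le_one (Real.sqrt_pos.2 h1)]
  apply Real.abs_le_sqrt
  nlinarith [sq_nonneg s]

theorem psi_mul_nonneg (hs : 0 < s) {t σ : ℝ} (hσ : |t| = σ * t) : 0 ≤ psi s t * σ := by
  unfold psi
  have h1 := rad_pos hs t
  rw [div_mul_eq_mul_div, mul_comm t σ, ← hσ]
  positivity

theorem dpsi_nonneg (hs : 0 < s) (t : ℝ) : 0 ≤ dpsi s t := by
  unfold dpsi
  have h1 := rad_pos hs t
  positivity

theorem hasDerivAt_psi (hs : 0 < s) (t : ℝ) : HasDerivAt (psi s) (dpsi s t) t := by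
  have h1 := rad_pos hs t
  have h2 : HasDerivAt (fun t : ℝ => t ^ 2 + s ^ 2) (2 * t) t := by
    have := (hasDerivAt_pow 2 t).add_const (s ^ 2)
    simpa using this
  have h3 := h2.sqrt h1.ne'
  have h4 := (hasDerivAt_id t).div h3 (Real.sqrt_pos.2 h1).ne'
  refine h4.congr_deriv ?_
  unfold dpsi
  have h5 := Real.sq_sqrt h1.le
  have h6 := Real.sqrt_pos.2 h1
  simp only [id]
  set r := Real.sqrt (t ^ 2 + s ^ 2) with hr
  rw [← h5]
  field_simp
  nlinarith

theorem contDiff_psi (hs : 0 < s) : ContDiff ℝ ∞ (psi s) := by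
  unfold psi
  have h0 : ContDiff ℝ ∞ (fun t : ℝ => t ^ 2 + s ^ 2) := by fun_prop
  have h1 : ContDiff ℝ ∞ (fun t : ℝ => Real.sqrt (t ^ 2 + s ^ 2)) := by
    rw [contDiff_iff_contDiffAt]
    intro t
    exact (h0.contDiffAt).sqrt (rad_pos hs t).ne'
  exact contDiff_id.div h1 fun t => (Real.sqrt_pos.2 (rad_pos hs t)).ne'

theorem psi_self (hs : 0 < s) (t : ℝ) : 0 ≤ psi s t * t := by
  unfold psi
  have h1 := rad_pos hs t
  rw [div_mul_eq_mul_div, ← sq]
  positivity

/-- `(1 - ψ²) t² ≤ s²`. -/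
theorem psi_sq_bound (hs : 0 < s) (t : ℝ) : (1 - psi s t ^ 2) * t ^ 2 ≤ s ^ 2 := by
  unfold psi
  have h1 := rad_pos hs t
  rw [div_pow, Real.sq_sqrt h1.le, one_sub_div h1.ne', div_mul_eq_mul_div, div_le_iff₀ h1]
  nlinarith [sq_nonneg t, sq_nonneg s, mul_nonneg (sq_nonneg s) (sq_nonneg s)]

/-- `(1 - |ψ|) |t| ≤ s`. -/
theorem psi_abs_bound (hs : 0 < s) (t : ℝ) : (1 - |psi s t|) * |t| ≤ s := by
  unfold psi
  have h1 := rad_pos hs t
  have h6 := Real.sqrt_pos.2 h1
  have h7 : |t| ≤ Real.sqrt (t ^ 2 + s ^ 2) := by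
    apply Real.abs_le_sqrt
    nlinarith [sq_nonneg s]
  have h8 : Real.sqrt (t ^ 2 + s ^ 2) ≤ |t| + s := by
    rw [Real.sqrt_le_left (by positivity)]
    nlinarith [sq_abs t, abs_nonneg t]
  rw [abs_div, abs_of_pos h6, one_sub_div h6.ne', div_mul_eq_mul_div, div_le_iff₀ h6]
  nlinarith [abs_nonneg t]

theorem trg_kS : trg g (kS g h s) x = psi s (trg g h x) * trg g h x := by
  rw [← trg_smul]
  rfl

theorem quad_kS (v : Fin 3 → ℝ) : quad (kS g h s) x v = psi s (trg g h x) * quad h x v := by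
  simp only [quad, kS, Matrix.smul_apply, smul_eq_mul, Fin.sum_univ_three]
  ring

theorem normSqg_kS : normSqg g (kS g h s) x = psi s (trg g h x) ^ 2 * normSqg g h x := by
  unfold normSqg kS
  simp only [Matrix.smul_apply, smul_eq_mul, Finset.mul_sum]
  refine Finset.sum_congr rfl fun i _ => Finset.sum_congr rfl fun j _ => Finset.sum_congr rfl fun k _ =>
    Finset.sum_congr rfl fun l _ => ?_
  ring

theorem trLevel_kS (w : E3 → ℝ) : trLevel g (kS g h s) w x = psi s (trg g h x) * trLevel g h w x := by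
  unfold trLevel kS
  simp only [Matrix.smul_apply, smul_eq_mul, Finset.mul_sum]
  exact Finset.sum_congr rfl fun i _ => Finset.sum_congr rfl fun j _ => by ring

theorem sphTr_kS : sphTr g (kS g h s) x = psi s (trg g h x) * sphTr g h x := trLevel_kS _

theorem two_kS (hs : 0 < s) (hO : OneSign g h x) (hgs : (g x).IsSymm)
    (hgp : ∀ v : Fin 3 → ℝ, v ≠ 0 → 0 < quad g x v) : TwoNonneg g (kS g h s) x := by
  obtain ⟨σ, hσ, hab, hP⟩ := hO.exists_sign hgs hgp
  intro v
  have h1 := hP v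
  rw [qf_PT] at h1
  have h2 := mul_nonneg (psi_mul_nonneg hs hab) h1
  rw [trg_kS, quad_kS]
  have h3 : σ * σ = 1 := by rcases hσ with rfl | rfl <;> norm_num
  have h4 : psi s (trg g h x) * σ * (σ * (trg g h x * quad g x v - quad h x v)) =
      (σ * σ) * (psi s (trg g h x) * trg g h x * quad g x v - psi s (trg g h x) * quad h x v) := by ring
  rw [h4, h3, one_mul] at h2
  exact h2

theorem sphTr_kS_abs (hs : 0 < s) (hO : OneSign g h x) (hgs : (g x).IsSymm) (hhs : (h x).IsSymm)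
    (hgp : ∀ v : Fin 3 → ℝ, v ≠ 0 → 0 < quad g x v) (hx : x ≠ 0) :
    |sphTr g h x| ≤ sphTr g (kS g h s) x + 2 * s := by
  obtain ⟨σ, hσ, hab, hP⟩ := hO.exists_sign hgs hgp
  have h1 : |sphTr g h x| = σ * sphTr g h x := by
    have h2 := abs_trLevel hgs hgp (pd_norm_ne hx) hσ hP
    have h3 : qf (PT g h σ x) (fun i => normal g (fun y => ‖y‖) i x) = σ * trLevel g h (fun y => ‖y‖) x := by
      rw [qf_PT, trLevel_eq, quad_normal hgs hgp (pd_norm_ne hx), mul_one]
    rw [h3] at h2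
    exact h2
  have h4 : σ * σ = 1 := by rcases hσ with rfl | rfl <;> norm_num
  have h5 : psi s (trg g h x) * σ = |psi s (trg g h x)| := by
    have h6 := psi_mul_nonneg hs hab
    rcases hσ with rfl | rfl
    · rw [mul_one] at h6 ⊢; rw [abs_of_nonneg h6]
    · rw [abs_of_nonpos (by linarith)]; ring
  have h7 : sphTr g (kS g h s) x = |psi s (trg g h x)| * |sphTr g h x| := by
    rw [sphTr_kS, ← h5, h1]
    calc psi s (trg g h x) * sphTr g h x = psi s (trg g h x) * (σ * σ) * sphTr g h x := by rw [h4]; ring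
      _ = _ := by ring
  have h8 := abs_sphTr_le hgs hhs hgp hO hx
  have h9 := psi_abs_bound hs (trg g h x)
  have h10 := abs_psi_le hs (trg g h x)
  rw [h7]
  have h11 : (1 - |psi s (trg g h x)|) * |sphTr g h x| ≤ (1 - |psi s (trg g h x)|) * (2 * |trg g h x|) :=
    mul_le_mul_of_nonneg_left h8 (by linarith)
  nlinarith

theorem kS_abs_le (hs : 0 < s) (i j : Fin 3) : |kS g h s x i j| ≤ |h x i j| := by
  unfold kS
  rw [Matrix.smul_apply, smul_eq_mul, abs_mul]
  have := abs_psi_le hs (trg g h x)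
  nlinarith [abs_nonneg (h x i j)]

theorem kS_smooth (hs : 0 < s) (hg : SmM g a) (hh : SmT h a) : SmT (kS g h s) a := by
  intro i j x hx
  apply ContDiffAt.contDiffWithinAt
  unfold kS
  simp only [Matrix.smul_apply, smul_eq_mul]
  exact ((contDiff_psi hs).contDiffAt.comp x (hg.trg_at hh hx)).mul (hh.at hx i j)

/-- The gradient of `ψ_s(tr h)`. -/
theorem pd_psi (hs : 0 < s) (hg : SmM g a) (hh : SmT h a) (hx : a < ‖x‖) (k : Fin 3) :
    pd k (fun y => psi s (trg g h y)) x = dpsi s (trg g h x) * pd k (trg g h) x := by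
  unfold pd
  have h1 : HasFDerivAt (trg g h) (fderiv ℝ (trg g h) x) x :=
    ((hg.trg_at hh hx).differentiableAt (by simp)).hasFDerivAt
  have h2 : HasFDerivAt (fun y => psi s (trg g h y)) (dpsi s (trg g h x) • fderiv ℝ (trg g h) x) x :=
    (hasDerivAt_psi hs (trg g h x)).comp_hasFDerivAt x h1
  rw [h2.fderiv]
  rfl

theorem pd_mul' {f1 f2 : E3 → ℝ} (h1 : DifferentiableAt ℝ f1 x) (h2 : DifferentiableAt ℝ f2 x) (k : Fin 3) :
    pd k (fun y => f1 y * f2 y) x = f1 x * pd k f2 x + pd k f1 x * f2 x := by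
  unfold pd
  rw [fderiv_fun_mul h1 h2]
  simp
  ring

/-- Product rule for the divergence. -/
theorem divg_smul {p : Tens} {f : E3 → ℝ} (hf : DifferentiableAt ℝ f x) (hp : ∀ k j, DifferentiableAt ℝ (fun y => p y k j) x)
    (j : Fin 3) : divg g (fun y => f y • p y) j x =
      f x * divg g p j x + ∑ k, p x k j * ∑ i, (g x)⁻¹ i k * pd i f x := by
  have hpd : ∀ i k, pd i (fun y => (f y • p y) k j) x = f x * pd i (fun y => p y k j) x + pd i f x * p x k j := by
    intro i k
    have e : (fun y => (f y • p y) k j) = fun y => f y * p y k j := funext fun y => rfl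
    rw [e, pd_mul' hf (hp k j)]
  have hsm : ∀ k j, (f x • p x) k j = f x * p x k j := fun k j => rfl
  unfold divg
  simp only [hpd, hsm]
  have e1 : ∀ i k, (g x)⁻¹ i k * (f x * pd i (fun y => p y k j) x + pd i f x * p x k j -
      ∑ l, chr g l i k x * (f x * p x l j) - ∑ l, chr g l i j x * (f x * p x k l)) =
      f x * ((g x)⁻¹ i k * (pd i (fun y => p y k j) x - ∑ l, chr g l i k x * p x l j - ∑ l, chr g l i j x * p x k l)) +
        p x k j * ((g x)⁻¹ i k * pd i f x) := by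
    intro i k
    have e2 : ∑ l, chr g l i k x * (f x * p x l j) = f x * ∑ l, chr g l i k x * p x l j := by
      rw [Finset.mul_sum]; exact Finset.sum_congr rfl fun l _ => by ring
    have e3 : ∑ l, chr g l i j x * (f x * p x k l) = f x * ∑ l, chr g l i j x * p x k l := by
      rw [Finset.mul_sum]; exact Finset.sum_congr rfl fun l _ => by ring
    rw [e2, e3]
    ring
  simp only [e1, Finset.sum_add_distrib, ← Finset.mul_sum]
  congr 1
  rw [Finset.sum_comm]
  exact Finset.sum_congr rfl fun k _ => by rw [← Finset.mul_sum]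

/-- The momentum tensor `h - (tr h) g`. -/
noncomputable def mom0 (g h : Tens) : Tens := fun y => h y - trg g h y • g y

theorem momentum_eq (j : Fin 3) : momentum g h j x = divg g (mom0 g h) j x := rfl

theorem mom0_apply (k j : Fin 3) : mom0 g h x k j = h x k j - trg g h x * g x k j := rfl

/-- Momentum density of the reduction tensor. -/
theorem momentum_kS (hs : 0 < s) (hg : SmM g a) (hh : SmT h a) (hx : a < ‖x‖) (j : Fin 3) :
    momentum g (kS g h s) j x = psi s (trg g h x) * momentum g h j x -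
      dpsi s (trg g h x) * ∑ k, PT g h 1 x k j * ∑ i, (g x)⁻¹ i k * pd i (trg g h) x := by
  have hp : ∀ k j, DifferentiableAt ℝ (fun y => mom0 g h y k j) x := by
    intro k j
    have : ContDiffAt ℝ ∞ (fun y => mom0 g h y k j) x := by
      simp only [mom0_apply]
      exact (hh.at hx k j).sub ((hg.trg_at hh hx).mul (hg.sm.at hx k j))
    exact this.differentiableAt (by simp)
  have hf : DifferentiableAt ℝ (fun y => psi s (trg g h y)) x :=
    ((contDiff_psi hs).contDiffAt.comp x (hg.trg_at hh hx)).differentiableAt (by simp)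
  have e0 : mom0 g (kS g h s) = fun y => psi s (trg g h y) • mom0 g h y := by
    funext y
    ext k j
    rw [mom0_apply, trg_kS]
    simp only [kS, Matrix.smul_apply, smul_eq_mul, mom0_apply]
    ring
  rw [momentum_eq, e0, divg_smul hf hp, sub_eq_add_neg, momentum_eq]
  congr 1
  rw [Finset.mul_sum, ← Finset.sum_neg_distrib]
  refine Finset.sum_congr rfl fun k _ => ?_
  have e2 : ∑ i, (g x)⁻¹ i k * pd i (fun y => psi s (trg g h y)) x =
      dpsi s (trg g h x) * ∑ i, (g x)⁻¹ i k * pd i (trg g h) x := by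
    rw [Finset.mul_sum]
    exact Finset.sum_congr rfl fun i _ => by rw [pd_psi hs hg hh hx]; ring
  rw [e2, mom0_apply]
  simp only [PT, Matrix.smul_apply, Matrix.sub_apply, smul_eq_mul]
  ring

/-- The norm of covectors. -/
noncomputable def cnorm (g : Tens) (x : E3) (α : Fin 3 → ℝ) : ℝ := Real.sqrt (∑ i, ∑ j, (g x)⁻¹ i j * α i * α j)

theorem cnorm_frame {e : Fin 3 → Fin 3 → ℝ} (he : Frame (g x) e) (α : Fin 3 → ℝ) :
    cnorm g x α = ‖(WithLp.toLp 2 (fun a => ∑ i, α i * e a i) : EuclideanSpace ℝ (Fin 3))‖ := by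
  rw [cnorm, he.cov, EuclideanSpace.norm_eq]
  congr 1
  exact Finset.sum_congr rfl fun a _ => by rw [Real.norm_eq_abs, sq_abs]

theorem cnorm_sub_le (hgs : (g x).IsSymm) (hgp : ∀ v : Fin 3 → ℝ, v ≠ 0 → 0 < quad g x v) (c d : ℝ) (α β : Fin 3 → ℝ) :
    cnorm g x (fun i => c * α i - d * β i) ≤ |c| * cnorm g x α + |d| * cnorm g x β := by
  obtain ⟨e, he⟩ := exists_frame hgs hgp
  rw [cnorm_frame he, cnorm_frame he, cnorm_frame he, ← Real.norm_eq_abs, ← Real.norm_eq_abs, ← norm_smul, ← norm_smul]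
  refine le_of_eq_of_le ?_ (norm_sub_le _ _)
  congr 1
  ext a
  simp only [PiLp.sub_apply, PiLp.smul_apply, smul_eq_mul, Fin.sum_univ_three]
  ring

theorem gradNorm_eq (w : E3 → ℝ) : gradNorm g w x = cnorm g x (fun i => pd i w x) := rfl

theorem momNorm_eq : momNorm g h x = cnorm g x (fun i => momentum g h i x) := rfl

theorem inv_symm (hgs : (g x).IsSymm) (i j : Fin 3) : (g x)⁻¹ i j = (g x)⁻¹ j i := by
  have : ((g x)⁻¹).IsSymm := by
    rw [Matrix.IsSymm, transpose_nonsing_inv, hgs]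
  rw [← this.apply]

/-- The length of the gradient vector. -/
theorem quad_grad (hgs : (g x).IsSymm) (hgp : ∀ v : Fin 3 → ℝ, v ≠ 0 → 0 < quad g x v) (α : Fin 3 → ℝ) :
    quad g x (fun k => ∑ i, (g x)⁻¹ i k * α i) = ∑ i, ∑ j, (g x)⁻¹ i j * α i * α j := by
  have hd := isUnit_det hgs hgp
  have h1 : (g x) * (g x)⁻¹ = 1 := mul_nonsing_inv _ hd
  have h9 : ∀ i l, ∑ j, g x i j * (g x)⁻¹ j l = if i = l then 1 else 0 := by
    intro i l
    rw [← Matrix.mul_apply, h1, Matrix.one_apply]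
  have h8 : quad g x (fun k => ∑ i, (g x)⁻¹ i k * α i) =
      ∑ i, ∑ l, (∑ j, g x i j * (g x)⁻¹ j l) * α l * (∑ k, (g x)⁻¹ k i * α k) := by
    simp only [quad, Fin.sum_univ_three]
    rw [inv_symm hgs 1 0, inv_symm hgs 2 0, inv_symm hgs 2 1]
    ring
  rw [h8]
  simp only [h9, Fin.sum_univ_three]
  simp
  ring

/-- `|J(k_s)| ≤ |ψ| |J(h)| + 2 |τ| ψ' |dτ|`. -/
theorem momNorm_kS (hs : 0 < s) (hg : SmM g a) (hh : SmT h a) (hx : a < ‖x‖) (hhs : (h x).IsSymm)
    (hO : OneSign g h x) :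
    momNorm g (kS g h s) x ≤ |psi s (trg g h x)| * momNorm g h x +
      2 * |trg g h x| * dpsi s (trg g h x) * gradNorm g (trg g h) x := by
  have hgs := hg.symm x hx
  have hgp := hg.pos x hx
  obtain ⟨σ, hσ, hab, hP⟩ := hO.exists_sign hgs hgp
  obtain ⟨e, he⟩ := exists_frame hgs hgp
  have hd := isUnit_det hgs hgp
  set X : Fin 3 → ℝ := fun k => ∑ i, (g x)⁻¹ i k * pd i (trg g h) x with hX
  have e1 : (fun j => momentum g (kS g h s) j x) = fun j => psi s (trg g h x) * momentum g h j x -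
      dpsi s (trg g h x) * ∑ k, PT g h 1 x k j * X k := funext fun j => momentum_kS hs hg hh hx j
  rw [momNorm_eq, e1]
  refine (cnorm_sub_le hgs hgp _ _ _ _).trans ?_
  rw [← momNorm_eq, abs_of_nonneg (dpsi_nonneg hs _)]
  have h1 : cnorm g x (fun j => ∑ k, PT g h 1 x k j * X k) ≤ 2 * |trg g h x| * gradNorm g (trg g h) x := by
    have h2 := cov_le he hd (PT_symm hgs hhs σ) hP X
    rw [tr_PT hd hgs, ← hab] at h2
    have h3 : qf (g x) X = ∑ i, ∑ j, (g x)⁻¹ i j * pd i (trg g h) x * pd j (trg g h) x := quad_grad hgs hgp _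
    have h4 : ∑ i, ∑ j, (g x)⁻¹ i j * (∑ k, PT g h σ x k i * X k) * (∑ k, PT g h σ x k j * X k) =
        ∑ i, ∑ j, (g x)⁻¹ i j * (∑ k, PT g h 1 x k i * X k) * (∑ k, PT g h 1 x k j * X k) := by
      refine Finset.sum_congr rfl fun i _ => Finset.sum_congr rfl fun j _ => ?_
      rcases hσ with rfl | rfl
      · rfl
      · have e2 : ∀ i, ∑ k, PT g h (-1) x k i * X k = - ∑ k, PT g h 1 x k i * X k := by
          intro i
          rw [← Finset.sum_neg_distrib]
          refine Finset.sum_congr rfl fun k _ => ?_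
          simp only [PT, Matrix.smul_apply, Matrix.sub_apply, smul_eq_mul]
          ring
        rw [e2, e2]
        ring
    rw [h4, h3] at h2
    unfold cnorm gradNorm
    have h5 : 0 ≤ 2 * |trg g h x| := by positivity
    calc Real.sqrt (∑ i, ∑ j, (g x)⁻¹ i j * (∑ k, PT g h 1 x k i * X k) * (∑ k, PT g h 1 x k j * X k))
        ≤ Real.sqrt ((2 * |trg g h x|) ^ 2 * ∑ i, ∑ j, (g x)⁻¹ i j * pd i (trg g h) x * pd j (trg g h) x) :=
          Real.sqrt_le_sqrt h2
      _ = _ := by rw [Real.sqrt_mul (by positivity), Real.sqrt_sq h5]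
  have h6 := mul_le_mul_of_nonneg_left h1 (dpsi_nonneg hs (trg g h x))
  linarith

/-- The energy condition with error. -/
theorem dec_kS (hs : 0 < s) (hg : SmM g a) (hh : SmT h a) (hx : a < ‖x‖) (hhs : (h x).IsSymm)
    (hO : OneSign g h x) (hdec : momNorm g h x ≤ energy g h x) :
    momNorm g (kS g h s) x ≤ energy g (kS g h s) x + etaS g h s x := by
  have h1 := momNorm_kS hs hg hh hx hhs hO
  have hgs := hg.symm x hx
  have hgp := hg.pos x hx
  obtain ⟨e, he⟩ := exists_frame hgs hgp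
  have hn : 0 ≤ normSqg g h x := he.sq_nonneg _
  have hJ : 0 ≤ momNorm g h x := Real.sqrt_nonneg _
  have h2 := abs_psi_le hs (trg g h x)
  have h3 := psi_sq_bound hs (trg g h x)
  have h4 : |psi s (trg g h x)| ^ 2 = psi s (trg g h x) ^ 2 := sq_abs _
  have h5 : 0 ≤ 1 - psi s (trg g h x) ^ 2 := by
    rw [← h4]
    nlinarith [abs_nonneg (psi s (trg g h x))]
  unfold energy at hdec ⊢
  unfold etaS
  rw [normSqg_kS, trg_kS]
  have h6 := mul_nonneg h5 hn
  have h7 : |psi s (trg g h x)| * momNorm g h x ≤ momNorm g h x := by nlinarith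
  nlinarith

end UMB
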