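import Pool.Agent.Lib.UMB.SS.Ptw

set_option autoImplicit false

/-!
# UMB section S: smoothness of the inverse metric, the trace, products
-/

open Filter Topology Set MeasureTheory Matrix
open scoped ContDiff

namespace UMB

open Pool.Agent.Lib.PenroseSph (E3 Tens pd trg energy momNorm trLevel meanCurv gradNorm normal normSqg momentum divg chr)
open SSM

section smooth

variable {E : Type*} [NormedAddCommGroup E] [NormedSpace ℝ E] {n : WithTop ℕ∞} {x : E}

theorem s_det_at {m : ℕ} {A : E → Matrix (Fin m) (Fin m) ℝ}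
    (h : ∀ i j, ContDiffAt ℝ n (fun y => A y i j) x) : ContDiffAt ℝ n (fun y => (A y).det) x := by
  simp only [Matrix.det_apply']
  exact ContDiffAt.sum fun σ _ => contDiffAt_const.mul (contDiffAt_prod fun i _ => h _ _)

theorem s_inv_at {m : ℕ} {A : E → Matrix (Fin m) (Fin m) ℝ}
    (h : ∀ i j, ContDiffAt ℝ n (fun y => A y i j) x) (hd : (A x).det ≠ 0) (i j : Fin m) :
    ContDiffAt ℝ n (fun y => (A y)⁻¹ i j) x := by
  have h1 : ContDiffAt ℝ n (fun y => ((A y).det)⁻¹) x := (s_det_at h).inv hd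
  have h2 : ContDiffAt ℝ n (fun y => (A y).adjugate i j) x := by
    simp only [Matrix.adjugate_apply]
    apply s_det_at
    intro a b
    by_cases hab : a = j
    · subst hab
      simp only [Matrix.updateRow_self]
      exact contDiffAt_const
    · simp only [Matrix.updateRow_ne hab]
      exact h a b
  have e : (fun y => (A y)⁻¹ i j) = fun y => ((A y).det)⁻¹ * (A y).adjugate i j := by
    funext y
    rw [Matrix.inv_def, Ring.inverse_eq_inv']
    rfl
  rw [e]
  exact h1.mul h2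

end smooth

theorem isOpen_ext' (a : ℝ) : IsOpen {x : E3 | a < ‖x‖} := isOpen_lt continuous_const continuous_norm

/-- Smooth tensors on `{a < |x|}`. -/
def SmT (h : Tens) (a : ℝ) : Prop := ∀ i j, ContDiffOn ℝ ∞ (fun x => h x i j) {x : E3 | a < ‖x‖}

variable {g h : Tens} {a : ℝ} {x : E3}

theorem SmT.at (hh : SmT h a) (hx : a < ‖x‖) (i j : Fin 3) : ContDiffAt ℝ ∞ (fun y => h y i j) x :=
  (hh i j).contDiffAt ((isOpen_ext' a).mem_nhds hx)

/-- Smooth metrics on `{a < |x|}`. -/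
structure SmM (g : Tens) (a : ℝ) : Prop where
  sm : SmT g a
  symm : ∀ x : E3, a < ‖x‖ → (g x).IsSymm
  pos : ∀ x : E3, a < ‖x‖ → ∀ v : Fin 3 → ℝ, v ≠ 0 → 0 < quad g x v

theorem SmM.det (hg : SmM g a) (hx : a < ‖x‖) : IsUnit (g x).det := isUnit_det (hg.symm x hx) (hg.pos x hx)

theorem SmM.inv (hg : SmM g a) (hx : a < ‖x‖) (i j : Fin 3) : ContDiffAt ℝ ∞ (fun y => (g y)⁻¹ i j) x :=
  s_inv_at (fun i j => hg.sm.at hx i j) (hg.det hx).ne_zero i j

theorem SmM.trg_at (hg : SmM g a) (hh : SmT h a) (hx : a < ‖x‖) : ContDiffAt ℝ ∞ (trg g h) x := by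
  unfold trg
  exact ContDiffAt.sum fun i _ => ContDiffAt.sum fun j _ => (hg.inv hx i j).mul (hh.at hx i j)

theorem contDiffAt_pd {f : E3 → ℝ} (hf : ContDiffAt ℝ ∞ f x) (k : Fin 3) : ContDiffAt ℝ ∞ (pd k f) x := by
  unfold pd
  exact (hf.fderiv_right (m := ∞) (by simp)).clm_apply contDiffAt_const

theorem SmM.det_pos (hg : SmM g a) (hx : a < ‖x‖) : 0 < (g x).det :=
  (posDef (hg.symm x hx) (hg.pos x hx)).det_pos

end UMB
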